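import Mathlib
set_option autoImplicit false

/-! # Annuli: slices and Gaussian averages -/

namespace Pool.Agent.V11160.SPS

open MeasureTheory Real
open scoped ENNReal RealInnerProductSpace

theorem half_slice (m a w q : ℝ) (hm : 1 ≤ m) (ha : 0 ≤ a) (hw : 0 < w) (s t : ℝ) (hs : 0 ≤ s)
    (hst : s ≤ t) (h1 : a ^ 2 < s ^ 2 + q) (h2 : t ^ 2 + q ≤ (a + w) ^ 2) (h3 : s ^ 2 + q ≤ m * s ^ 2)
    (hq : 0 ≤ q) : t - s ≤ 2 * m * w := by
  have h4 : (t - s) * (t + s) ≤ w * (2 * a + w) := by nlinarith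
  by_cases haw : w ≤ a
  · have hms : a ≤ m * s := by
      by_contra hcon
      push Not at hcon
      have : (m * s) ^ 2 < a ^ 2 := by
        have : 0 ≤ m * s := by positivity
        nlinarith
      have h5 : m * s ^ 2 ≤ (m * s) ^ 2 := by
        have : m * s ^ 2 * 1 ≤ m * s ^ 2 * m := by
          apply mul_le_mul_of_nonneg_left hm; positivity
        nlinarith
      linarith
    have hmt : a ≤ m * t := hms.trans (mul_le_mul_of_nonneg_left hst (by linarith))
    have h6 : (t - s) * (2 * a) ≤ m * (w * (2 * a + w)) := by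
      calc (t - s) * (2 * a) ≤ (t - s) * (m * t + m * s) := by
            apply mul_le_mul_of_nonneg_left (by linarith); linarith
        _ = m * ((t - s) * (t + s)) := by ring
        _ ≤ m * (w * (2 * a + w)) := by
            apply mul_le_mul_of_nonneg_left h4; linarith
    have ha0 : 0 < a := by linarith
    have h7 : m * (w * (2 * a + w)) ≤ 2 * m * w * (2 * a) := by
      have : m * w * (2 * a + w) ≤ m * w * (4 * a) := by
        apply mul_le_mul_of_nonneg_left (by linarith); positivity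
      nlinarith
    have h8 : (t - s) * (2 * a) ≤ (2 * m * w) * (2 * a) := by linarith
    exact le_of_mul_le_mul_right h8 (by linarith)
  · push Not at haw
    have h5 : t ≤ a + w := by
      by_contra hcon
      push Not at hcon
      nlinarith
    have : t - s ≤ 2 * w := by linarith
    have h6 : 2 * w ≤ 2 * m * w := by nlinarith
    linarith

theorem slice (m a w q : ℝ) (hm : 1 ≤ m) (ha : 0 ≤ a) (hw : 0 < w) (hq : 0 ≤ q) :
    volume {t : ℝ | a ^ 2 < t ^ 2 + q ∧ t ^ 2 + q ≤ (a + w) ^ 2 ∧ t ^ 2 + q ≤ m * t ^ 2}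
      ≤ ENNReal.ofReal (4 * m * w) := by
  set T := {t : ℝ | a ^ 2 < t ^ 2 + q ∧ t ^ 2 + q ≤ (a + w) ^ 2 ∧ t ^ 2 + q ≤ m * t ^ 2} with hT
  have h1 : T ⊆ (T ∩ Set.Ici 0) ∪ (T ∩ Set.Iic 0) := by
    intro t ht
    rcases le_total 0 t with h | h
    · exact Or.inl ⟨ht, h⟩
    · exact Or.inr ⟨ht, h⟩
  have h2 : volume (T ∩ Set.Ici 0) ≤ ENNReal.ofReal (2 * m * w) := by
    refine (Real.volume_le_diam _).trans (Metric.ediam_le ?_)
    rintro s ⟨hs, hs0⟩ t ⟨ht, ht0⟩
    rw [edist_dist, Real.dist_eq]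
    apply ENNReal.ofReal_le_ofReal
    rw [abs_le]
    constructor
    · rcases le_total s t with h | h
      · have := half_slice m a w q hm ha hw s t hs0 h hs.1 ht.2.1 hs.2.2 hq
        linarith
      · have : 0 < m * w := by positivity
        linarith
    · rcases le_total s t with h | h
      · have : 0 < m * w := by positivity
        linarith
      · have := half_slice m a w q hm ha hw t s ht0 h ht.1 hs.2.1 ht.2.2 hq
        linarith
  have h3 : volume (T ∩ Set.Iic 0) ≤ ENNReal.ofReal (2 * m * w) := by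
    refine (Real.volume_le_diam _).trans (Metric.ediam_le ?_)
    rintro s ⟨hs, hs0⟩ t ⟨ht, ht0⟩
    rw [edist_dist, Real.dist_eq]
    apply ENNReal.ofReal_le_ofReal
    have hs0' : (0 : ℝ) ≤ -s := by simpa using hs0
    have ht0' : (0 : ℝ) ≤ -t := by simpa using ht0
    have hs1 : a ^ 2 < (-s) ^ 2 + q := by simpa using hs.1
    have hs2 : (-s) ^ 2 + q ≤ (a + w) ^ 2 := by simpa using hs.2.1
    have hs3 : (-s) ^ 2 + q ≤ m * (-s) ^ 2 := by simpa using hs.2.2
    have ht1 : a ^ 2 < (-t) ^ 2 + q := by simpa using ht.1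
    have ht2 : (-t) ^ 2 + q ≤ (a + w) ^ 2 := by simpa using ht.2.1
    have ht3 : (-t) ^ 2 + q ≤ m * (-t) ^ 2 := by simpa using ht.2.2
    rw [abs_le]
    constructor
    · rcases le_total s t with h | h
      · have := half_slice m a w q hm ha hw (-t) (-s) ht0' (by linarith) ht1 hs2 ht3 hq
        linarith
      · have : 0 < m * w := by positivity
        linarith
    · rcases le_total s t with h | h
      · have : 0 < m * w := by positivity
        linarith
      · have := half_slice m a w q hm ha hw (-s) (-t) hs0' (by linarith) hs1 ht2 hs3 hq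
        linarith
  calc volume T ≤ volume ((T ∩ Set.Ici 0) ∪ (T ∩ Set.Iic 0)) := measure_mono h1
    _ ≤ volume (T ∩ Set.Ici 0) + volume (T ∩ Set.Iic 0) := measure_union_le _ _
    _ ≤ ENNReal.ofReal (2 * m * w) + ENNReal.ofReal (2 * m * w) := add_le_add h2 h3
    _ = ENNReal.ofReal (4 * m * w) := by
        rw [← ENNReal.ofReal_add (by positivity) (by positivity)]
        congr 1
        ring

/-- The Gaussian integral over `ℝ^n` in coordinates. -/
theorem gauss_one (n : ℕ) (v : Fin n → ℝ) :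
    ∫⁻ u : Fin n → ℝ, ENNReal.ofReal (Real.exp (-π * ∑ i, (u i - v i) ^ 2)) = 1 := by
  have h1 : ∫ u : EuclideanSpace ℝ (Fin n), Real.exp (-π * ‖u‖ ^ 2) = 1 := by
    rw [GaussianFourier.integral_rexp_neg_mul_sq_norm Real.pi_pos, div_self Real.pi_ne_zero,
      Real.one_rpow]
  have h2 : ∫ u : Fin n → ℝ, Real.exp (-π * ∑ i, (u i) ^ 2) = 1 := by
    rw [← h1, ← (PiLp.volume_preserving_toLp (Fin n)).integral_comp
      (MeasurableEquiv.toLp 2 (Fin n → ℝ)).measurableEmbedding]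
    refine integral_congr_ae (Filter.Eventually.of_forall fun u => ?_)
    simp only
    rw [EuclideanSpace.norm_sq_eq]
    simp
  have h3 : ∫ u : Fin n → ℝ, Real.exp (-π * ∑ i, (u i - v i) ^ 2) = 1 := by
    rw [← h2]
    exact integral_sub_right_eq_self (fun u : Fin n → ℝ => Real.exp (-π * ∑ i, (u i) ^ 2)) v
  rw [← ofReal_integral_eq_lintegral_ofReal, h3, ENNReal.ofReal_one]
  · by_contra hcon
    rw [integral_undef hcon] at h3
    norm_num at h3
  · exact Filter.Eventually.of_forall fun u => (Real.exp_pos _).le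

/-- The annulus `a < |ξ| ≤ b`. -/
def ann {d : ℕ} (a b : ℝ) : Set (EuclideanSpace ℝ (Fin d)) := {ξ | a < ‖ξ‖ ∧ ‖ξ‖ ≤ b}

theorem meas_ann {d : ℕ} (a b : ℝ) : MeasurableSet (ann a b : Set (EuclideanSpace ℝ (Fin d))) := by
  apply MeasurableSet.inter
  · exact measurableSet_lt measurable_const measurable_norm
  · exact measurableSet_le measurable_norm measurable_const

theorem meas_T (n : ℕ) (a w : ℝ) (j : Fin (n + 1)) : MeasurableSet {u : Fin (n + 1) → ℝ |
    a ^ 2 < ∑ i, (u i) ^ 2 ∧ ∑ i, (u i) ^ 2 ≤ (a + w) ^ 2 ∧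
    ∑ i, (u i) ^ 2 ≤ (n + 1) * (u j) ^ 2} := by
  have h : Measurable fun u : Fin (n + 1) → ℝ => ∑ i, (u i) ^ 2 := by fun_prop
  have h' : Measurable fun u : Fin (n + 1) → ℝ => ((n : ℝ) + 1) * (u j) ^ 2 := by fun_prop
  exact MeasurableSet.inter (measurableSet_lt measurable_const h)
    (MeasurableSet.inter (measurableSet_le h measurable_const) (measurableSet_le h h'))

theorem gauss_slice (n : ℕ) (a w : ℝ) (ha : 0 ≤ a) (hw : 0 < w) (j : Fin (n + 1))
    (v : Fin (n + 1) → ℝ) :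
    ∫⁻ u : Fin (n + 1) → ℝ, Set.indicator {u : Fin (n + 1) → ℝ | a ^ 2 < ∑ i, (u i) ^ 2 ∧
      ∑ i, (u i) ^ 2 ≤ (a + w) ^ 2 ∧ ∑ i, (u i) ^ 2 ≤ (n + 1) * (u j) ^ 2}
      (fun u => ENNReal.ofReal (Real.exp (-π * ∑ i, (u i - v i) ^ 2))) u
      ≤ ENNReal.ofReal (4 * (n + 1) * w) := by
  have hmp := volume_preserving_piFinSuccAbove (fun _ : Fin (n + 1) => ℝ) j
  set e := MeasurableEquiv.piFinSuccAbove (fun _ : Fin (n + 1) => ℝ) j with he
  have hsum : ∀ (x : ℝ × (Fin n → ℝ)) (c : Fin (n + 1) → ℝ),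
      ∑ i, ((e.symm x) i - c i) ^ 2 = (x.1 - c j) ^ 2 + ∑ i, (x.2 i - c (j.succAbove i)) ^ 2 := by
    intro x c
    rw [Fin.sum_univ_succAbove _ j]
    simp [he, MeasurableEquiv.piFinSuccAbove]
  have hsum0 : ∀ (x : ℝ × (Fin n → ℝ)),
      ∑ i, ((e.symm x) i) ^ 2 = (x.1) ^ 2 + ∑ i, (x.2 i) ^ 2 := by
    intro x
    simpa using hsum x 0
  have hj : ∀ (x : ℝ × (Fin n → ℝ)), (e.symm x) j = x.1 := by
    intro x
    simp [he, MeasurableEquiv.piFinSuccAbove]
  rw [← (hmp.symm e).lintegral_comp_emb e.symm.measurableEmbedding]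
  calc ∫⁻ x : ℝ × (Fin n → ℝ), Set.indicator {u : Fin (n + 1) → ℝ | a ^ 2 < ∑ i, (u i) ^ 2 ∧
          ∑ i, (u i) ^ 2 ≤ (a + w) ^ 2 ∧ ∑ i, (u i) ^ 2 ≤ (n + 1) * (u j) ^ 2}
          (fun u => ENNReal.ofReal (Real.exp (-π * ∑ i, (u i - v i) ^ 2))) (e.symm x)
      ≤ ∫⁻ x : ℝ × (Fin n → ℝ), Set.indicator {x : ℝ × (Fin n → ℝ) |
          a ^ 2 < x.1 ^ 2 + ∑ i, (x.2 i) ^ 2 ∧ x.1 ^ 2 + ∑ i, (x.2 i) ^ 2 ≤ (a + w) ^ 2 ∧
          x.1 ^ 2 + ∑ i, (x.2 i) ^ 2 ≤ (n + 1) * x.1 ^ 2}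
          (fun x => ENNReal.ofReal (Real.exp (-π * ∑ i, (x.2 i - v (j.succAbove i)) ^ 2))) x := by
        apply lintegral_mono
        intro x
        simp only [Set.indicator_apply, Set.mem_ofPred_eq, hsum0, hj]
        split_ifs with h
        · apply ENNReal.ofReal_le_ofReal
          apply Real.exp_le_exp.2
          rw [hsum x v]
          have : 0 ≤ (x.1 - v j) ^ 2 := by positivity
          nlinarith [Real.pi_pos]
        · exact le_rfl
    _ = ∫⁻ y : Fin n → ℝ, ∫⁻ t : ℝ, Set.indicator {x : ℝ × (Fin n → ℝ) |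
          a ^ 2 < x.1 ^ 2 + ∑ i, (x.2 i) ^ 2 ∧ x.1 ^ 2 + ∑ i, (x.2 i) ^ 2 ≤ (a + w) ^ 2 ∧
          x.1 ^ 2 + ∑ i, (x.2 i) ^ 2 ≤ (n + 1) * x.1 ^ 2}
          (fun x => ENNReal.ofReal (Real.exp (-π * ∑ i, (x.2 i - v (j.succAbove i)) ^ 2)))
            (t, y) := by
        rw [Measure.volume_eq_prod, lintegral_prod_symm]
        have h1 : Measurable fun x : ℝ × (Fin n → ℝ) => x.1 ^ 2 + ∑ i, (x.2 i) ^ 2 := by fun_prop
        have h2 : Measurable fun x : ℝ × (Fin n → ℝ) => ((n : ℝ) + 1) * x.1 ^ 2 := by fun_prop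
        exact AEMeasurable.indicator (by fun_prop) (MeasurableSet.inter
          (measurableSet_lt measurable_const h1) (MeasurableSet.inter
          (measurableSet_le h1 measurable_const) (measurableSet_le h1 h2)))
    _ ≤ ∫⁻ y : Fin n → ℝ, ENNReal.ofReal (Real.exp (-π * ∑ i, (y i - v (j.succAbove i)) ^ 2)) *
          ENNReal.ofReal (4 * (n + 1) * w) := by
        apply lintegral_mono
        intro y
        have h1 : ∫⁻ t : ℝ, Set.indicator {x : ℝ × (Fin n → ℝ) |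
            a ^ 2 < x.1 ^ 2 + ∑ i, (x.2 i) ^ 2 ∧ x.1 ^ 2 + ∑ i, (x.2 i) ^ 2 ≤ (a + w) ^ 2 ∧
            x.1 ^ 2 + ∑ i, (x.2 i) ^ 2 ≤ (n + 1) * x.1 ^ 2}
            (fun x => ENNReal.ofReal (Real.exp (-π * ∑ i, (x.2 i - v (j.succAbove i)) ^ 2)))
              (t, y)
            = ∫⁻ t : ℝ, Set.indicator {t : ℝ | a ^ 2 < t ^ 2 + (∑ i, (y i) ^ 2) ∧
                t ^ 2 + (∑ i, (y i) ^ 2) ≤ (a + w) ^ 2 ∧
                t ^ 2 + (∑ i, (y i) ^ 2) ≤ ((n : ℝ) + 1) * t ^ 2}
                (fun _ => ENNReal.ofReal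
                  (Real.exp (-π * ∑ i, (y i - v (j.succAbove i)) ^ 2))) t := rfl
        simp only
        rw [h1]
        refine (lintegral_indicator_const_le _ _).trans ?_
        gcongr
        exact slice ((n : ℝ) + 1) a w _ (by linarith [(Nat.cast_nonneg n : (0 : ℝ) ≤ n)]) ha
          hw (Finset.sum_nonneg fun i _ => sq_nonneg _)
    _ = ENNReal.ofReal (4 * (n + 1) * w) := by
        rw [lintegral_mul_const _ (by fun_prop), gauss_one, one_mul]

/-- Gaussian averages of annuli. -/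
theorem gauss_ann (n : ℕ) (a w : ℝ) (ha : 0 ≤ a) (hw : 0 < w)
    (ζ : EuclideanSpace ℝ (Fin (n + 1))) :
    ∫⁻ η in (ann a (a + w) : Set (EuclideanSpace ℝ (Fin (n + 1)))),
      ENNReal.ofReal (Real.exp (-π * ‖η - ζ‖ ^ 2)) ≤ ENNReal.ofReal (4 * (n + 1) ^ 2 * w) := by
  rw [← lintegral_indicator (meas_ann _ _),
    ← (PiLp.volume_preserving_toLp (Fin (n + 1))).lintegral_comp_emb
      (MeasurableEquiv.toLp 2 (Fin (n + 1) → ℝ)).measurableEmbedding]
  calc ∫⁻ u : Fin (n + 1) → ℝ, (ann a (a + w)).indicator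
        (fun η => ENNReal.ofReal (Real.exp (-π * ‖η - ζ‖ ^ 2))) (WithLp.toLp 2 u)
      ≤ ∫⁻ u : Fin (n + 1) → ℝ, ∑ j, Set.indicator {u : Fin (n + 1) → ℝ |
          a ^ 2 < ∑ i, (u i) ^ 2 ∧ ∑ i, (u i) ^ 2 ≤ (a + w) ^ 2 ∧
          ∑ i, (u i) ^ 2 ≤ (n + 1) * (u j) ^ 2}
          (fun u => ENNReal.ofReal (Real.exp (-π * ∑ i, (u i - ζ i) ^ 2))) u := by
        apply lintegral_mono
        intro u
        simp only
        by_cases hu : WithLp.toLp 2 u ∈ (ann a (a + w) : Set (EuclideanSpace ℝ (Fin (n + 1))))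
        · rw [Set.indicator_of_mem hu]
          have hn : ‖(WithLp.toLp 2 u : EuclideanSpace ℝ (Fin (n + 1)))‖ ^ 2 = ∑ i, (u i) ^ 2 := by
            rw [EuclideanSpace.norm_sq_eq]
            simp
          have h1 : a ^ 2 < ∑ i, (u i) ^ 2 := by
            rw [← hn]
            have := hu.1
            nlinarith
          have h2 : ∑ i, (u i) ^ 2 ≤ (a + w) ^ 2 := by
            rw [← hn]
            have := hu.2
            have h0 := norm_nonneg (WithLp.toLp 2 u : EuclideanSpace ℝ (Fin (n + 1)))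
            nlinarith
          obtain ⟨j, -, hj⟩ := Finset.exists_max_image Finset.univ (fun i => (u i) ^ 2)
            Finset.univ_nonempty
          have h3 : ∑ i, (u i) ^ 2 ≤ (n + 1) * (u j) ^ 2 := by
            calc ∑ i, (u i) ^ 2 ≤ ∑ _i : Fin (n + 1), (u j) ^ 2 :=
                  Finset.sum_le_sum fun i hi => hj i hi
              _ = (n + 1) * (u j) ^ 2 := by simp
          refine le_trans ?_ (Finset.single_le_sum (fun i _ => zero_le) (Finset.mem_univ j))
          rw [Set.indicator_of_mem (show u ∈ {u : Fin (n + 1) → ℝ |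
            a ^ 2 < ∑ i, (u i) ^ 2 ∧ ∑ i, (u i) ^ 2 ≤ (a + w) ^ 2 ∧
            ∑ i, (u i) ^ 2 ≤ (n + 1) * (u j) ^ 2} from ⟨h1, h2, h3⟩)]
          apply le_of_eq
          rw [EuclideanSpace.norm_sq_eq]
          simp
        · rw [Set.indicator_of_notMem hu]
          exact zero_le
    _ = ∑ j : Fin (n + 1), ∫⁻ u : Fin (n + 1) → ℝ, Set.indicator {u : Fin (n + 1) → ℝ |
          a ^ 2 < ∑ i, (u i) ^ 2 ∧ ∑ i, (u i) ^ 2 ≤ (a + w) ^ 2 ∧
          ∑ i, (u i) ^ 2 ≤ (n + 1) * (u j) ^ 2}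
          (fun u => ENNReal.ofReal (Real.exp (-π * ∑ i, (u i - ζ i) ^ 2))) u := by
        rw [lintegral_finsetSum]
        intro j _
        exact Measurable.indicator (by fun_prop) (meas_T n a w j)
    _ ≤ ∑ _j : Fin (n + 1), ENNReal.ofReal (4 * (n + 1) * w) :=
        Finset.sum_le_sum fun j _ => gauss_slice n a w ha hw j _
    _ = ENNReal.ofReal (4 * (n + 1) ^ 2 * w) := by
        rw [Finset.sum_const, Finset.card_univ, Fintype.card_fin, nsmul_eq_mul,
          ← ENNReal.ofReal_natCast, ← ENNReal.ofReal_mul (by positivity)]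
        congr 1
        push_cast
        ring

end Pool.Agent.V11160.SPS
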