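import Mathlib
import Pool.Agent.V11160.SPS.A
set_option autoImplicit false

/-! # The local `L²` estimate for functions with spectrum in a thin annulus -/

namespace Pool.Agent.V11160.SPS

open MeasureTheory Real FourierTransform
open scoped ENNReal RealInnerProductSpace NNReal ComplexConjugate

variable {d : ℕ}

theorem flip1 (h : EuclideanSpace ℝ (Fin d) → ℂ) (hh : Integrable h)
    (η : EuclideanSpace ℝ (Fin d)) :
    ∫ x, 𝓕 h x * Complex.exp (-π * ‖x‖ ^ 2 + 2 * π * Complex.I * ⟪η, x⟫)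
      = ∫ ξ, h ξ * Complex.exp (-π * ‖η - ξ‖ ^ 2) := by
  have hb : 0 < ((π : ℝ) : ℂ).re := by simpa using Real.pi_pos
  have J : Integrable (fun x : EuclideanSpace ℝ (Fin d) =>
      Complex.exp (-(π : ℂ) * ‖x‖ ^ 2 + 2 * π * Complex.I * ⟪η, x⟫)) :=
    GaussianFourier.integrable_cexp_neg_mul_sq_norm_add hb _ _
  have h1 := VectorFourier.integral_fourierIntegral_smul_eq_flip
    (L := innerₗ (EuclideanSpace ℝ (Fin d))) Real.continuous_fourierChar continuous_inner hh J
  have h2 : ∀ ξ, 𝓕 (fun x : EuclideanSpace ℝ (Fin d) =>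
      Complex.exp (-(π : ℂ) * ‖x‖ ^ 2 + 2 * π * Complex.I * ⟪η, x⟫)) ξ
      = Complex.exp (-π * ‖η - ξ‖ ^ 2) := by
    intro ξ
    rw [fourier_gaussian_innerProductSpace' hb, div_self (by exact_mod_cast Real.pi_ne_zero),
      Complex.one_cpow, one_mul]
    congr 1
    field_simp
  have h3 : ∀ ξ, VectorFourier.fourierIntegral 𝐞 volume (innerₗ (EuclideanSpace ℝ (Fin d))).flip
      (fun x : EuclideanSpace ℝ (Fin d) =>
      Complex.exp (-(π : ℂ) * ‖x‖ ^ 2 + 2 * π * Complex.I * ⟪η, x⟫)) ξ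
      = Complex.exp (-π * ‖η - ξ‖ ^ 2) := by
    intro ξ
    rw [← h2 ξ]
    simp [VectorFourier.fourierIntegral, Real.fourier_eq, real_inner_comm]
  simp only [smul_eq_mul, h3] at h1
  exact h1

theorem flip2 (h : EuclideanSpace ℝ (Fin d) → ℂ) (hh : Integrable h) :
    ∫ x, conj (𝓕 h x) * (𝓕 h x * Complex.exp (-π * ‖x‖ ^ 2))
      = ∫ η, conj (h η) * ∫ ξ, h ξ * Complex.exp (-π * ‖η - ξ‖ ^ 2) := by
  have hb : 0 < ((π : ℝ) : ℂ).re := by simpa using Real.pi_pos
  have J : Integrable (fun x : EuclideanSpace ℝ (Fin d) =>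
      Complex.exp (-(π : ℂ) * ‖x‖ ^ 2)) := by
    simpa using GaussianFourier.integrable_cexp_neg_mul_sq_norm_add hb 0
      (0 : EuclideanSpace ℝ (Fin d))
  have hcont : Continuous (𝓕 h) :=
    VectorFourier.fourierIntegral_continuous Real.continuous_fourierChar
      (by exact continuous_inner) hh
  have J2 : Integrable (fun x : EuclideanSpace ℝ (Fin d) =>
      𝓕 h x * Complex.exp (-(π : ℂ) * ‖x‖ ^ 2)) := by
    refine Integrable.bdd_mul (c := ∫ x, ‖h x‖) J hcont.aestronglyMeasurable ?_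
    exact Filter.Eventually.of_forall fun x =>
      VectorFourier.norm_fourierIntegral_le_integral_norm _ _ _ _ _
  have h1 := VectorFourier.integral_sesq_fourierIntegral_eq_neg_flip
    (L := innerₗ (EuclideanSpace ℝ (Fin d)))
    (M := (innerSL ℂ : ℂ →L⋆[ℂ] ℂ →L[ℂ] ℂ)) Real.continuous_fourierChar continuous_inner hh J2
  have h3 : ∀ η, VectorFourier.fourierIntegral 𝐞 volume
      (-(innerₗ (EuclideanSpace ℝ (Fin d))).flip)
      (fun x : EuclideanSpace ℝ (Fin d) => 𝓕 h x * Complex.exp (-(π : ℂ) * ‖x‖ ^ 2)) η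
      = ∫ ξ, h ξ * Complex.exp (-π * ‖η - ξ‖ ^ 2) := by
    intro η
    rw [← flip1 h hh η]
    simp only [VectorFourier.fourierIntegral, Circle.smul_def, Real.fourierChar_apply]
    refine integral_congr_ae (Filter.Eventually.of_forall fun x => ?_)
    simp only [LinearMap.neg_apply, LinearMap.flip_apply, innerₗ_apply_apply, neg_neg,
      smul_eq_mul]
    rw [mul_left_comm, ← Complex.exp_add]
    congr 2
    push_cast
    ring
  simp only [innerSL_apply_apply, h3] at h1
  simp only [RCLike.inner_apply] at h1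
  calc ∫ x, conj (𝓕 h x) * (𝓕 h x * Complex.exp (-π * ‖x‖ ^ 2))
      = ∫ x, (𝓕 h x * Complex.exp (-π * ‖x‖ ^ 2)) * conj (𝓕 h x) := by
        refine integral_congr_ae (Filter.Eventually.of_forall fun x => ?_)
        simp only
        rw [mul_comm]
    _ = _ := h1
    _ = _ := by
        refine integral_congr_ae (Filter.Eventually.of_forall fun x => ?_)
        simp only
        rw [mul_comm]

theorem amgm (p q : ℝ≥0) : 2 * ((p : ℝ≥0∞) * q) ≤ (p : ℝ≥0∞) ^ 2 + (q : ℝ≥0∞) ^ 2 := by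
  have := two_mul_le_add_sq p q
  rw [mul_assoc] at this
  exact_mod_cast this

/-- Weighted local estimate: a function with spectrum in an annulus of width `w`. -/
theorem weighted (n : ℕ) (h : EuclideanSpace ℝ (Fin (n + 1)) → ℂ) (hm : Measurable h)
    (hh : Integrable h) (a w : ℝ) (ha : 0 ≤ a) (hw : 0 < w)
    (hsupp : ∀ ξ, ξ ∉ (ann a (a + w) : Set (EuclideanSpace ℝ (Fin (n + 1)))) → h ξ = 0) :
    ∫⁻ x, ‖𝓕 h x‖ₑ ^ 2 * ENNReal.ofReal (Real.exp (-π * ‖x‖ ^ 2))
      ≤ ENNReal.ofReal (4 * (n + 1) ^ 2 * w) * ∫⁻ ξ, ‖h ξ‖ₑ ^ 2 := by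
  have hcont : Continuous (𝓕 h) :=
    VectorFourier.fourierIntegral_continuous Real.continuous_fourierChar
      (by exact continuous_inner) hh
  have hbd : ∀ x, ‖𝓕 h x‖ ≤ ∫ x, ‖h x‖ := fun x =>
      VectorFourier.norm_fourierIntegral_le_integral_norm _ _ _ _ _
  have hG : Integrable (fun x : EuclideanSpace ℝ (Fin (n + 1)) => Real.exp (-π * ‖x‖ ^ 2)) := by
    have hb : 0 < ((π : ℝ) : ℂ).re := by simpa using Real.pi_pos
    have J : Integrable (fun x : EuclideanSpace ℝ (Fin (n + 1)) =>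
        Complex.exp (-(π : ℂ) * ‖x‖ ^ 2)) := by
      simpa using GaussianFourier.integrable_cexp_neg_mul_sq_norm_add hb 0
        (0 : EuclideanSpace ℝ (Fin (n + 1)))
    refine J.norm.congr (Filter.Eventually.of_forall fun x => ?_)
    simp only
    rw [Complex.norm_exp]
    congr 1
    norm_cast
  have hint : Integrable (fun x : EuclideanSpace ℝ (Fin (n + 1)) =>
      ‖𝓕 h x‖ ^ 2 * Real.exp (-π * ‖x‖ ^ 2)) := by
    refine Integrable.bdd_mul (c := (∫ x, ‖h x‖) ^ 2) hG
      (by fun_prop) ?_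
    refine Filter.Eventually.of_forall fun x => ?_
    rw [norm_pow, norm_norm]
    exact pow_le_pow_left₀ (norm_nonneg _) (hbd x) 2
  have h1 : ∫⁻ x, ‖𝓕 h x‖ₑ ^ 2 * ENNReal.ofReal (Real.exp (-π * ‖x‖ ^ 2))
      = ENNReal.ofReal (∫ x, ‖𝓕 h x‖ ^ 2 * Real.exp (-π * ‖x‖ ^ 2)) := by
    rw [ofReal_integral_eq_lintegral_ofReal hint (Filter.Eventually.of_forall fun x => by
      positivity)]
    refine lintegral_congr fun x => ?_
    rw [ENNReal.ofReal_mul (by positivity), ENNReal.ofReal_pow (norm_nonneg _), ofReal_norm]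
  have h2 : ENNReal.ofReal (∫ x, ‖𝓕 h x‖ ^ 2 * Real.exp (-π * ‖x‖ ^ 2))
      = ‖∫ x, conj (𝓕 h x) * (𝓕 h x * Complex.exp (-π * ‖x‖ ^ 2))‖ₑ := by
    have h3 : ∫ x, conj (𝓕 h x) * (𝓕 h x * Complex.exp (-π * ‖x‖ ^ 2))
        = ((∫ x, ‖𝓕 h x‖ ^ 2 * Real.exp (-π * ‖x‖ ^ 2) : ℝ) : ℂ) := by
      rw [← integral_complex_ofReal]
      refine integral_congr_ae (Filter.Eventually.of_forall fun x => ?_)
      simp only
      rw [← mul_assoc, Complex.conj_mul']
      push_cast
      ring_nf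
    rw [h3, ← ofReal_norm, Complex.norm_real, Real.norm_of_nonneg]
    exact integral_nonneg fun x => by positivity
  rw [h1, h2, flip2 h hh]
  set A : Set (EuclideanSpace ℝ (Fin (n + 1))) := ann a (a + w) with hA
  have hAm : MeasurableSet A := meas_ann _ _
  set k : EuclideanSpace ℝ (Fin (n + 1)) → EuclideanSpace ℝ (Fin (n + 1)) → ℝ≥0∞ :=
    fun η ξ => ENNReal.ofReal (Real.exp (-π * ‖η - ξ‖ ^ 2)) with hk
  have hksymm : ∀ η ξ, k η ξ = k ξ η := by
    intro η ξ
    simp only [hk, norm_sub_rev η ξ]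
  have hkm : Measurable fun p : EuclideanSpace ℝ (Fin (n + 1)) × EuclideanSpace ℝ (Fin (n + 1)) =>
      k p.1 p.2 := by
    simp only [hk]
    fun_prop
  calc ‖∫ η, conj (h η) * ∫ ξ, h ξ * Complex.exp (-π * ‖η - ξ‖ ^ 2)‖ₑ
      ≤ ∫⁻ η, ‖conj (h η) * ∫ ξ, h ξ * Complex.exp (-π * ‖η - ξ‖ ^ 2)‖ₑ :=
        enorm_integral_le_lintegral_enorm _
    _ ≤ ∫⁻ η, ∫⁻ ξ, ‖h η‖ₑ * ‖h ξ‖ₑ * k η ξ := by
        apply lintegral_mono
        intro η
        simp only
        rw [enorm_mul]
        have : ‖conj (h η)‖ₑ = ‖h η‖ₑ := by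
          rw [← ofReal_norm, ← ofReal_norm, RCLike.norm_conj]
        rw [this]
        calc ‖h η‖ₑ * ‖∫ ξ, h ξ * Complex.exp (-π * ‖η - ξ‖ ^ 2)‖ₑ
            ≤ ‖h η‖ₑ * ∫⁻ ξ, ‖h ξ * Complex.exp (-π * ‖η - ξ‖ ^ 2)‖ₑ := by
              gcongr
              exact enorm_integral_le_lintegral_enorm _
          _ = ∫⁻ ξ, ‖h η‖ₑ * ‖h ξ * Complex.exp (-π * ‖η - ξ‖ ^ 2)‖ₑ := by
              rw [lintegral_const_mul]
              fun_prop
          _ = _ := by
              refine lintegral_congr fun ξ => ?_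
              rw [enorm_mul, ← mul_assoc]
              congr 1
              rw [← ofReal_norm, Complex.norm_exp]
              simp only [hk]
              congr 2
              norm_cast
    _ = ∫⁻ η in A, ∫⁻ ξ in A, ‖h η‖ₑ * ‖h ξ‖ₑ * k η ξ := by
        rw [← lintegral_indicator hAm]
        refine lintegral_congr fun η => ?_
        by_cases hη : η ∈ A
        · rw [Set.indicator_of_mem hη, ← lintegral_indicator hAm]
          refine lintegral_congr fun ξ => ?_
          by_cases hξ : ξ ∈ A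
          · rw [Set.indicator_of_mem hξ]
          · rw [Set.indicator_of_notMem hξ, hsupp ξ hξ]
            simp
        · rw [Set.indicator_of_notMem hη, hsupp η hη]
          simp
    _ ≤ ENNReal.ofReal (4 * (n + 1) ^ 2 * w) * ∫⁻ ξ, ‖h ξ‖ₑ ^ 2 := by
        have hmain : 2 * ∫⁻ η in A, ∫⁻ ξ in A, ‖h η‖ₑ * ‖h ξ‖ₑ * k η ξ
            ≤ 2 * (ENNReal.ofReal (4 * (n + 1) ^ 2 * w) * ∫⁻ ξ, ‖h ξ‖ₑ ^ 2) := by
          have hpart : ∫⁻ η in A, ∫⁻ ξ in A, ‖h η‖ₑ ^ 2 * k η ξ
              ≤ ENNReal.ofReal (4 * (n + 1) ^ 2 * w) * ∫⁻ ξ, ‖h ξ‖ₑ ^ 2 := by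
            calc ∫⁻ η in A, ∫⁻ ξ in A, ‖h η‖ₑ ^ 2 * k η ξ
                ≤ ∫⁻ η in A, ENNReal.ofReal (4 * (n + 1) ^ 2 * w) * ‖h η‖ₑ ^ 2 := by
                  apply lintegral_mono
                  intro η
                  simp only
                  rw [lintegral_const_mul _ (by fun_prop), mul_comm]
                  gcongr
                  simp only [hksymm η]
                  exact gauss_ann n a w ha hw η
              _ = ENNReal.ofReal (4 * (n + 1) ^ 2 * w) * ∫⁻ η in A, ‖h η‖ₑ ^ 2 := by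
                  rw [lintegral_const_mul _ (by fun_prop)]
              _ ≤ _ := by
                  gcongr
                  exact Measure.restrict_le_self
          have hswap : ∫⁻ η in A, ∫⁻ ξ in A, ‖h ξ‖ₑ ^ 2 * k η ξ
              = ∫⁻ η in A, ∫⁻ ξ in A, ‖h η‖ₑ ^ 2 * k η ξ := by
            rw [lintegral_lintegral_swap]
            · refine lintegral_congr fun η => ?_
              refine lintegral_congr fun ξ => ?_
              rw [hksymm]
            · apply Measurable.aemeasurable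
              fun_prop
          calc 2 * ∫⁻ η in A, ∫⁻ ξ in A, ‖h η‖ₑ * ‖h ξ‖ₑ * k η ξ
              = ∫⁻ η in A, ∫⁻ ξ in A, 2 * (‖h η‖ₑ * ‖h ξ‖ₑ * k η ξ) := by
                rw [← lintegral_const_mul]
                · refine lintegral_congr fun η => ?_
                  rw [lintegral_const_mul]
                  fun_prop
                · apply Measurable.lintegral_prod_right'
                    (f := fun p : EuclideanSpace ℝ (Fin (n + 1)) × EuclideanSpace ℝ (Fin (n + 1)) =>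
                      ‖h p.1‖ₑ * ‖h p.2‖ₑ * k p.1 p.2)
                  fun_prop
            _ ≤ ∫⁻ η in A, ∫⁻ ξ in A, (‖h η‖ₑ ^ 2 * k η ξ + ‖h ξ‖ₑ ^ 2 * k η ξ) := by
                refine lintegral_mono fun η => lintegral_mono fun ξ => ?_
                simp only
                rw [← add_mul, ← mul_assoc]
                gcongr
                exact amgm ‖h η‖₊ ‖h ξ‖₊
            _ = (∫⁻ η in A, ∫⁻ ξ in A, ‖h η‖ₑ ^ 2 * k η ξ)
                + ∫⁻ η in A, ∫⁻ ξ in A, ‖h ξ‖ₑ ^ 2 * k η ξ := by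
                rw [← lintegral_add_left]
                · refine lintegral_congr fun η => ?_
                  rw [lintegral_add_left]
                  fun_prop
                · apply Measurable.lintegral_prod_right'
                    (f := fun p : EuclideanSpace ℝ (Fin (n + 1)) × EuclideanSpace ℝ (Fin (n + 1)) =>
                      ‖h p.1‖ₑ ^ 2 * k p.1 p.2)
                  fun_prop
            _ ≤ _ := by
                rw [hswap, ← two_mul]
                gcongr
        exact (ENNReal.mul_le_mul_iff_right (by norm_num) (by norm_num)).1 hmain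

end Pool.Agent.V11160.SPS
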