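import Mathlib
import Pool.Agent.V11160.SPS.B
set_option autoImplicit false

/-! # Ball partial sums between integer radii -/

namespace Pool.Agent.V11160.SPS

open MeasureTheory Real FourierTransform Filter Topology
open scoped ENNReal RealInnerProductSpace NNReal ComplexConjugate

/-- The ball partial sum `∫_{|ξ| ≤ R} g(ξ) e^{2πi x·ξ} dξ`. -/
noncomputable def ballSum {d : ℕ} (g : EuclideanSpace ℝ (Fin d) → ℂ) (R : ℝ)
    (x : EuclideanSpace ℝ (Fin d)) : ℂ :=
  ∫ ξ in Metric.closedBall (0 : EuclideanSpace ℝ (Fin d)) R,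
    g ξ * Complex.exp (2 * π * Complex.I * ⟪x, ξ⟫)

/-- The part of the annulus. -/
noncomputable def piece {d : ℕ} (g : EuclideanSpace ℝ (Fin d) → ℂ) (a b : ℝ)
    (x : EuclideanSpace ℝ (Fin d)) : ℂ :=
  ∫ ξ in (ann a b : Set (EuclideanSpace ℝ (Fin d))),
    g ξ * Complex.exp (2 * π * Complex.I * ⟪x, ξ⟫)

variable {d : ℕ} {g : EuclideanSpace ℝ (Fin d) → ℂ}

theorem norm_char (x ξ : EuclideanSpace ℝ (Fin d)) :
    ‖Complex.exp (2 * π * Complex.I * ⟪x, ξ⟫)‖ = 1 := by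
  have : (2 * π * Complex.I * ⟪x, ξ⟫ : ℂ) = ((2 * π * ⟪x, ξ⟫ : ℝ) : ℂ) * Complex.I := by
    push_cast
    ring
  rw [this, Complex.norm_exp_ofReal_mul_I]

theorem intOn (hg : MemLp g 2 volume) (R : ℝ) (x : EuclideanSpace ℝ (Fin d)) :
    IntegrableOn (fun ξ => g ξ * Complex.exp (2 * π * Complex.I * ⟪x, ξ⟫))
      (Metric.closedBall (0 : EuclideanSpace ℝ (Fin d)) R) := by
  have h1 : IntegrableOn g (Metric.closedBall (0 : EuclideanSpace ℝ (Fin d)) R) := by
    have : IsFiniteMeasure (volume.restrict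
        (Metric.closedBall (0 : EuclideanSpace ℝ (Fin d)) R)) :=
      ⟨by rw [Measure.restrict_apply_univ]; exact measure_closedBall_lt_top⟩
    exact (hg.restrict _).integrable (by norm_num)
  refine Integrable.mul_bdd (c := 1) h1 (by fun_prop) ?_
  exact Eventually.of_forall fun ξ => (norm_char x ξ).le

theorem ann_subset (a b : ℝ) : (ann a b : Set (EuclideanSpace ℝ (Fin d))) ⊆
    Metric.closedBall 0 b := by
  intro ξ hξ
  simpa using hξ.2

theorem ballSum_sub (hg : MemLp g 2 volume) {a b : ℝ} (hab : a ≤ b)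
    (x : EuclideanSpace ℝ (Fin d)) : ballSum g b x - ballSum g a x = piece g a b x := by
  have h1 : Metric.closedBall (0 : EuclideanSpace ℝ (Fin d)) b
      = Metric.closedBall 0 a ∪ ann a b := by
    ext ξ
    simp only [Metric.mem_closedBall, dist_zero_right, Set.mem_union, ann, Set.mem_ofPred_eq]
    constructor
    · intro h
      rcases le_or_gt ‖ξ‖ a with h' | h'
      · exact Or.inl h'
      · exact Or.inr ⟨h', h⟩
    · rintro (h | h)
      · exact h.trans hab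
      · exact h.2
  have h2 : Disjoint (Metric.closedBall (0 : EuclideanSpace ℝ (Fin d)) a) (ann a b) := by
    rw [Set.disjoint_left]
    intro ξ hξ h'
    have := h'.1
    simp only [Metric.mem_closedBall, dist_zero_right] at hξ
    linarith
  rw [ballSum, ballSum, piece, h1, setIntegral_union h2 (meas_ann _ _) (intOn hg a x)
    ((intOn hg b x).mono_set (ann_subset a b))]
  ring

theorem piece_eq (a b : ℝ) (x z : EuclideanSpace ℝ (Fin d)) :
    piece g a b (x + z) = 𝓕 ((ann a b).indicator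
      (fun ξ => g ξ * Complex.exp (2 * π * Complex.I * ⟪z, ξ⟫))) (-x) := by
  rw [piece, ← integral_indicator (meas_ann _ _), Real.fourier_eq']
  refine integral_congr_ae (Eventually.of_forall fun ξ => ?_)
  simp only
  by_cases hξ : ξ ∈ (ann a b : Set (EuclideanSpace ℝ (Fin d)))
  · rw [Set.indicator_of_mem hξ, Set.indicator_of_mem hξ, smul_eq_mul, inner_add_left,
      mul_left_comm, ← Complex.exp_add]
    congr 2
    rw [inner_neg_right, real_inner_comm]
    push_cast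
    ring
  · rw [Set.indicator_of_notMem hξ, Set.indicator_of_notMem hξ]
    simp

/-- The constant. -/
noncomputable def KK (n : ℕ) (r : ℝ) : ℝ := Real.exp (π * r ^ 2) * (4 * (n + 1) ^ 2)

theorem KK_nonneg (n : ℕ) (r : ℝ) : 0 ≤ KK n r := by unfold KK; positivity

theorem local_est (n : ℕ) {g : EuclideanSpace ℝ (Fin (n + 1)) → ℂ} (hm : Measurable g)
    (hg : MemLp g 2 volume) (a w : ℝ) (ha : 0 ≤ a) (hw : 0 < w)
    (z : EuclideanSpace ℝ (Fin (n + 1))) (r : ℝ) :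
    ∫⁻ x in Metric.closedBall z r, ‖piece g a (a + w) x‖ₑ ^ 2
      ≤ ENNReal.ofReal (KK n r * w) * ∫⁻ ξ in (ann a (a + w) : Set _), ‖g ξ‖ₑ ^ 2 := by
  set h : EuclideanSpace ℝ (Fin (n + 1)) → ℂ := (ann a (a + w)).indicator
      (fun ξ => g ξ * Complex.exp (2 * π * Complex.I * ⟪z, ξ⟫)) with hh
  have hmh : Measurable h := by
    apply Measurable.indicator _ (meas_ann _ _)
    fun_prop
  have hint : Integrable h := by
    rw [hh, integrable_indicator_iff (meas_ann _ _)]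
    exact (intOn hg (a + w) z).mono_set (ann_subset a _)
  have hw1 := weighted n h hmh hint a w ha hw (fun ξ hξ => by
    rw [hh, Set.indicator_of_notMem hξ])
  have h2 : ∫⁻ ξ, ‖h ξ‖ₑ ^ 2 = ∫⁻ ξ in (ann a (a + w) : Set _), ‖g ξ‖ₑ ^ 2 := by
    rw [← lintegral_indicator (meas_ann _ _)]
    refine lintegral_congr fun ξ => ?_
    by_cases hξ : ξ ∈ (ann a (a + w) : Set (EuclideanSpace ℝ (Fin (n + 1))))
    · rw [Set.indicator_of_mem hξ, hh, Set.indicator_of_mem hξ, enorm_mul]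
      have : ‖Complex.exp (2 * π * Complex.I * ⟪z, ξ⟫)‖ₑ = 1 := by
        rw [← ofReal_norm, norm_char, ENNReal.ofReal_one]
      rw [this, mul_one]
    · rw [Set.indicator_of_notMem hξ, hh, Set.indicator_of_notMem hξ]
      simp
  rw [h2] at hw1
  calc ∫⁻ x in Metric.closedBall z r, ‖piece g a (a + w) x‖ₑ ^ 2
      = ∫⁻ x, (Metric.closedBall z r).indicator (fun x => ‖piece g a (a + w) x‖ₑ ^ 2) x := by
        rw [lintegral_indicator measurableSet_closedBall]
    _ = ∫⁻ x, (Metric.closedBall z r).indicator (fun x => ‖piece g a (a + w) x‖ₑ ^ 2) (x + z) := by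
        rw [lintegral_add_right_eq_self
          (fun x => (Metric.closedBall z r).indicator (fun x => ‖piece g a (a + w) x‖ₑ ^ 2) x) z]
    _ ≤ ∫⁻ x, ENNReal.ofReal (Real.exp (π * r ^ 2)) *
          (‖𝓕 h (-x)‖ₑ ^ 2 * ENNReal.ofReal (Real.exp (-π * ‖-x‖ ^ 2))) := by
        apply lintegral_mono
        intro x
        simp only
        by_cases hx : x + z ∈ Metric.closedBall z r
        · rw [Set.indicator_of_mem hx, piece_eq, mul_left_comm, ← ENNReal.ofReal_mul (by positivity),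
            ← Real.exp_add]
          have hxr : ‖x‖ ≤ r := by simpa using hx
          have h3 : (1 : ℝ≥0∞) ≤ ENNReal.ofReal (Real.exp (π * r ^ 2 + -π * ‖-x‖ ^ 2)) := by
            rw [ENNReal.one_le_ofReal]
            apply Real.one_le_exp
            rw [norm_neg]
            have : ‖x‖ ^ 2 ≤ r ^ 2 := pow_le_pow_left₀ (norm_nonneg _) hxr 2
            nlinarith [Real.pi_pos]
          calc ‖𝓕 h (-x)‖ₑ ^ 2 = ‖𝓕 h (-x)‖ₑ ^ 2 * 1 := by rw [mul_one]
            _ ≤ _ := by gcongr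
        · rw [Set.indicator_of_notMem hx]
          exact zero_le
    _ = ∫⁻ x, ENNReal.ofReal (Real.exp (π * r ^ 2)) *
          (‖𝓕 h x‖ₑ ^ 2 * ENNReal.ofReal (Real.exp (-π * ‖x‖ ^ 2))) :=
        lintegral_neg_eq_self (fun x => ENNReal.ofReal (Real.exp (π * r ^ 2)) *
          (‖𝓕 h x‖ₑ ^ 2 * ENNReal.ofReal (Real.exp (-π * ‖x‖ ^ 2))))
    _ = ENNReal.ofReal (Real.exp (π * r ^ 2)) *
          ∫⁻ x, (‖𝓕 h x‖ₑ ^ 2 * ENNReal.ofReal (Real.exp (-π * ‖x‖ ^ 2))) := by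
        rw [lintegral_const_mul' _ _ ENNReal.ofReal_ne_top]
    _ ≤ ENNReal.ofReal (Real.exp (π * r ^ 2)) * (ENNReal.ofReal (4 * (n + 1) ^ 2 * w) *
          ∫⁻ ξ in (ann a (a + w) : Set _), ‖g ξ‖ₑ ^ 2) := by gcongr
    _ = _ := by
        rw [← mul_assoc, ← ENNReal.ofReal_mul (by positivity), KK]
        congr 2
        ring

/-- The square function over all annuli of width `2^(-m)`. -/
noncomputable def QQ (g : EuclideanSpace ℝ (Fin d) → ℂ) (m : ℕ)
    (x : EuclideanSpace ℝ (Fin d)) : ℝ≥0∞ :=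
  2 ^ m * ∑' j : ℕ, ‖piece g (j / 2 ^ m) (j / 2 ^ m + 1 / 2 ^ m) x‖ₑ ^ 2

/-- The oscillation between integer radii, over the radii `j / 2^m`. -/
noncomputable def HH (g : EuclideanSpace ℝ (Fin d) → ℂ) (m : ℕ)
    (x : EuclideanSpace ℝ (Fin d)) : ℝ≥0∞ :=
  ⨆ j : ℕ, ‖ballSum g (j / 2 ^ m) x - ballSum g (⌊(j : ℝ) / 2 ^ m⌋₊) x‖ₑ ^ 2

theorem sq_sum {ι : Type*} (s : Finset ι) (c : ι → ℂ) :
    ‖∑ i ∈ s, c i‖ₑ ^ 2 ≤ s.card * ∑ i ∈ s, ‖c i‖ₑ ^ 2 := by
  have h1 : ‖∑ i ∈ s, c i‖₊ ^ 2 ≤ s.card * ∑ i ∈ s, ‖c i‖₊ ^ 2 := by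
    calc ‖∑ i ∈ s, c i‖₊ ^ 2 ≤ (∑ i ∈ s, ‖c i‖₊) ^ 2 := by
          gcongr
          exact nnnorm_sum_le _ _
      _ ≤ _ := by
          exact sq_sum_le_card_mul_sum_sq (s := s) (f := fun i => ‖c i‖₊)
  have h2 : ((‖∑ i ∈ s, c i‖₊ ^ 2 : ℝ≥0) : ℝ≥0∞) ≤ ((s.card * ∑ i ∈ s, ‖c i‖₊ ^ 2 : ℝ≥0) : ℝ≥0∞) :=
    by exact_mod_cast h1
  push_cast at h2
  exact h2

theorem HH_le (hg : MemLp g 2 volume) (m : ℕ) (x : EuclideanSpace ℝ (Fin d)) :
    HH g m x ≤ QQ g m x := by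
  refine iSup_le fun j => ?_
  have hp : (0 : ℝ) < 2 ^ m := by positivity
  set k := ⌊(j : ℝ) / 2 ^ m⌋₊ with hk
  have hkj : (k : ℝ) ≤ j / 2 ^ m := Nat.floor_le (by positivity)
  have hjk : (j : ℝ) / 2 ^ m < k + 1 := Nat.lt_floor_add_one _
  have h1 : k * 2 ^ m ≤ j := by
    rw [le_div_iff₀ hp] at hkj
    exact_mod_cast hkj
  have h2 : j < (k + 1) * 2 ^ m := by
    rw [div_lt_iff₀ hp] at hjk
    exact_mod_cast hjk
  have h3 := Finset.sum_Ico_sub (fun i : ℕ => ballSum g ((i : ℝ) / 2 ^ m) x) h1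
  have h4 : ((k * 2 ^ m : ℕ) : ℝ) / 2 ^ m = k := by
    push_cast
    field_simp
  simp only [h4] at h3
  rw [← h3]
  have h5 : ∀ i ∈ Finset.Ico (k * 2 ^ m) j,
      ballSum g (((i + 1 : ℕ) : ℝ) / 2 ^ m) x - ballSum g ((i : ℝ) / 2 ^ m) x
      = piece g (i / 2 ^ m) (i / 2 ^ m + 1 / 2 ^ m) x := by
    intro i _
    rw [ballSum_sub hg (by push_cast; gcongr; linarith)]
    congr 1
    push_cast
    ring
  rw [Finset.sum_congr rfl h5]
  refine (sq_sum _ _).trans ?_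
  rw [QQ]
  gcongr
  · rw [Nat.card_Ico]
    have : j - k * 2 ^ m ≤ 2 ^ m := by
      rw [add_mul] at h2
      omega
    exact_mod_cast this
  · exact ENNReal.sum_le_tsum _

theorem lint_QQ (n : ℕ) {g : EuclideanSpace ℝ (Fin (n + 1)) → ℂ} (hm : Measurable g)
    (hg : MemLp g 2 volume) (m : ℕ) (z : EuclideanSpace ℝ (Fin (n + 1))) (r : ℝ) :
    ∫⁻ x in Metric.closedBall z r, QQ g m x ≤ ENNReal.ofReal (KK n r) * ∫⁻ ξ, ‖g ξ‖ₑ ^ 2 := by
  have hp : (0 : ℝ) < 2 ^ m := by positivity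
  have hmp : ∀ a b : ℝ, Measurable fun x => ‖piece g a b x‖ₑ ^ 2 := by
    intro a b
    have : StronglyMeasurable (piece g a b) := by
      unfold piece
      apply StronglyMeasurable.integral_prod_right'
        (f := fun p : EuclideanSpace ℝ (Fin (n + 1)) × EuclideanSpace ℝ (Fin (n + 1)) =>
          g p.2 * Complex.exp (2 * π * Complex.I * ⟪p.1, p.2⟫))
      apply Measurable.stronglyMeasurable
      fun_prop
    exact (this.measurable.enorm).pow_const 2
  have hdisj : Pairwise (Function.onFun Disjoint fun j : ℕ =>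
      (ann (j / 2 ^ m) (j / 2 ^ m + 1 / 2 ^ m) : Set (EuclideanSpace ℝ (Fin (n + 1))))) := by
    have key : ∀ i j : ℕ, i < j → Disjoint
        (ann (i / 2 ^ m) (i / 2 ^ m + 1 / 2 ^ m) : Set (EuclideanSpace ℝ (Fin (n + 1))))
        (ann (j / 2 ^ m) (j / 2 ^ m + 1 / 2 ^ m)) := by
      intro i j hij
      rw [Set.disjoint_left]
      intro ξ h1 h2
      have h3 := h1.2
      have h4 := h2.1
      have h5 : (i : ℝ) / 2 ^ m + 1 / 2 ^ m ≤ j / 2 ^ m := by
        rw [← add_div]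
        gcongr
        exact_mod_cast hij
      linarith
    intro i j hij
    rcases lt_or_gt_of_ne hij with h | h
    · exact key i j h
    · exact (key j i h).symm
  calc ∫⁻ x in Metric.closedBall z r, QQ g m x
      = 2 ^ m * ∑' j : ℕ, ∫⁻ x in Metric.closedBall z r,
          ‖piece g (j / 2 ^ m) (j / 2 ^ m + 1 / 2 ^ m) x‖ₑ ^ 2 := by
        unfold QQ
        rw [lintegral_const_mul' _ _ (by finiteness),
          lintegral_tsum fun j => (hmp _ _).aemeasurable]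
    _ ≤ 2 ^ m * ∑' j : ℕ, (ENNReal.ofReal (KK n r * (1 / 2 ^ m)) *
          ∫⁻ ξ in (ann (j / 2 ^ m) (j / 2 ^ m + 1 / 2 ^ m) : Set _), ‖g ξ‖ₑ ^ 2) := by
        gcongr with j
        exact local_est n hm hg _ _ (by positivity) (by positivity) z r
    _ = ENNReal.ofReal (KK n r) * ∑' j : ℕ,
          ∫⁻ ξ in (ann (j / 2 ^ m) (j / 2 ^ m + 1 / 2 ^ m) : Set _), ‖g ξ‖ₑ ^ 2 := by
        rw [ENNReal.tsum_mul_left, ← mul_assoc]
        congr 1
        have : (2 : ℝ≥0∞) ^ m = ENNReal.ofReal (2 ^ m) := by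
          rw [ENNReal.ofReal_pow (by norm_num)]
          simp
        rw [this, ← ENNReal.ofReal_mul (by positivity)]
        congr 1
        field_simp
    _ ≤ ENNReal.ofReal (KK n r) * ∫⁻ ξ, ‖g ξ‖ₑ ^ 2 := by
        gcongr
        rw [← lintegral_iUnion (fun j => meas_ann _ _) hdisj]
        exact setLIntegral_le_lintegral _ _

end Pool.Agent.V11160.SPS
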