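import Mathlib
set_option autoImplicit false

/-! # A maximal inequality for random signs -/

namespace Pool.Agent.V11160.SPS

open MeasureTheory
open scoped ENNReal NNReal

/-- The sign. -/
noncomputable def sg (b : Bool) : ℂ := if b then 1 else -1

theorem norm_sg (b : Bool) : ‖sg b‖ = 1 := by cases b <;> simp [sg]

/-- The fair coin-tossing measure. -/
noncomputable def coins : Measure (ℕ → Bool) :=
  Measure.infinitePi fun _ => (PMF.uniformOfFintype Bool).toMeasure

instance : IsProbabilityMeasure coins := by unfold coins; infer_instance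

/-- Change the `k`-th sign. -/
def flip (k : ℕ) (s : ℕ → Bool) : ℕ → Bool := fun i => if i = k then !(s i) else s i

theorem flip_mp (k : ℕ) : MeasurePreserving (flip k) coins coins := by
  have hmeas : Measurable (flip k) := by
    rw [measurable_pi_iff]
    intro i
    unfold flip
    by_cases h : i = k
    · simp only [h, if_true]
      exact (measurable_of_countable (fun b : Bool => !b)).comp (measurable_pi_apply k)
    · simp only [h, if_false]
      exact measurable_pi_apply i
  refine ⟨hmeas, ?_⟩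
  have h1 : flip k = fun s i => (fun (i : ℕ) (b : Bool) => if i = k then !b else b) i (s i) := rfl
  have h2 := Measure.infinitePi_map_pi (ι := ℕ) (X := fun _ => Bool) (Y := fun _ => Bool)
    (μ := fun _ => (PMF.uniformOfFintype Bool).toMeasure)
    (f := fun (i : ℕ) (b : Bool) => if i = k then !b else b) (fun i => measurable_of_countable _)
  unfold coins
  rw [h1]
  refine h2.trans ?_
  congr 1
  ext1 i
  by_cases h : i = k
  · simp only [h, if_true]
    refine Measure.ext_of_singleton fun b => ?_
    rw [Measure.map_apply (measurable_of_countable _) (measurableSet_singleton b)]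
    have : (fun b : Bool => !b) ⁻¹' {b} = {!b} := by
      ext c
      cases b <;> cases c <;> simp
    rw [this, PMF.toMeasure_apply_singleton _ _ (measurableSet_singleton _),
      PMF.toMeasure_apply_singleton _ _ (measurableSet_singleton _)]
    simp
  · simp only [h, if_false]
    exact Measure.map_id'

section
variable (c : ℕ → ℂ)

/-- The partial sums. -/
noncomputable def PS (N : ℕ) (s : ℕ → Bool) : ℂ := ∑ j ∈ Finset.range N, sg (s j) * c j

/-- Their running maximum. -/
noncomputable def MM : ℕ → (ℕ → Bool) → ℝ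
  | 0, _ => 0
  | N + 1, s => max (MM N s) ‖PS c (N + 1) s‖

/-- Auxiliary functional. -/
noncomputable def Psi (N : ℕ) (s : ℕ → Bool) : ℝ :=
  2 * (MM c N s) ^ 2 - 4 * MM c N s * ‖PS c N s‖ + 4 * ‖PS c N s‖ ^ 2

theorem PS_flip (N k : ℕ) (hk : N ≤ k) (s : ℕ → Bool) : PS c N (flip k s) = PS c N s := by
  unfold PS
  refine Finset.sum_congr rfl fun j hj => ?_
  have := Finset.mem_range.1 hj
  rw [flip, if_neg (by omega)]

theorem MM_flip (N k : ℕ) (hk : N ≤ k) (s : ℕ → Bool) : MM c N (flip k s) = MM c N s := by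
  induction N with
  | zero => rfl
  | succ N ih => rw [MM, MM, ih (by omega), PS_flip c (N + 1) k hk]

theorem MM_nonneg (N : ℕ) (s : ℕ → Bool) : 0 ≤ MM c N s := by
  induction N with
  | zero => exact le_rfl
  | succ N ih => exact ih.trans (le_max_left _ _)

theorem MM_mono (s : ℕ → Bool) : Monotone fun N => MM c N s :=
  monotone_nat_of_le_succ fun _ => le_max_left _ _

theorem PS_le_MM (N : ℕ) (s : ℕ → Bool) : ‖PS c N s‖ ≤ MM c N s := by
  cases N with
  | zero => simp [PS, MM]
  | succ N => exact le_max_right _ _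

theorem PS_bound (N : ℕ) (s : ℕ → Bool) : ‖PS c N s‖ ≤ ∑ j ∈ Finset.range N, ‖c j‖ := by
  refine (norm_sum_le _ _).trans (Finset.sum_le_sum fun j _ => ?_)
  rw [norm_mul, norm_sg, one_mul]

theorem MM_bound (N : ℕ) (s : ℕ → Bool) : MM c N s ≤ ∑ j ∈ Finset.range N, ‖c j‖ := by
  induction N with
  | zero => simp [MM]
  | succ N ih =>
    refine max_le (ih.trans ?_) (PS_bound c _ s)
    rw [Finset.sum_range_succ]
    linarith [norm_nonneg (c N)]

theorem PS_meas (N : ℕ) : Measurable (PS c N) := by
  unfold PS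
  refine Finset.measurable_fun_sum _ fun j _ => ?_
  exact ((measurable_of_countable sg).comp (measurable_pi_apply j)).mul_const _

theorem MM_meas (N : ℕ) : Measurable (MM c N) := by
  induction N with
  | zero => exact measurable_const
  | succ N ih => exact ih.max (PS_meas c (N + 1)).norm

theorem Psi_meas (N : ℕ) : Measurable (Psi c N) := by
  have h1 := MM_meas c N
  have h2 := (PS_meas c N).norm
  unfold Psi
  exact (((h1.pow_const 2).const_mul 2).sub ((h1.const_mul 4).mul h2)).add
    ((h2.pow_const 2).const_mul 4)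

theorem Psi_int (N : ℕ) : Integrable (Psi c N) coins := by
  set L := ∑ j ∈ Finset.range N, ‖c j‖ with hL
  have hL0 : 0 ≤ L := Finset.sum_nonneg fun j _ => norm_nonneg _
  refine Integrable.of_bound (Psi_meas c N).aestronglyMeasurable (10 * L ^ 2) ?_
  refine Filter.Eventually.of_forall fun s => ?_
  have h1 := MM_bound c N s
  have h2 := PS_bound c N s
  have h3 := MM_nonneg c N s
  have h4 := norm_nonneg (PS c N s)
  have h5 : (MM c N s) ^ 2 ≤ L ^ 2 := pow_le_pow_left₀ h3 h1 2
  have h6 : ‖PS c N s‖ ^ 2 ≤ L ^ 2 := pow_le_pow_left₀ h4 h2 2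
  have h7 : MM c N s * ‖PS c N s‖ ≤ L ^ 2 := by
    rw [sq]
    exact mul_le_mul h1 h2 h4 hL0
  have h8 : 0 ≤ MM c N s * ‖PS c N s‖ := mul_nonneg h3 h4
  rw [Real.norm_eq_abs, abs_le, Psi]
  constructor <;> nlinarith [sq_nonneg (MM c N s), sq_nonneg ‖PS c N s‖]

theorem phi_step (M X : ℝ) :
    2 * (max M X) ^ 2 - 4 * max M X * X ≤ 2 * M ^ 2 - 4 * M * X := by
  rcases le_total M X with h | h
  · rw [max_eq_right h]
    nlinarith [sq_nonneg (M - X)]
  · rw [max_eq_left h]

theorem Psi_step (N : ℕ) (s : ℕ → Bool) :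
    Psi c (N + 1) s + Psi c (N + 1) (flip N s) ≤ 2 * Psi c N s + 8 * ‖c N‖ ^ 2 := by
  set M := MM c N s with hM
  set S := PS c N s with hS
  have hM0 : 0 ≤ M := MM_nonneg c N s
  have h1 : PS c (N + 1) s = S + sg (s N) * c N := by
    rw [PS, Finset.sum_range_succ]
    rfl
  have h2 : PS c (N + 1) (flip N s) = S - sg (s N) * c N := by
    have h3 : PS c (N + 1) (flip N s) = PS c N (flip N s) + sg (flip N s N) * c N := by
      rw [PS, Finset.sum_range_succ]
      rfl
    rw [h3, PS_flip c N N le_rfl, flip, if_pos rfl]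
    cases s N <;> simp [sg, hS] <;> ring
  have h3 : MM c (N + 1) s = max M ‖S + sg (s N) * c N‖ := by rw [MM, h1]
  have h4 : MM c (N + 1) (flip N s) = max M ‖S - sg (s N) * c N‖ := by
    rw [MM, h2, MM_flip c N N le_rfl]
  have h5 := phi_step M ‖S + sg (s N) * c N‖
  have h6 := phi_step M ‖S - sg (s N) * c N‖
  have h7 : 2 * ‖S‖ ≤ ‖S + sg (s N) * c N‖ + ‖S - sg (s N) * c N‖ := by
    have : (2 : ℂ) * S = (S + sg (s N) * c N) + (S - sg (s N) * c N) := by ring
    calc 2 * ‖S‖ = ‖(2 : ℂ) * S‖ := by rw [norm_mul]; simp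
      _ ≤ _ := by rw [this]; exact norm_add_le _ _
  have h8 : ‖S + sg (s N) * c N‖ ^ 2 + ‖S - sg (s N) * c N‖ ^ 2 = 2 * ‖S‖ ^ 2 + 2 * ‖c N‖ ^ 2 := by
    have := parallelogram_law_with_norm ℝ S (sg (s N) * c N)
    rw [norm_mul, norm_sg, one_mul] at this
    nlinarith [this]
  rw [Psi, Psi, Psi, h1, h2, h3, h4, ← hM, ← hS]
  nlinarith [mul_le_mul_of_nonneg_left h7 hM0]

theorem Psi_integral (N : ℕ) :
    ∫ s, Psi c N s ∂coins ≤ 4 * ∑ j ∈ Finset.range N, ‖c j‖ ^ 2 := by
  induction N with
  | zero =>
    have : Psi c 0 = fun _ => 0 := by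
      funext s
      simp [Psi, MM, PS]
    rw [this]
    simp
  | succ N ih =>
    have h1 : ∫ s, Psi c (N + 1) (flip N s) ∂coins = ∫ s, Psi c (N + 1) s ∂coins := by
      have := integral_map (μ := coins) (flip_mp N).measurable.aemeasurable
        (f := Psi c (N + 1)) (Psi_meas c (N + 1)).aestronglyMeasurable
      rw [(flip_mp N).map_eq] at this
      exact this.symm
    have h2 : Integrable (fun s => Psi c (N + 1) (flip N s)) coins :=
      (flip_mp N).integrable_comp_of_integrable (Psi_int c (N + 1))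
    have h3 : ∫ s, (Psi c (N + 1) s + Psi c (N + 1) (flip N s)) ∂coins
        ≤ ∫ s, (2 * Psi c N s + 8 * ‖c N‖ ^ 2) ∂coins := by
      apply integral_mono ((Psi_int c (N + 1)).add h2)
        (((Psi_int c N).const_mul 2).add (integrable_const _))
      exact fun s => Psi_step c N s
    rw [integral_add (Psi_int c (N + 1)) h2, h1,
      integral_add ((Psi_int c N).const_mul 2) (integrable_const _), integral_const_mul,
      integral_const] at h3
    simp only [probReal_univ, one_smul] at h3
    rw [Finset.sum_range_succ]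
    linarith

theorem max_ineq :
    ∫⁻ s, ⨆ N, ‖PS c N s‖ₑ ^ 2 ∂coins ≤ 4 * ∑' j, ‖c j‖ₑ ^ 2 := by
  calc ∫⁻ s, ⨆ N, ‖PS c N s‖ₑ ^ 2 ∂coins
      ≤ ∫⁻ s, ⨆ N, ENNReal.ofReal ((MM c N s) ^ 2) ∂coins := by
        apply lintegral_mono
        intro s
        refine iSup_mono fun N => ?_
        rw [← ofReal_norm, ← ENNReal.ofReal_pow (norm_nonneg _)]
        apply ENNReal.ofReal_le_ofReal
        exact pow_le_pow_left₀ (norm_nonneg _) (PS_le_MM c N s) 2
    _ = ⨆ N, ∫⁻ s, ENNReal.ofReal ((MM c N s) ^ 2) ∂coins := by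
        rw [lintegral_iSup]
        · intro N
          exact ((MM_meas c N).pow_const 2).ennreal_ofReal
        · intro N N' h s
          simp only
          apply ENNReal.ofReal_le_ofReal
          exact pow_le_pow_left₀ (MM_nonneg c N s) (MM_mono c s h) 2
    _ ≤ 4 * ∑' j, ‖c j‖ₑ ^ 2 := by
        refine iSup_le fun N => ?_
        have h1 : Integrable (fun s => (MM c N s) ^ 2) coins := by
          refine Integrable.of_bound ((MM_meas c N).pow_const 2).aestronglyMeasurable
            ((∑ j ∈ Finset.range N, ‖c j‖) ^ 2) (Filter.Eventually.of_forall fun s => ?_)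
          rw [Real.norm_of_nonneg (sq_nonneg _)]
          exact pow_le_pow_left₀ (MM_nonneg c N s) (MM_bound c N s) 2
        have h2 : ∫ s, (MM c N s) ^ 2 ∂coins ≤ 4 * ∑ j ∈ Finset.range N, ‖c j‖ ^ 2 := by
          refine le_trans ?_ (Psi_integral c N)
          apply integral_mono h1 (Psi_int c N)
          intro s
          simp only [Psi]
          nlinarith [sq_nonneg (MM c N s - 2 * ‖PS c N s‖)]
        rw [← ofReal_integral_eq_lintegral_ofReal h1
          (Filter.Eventually.of_forall fun s => sq_nonneg _)]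
        calc ENNReal.ofReal (∫ s, (MM c N s) ^ 2 ∂coins)
            ≤ ENNReal.ofReal (4 * ∑ j ∈ Finset.range N, ‖c j‖ ^ 2) :=
              ENNReal.ofReal_le_ofReal h2
          _ = 4 * ∑ j ∈ Finset.range N, ‖c j‖ₑ ^ 2 := by
              rw [ENNReal.ofReal_mul (by norm_num), ENNReal.ofReal_sum_of_nonneg
                (fun j _ => sq_nonneg _)]
              congr 1
              · simp
              · refine Finset.sum_congr rfl fun j _ => ?_
                rw [ENNReal.ofReal_pow (norm_nonneg _), ofReal_norm]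
          _ ≤ _ := by
              gcongr
              exact ENNReal.sum_le_tsum _

end

end Pool.Agent.V11160.SPS
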