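import Mathlib
import Pool.Agent.V11160.SPS.C
import Pool.Agent.V11160.SPS.D
set_option autoImplicit false

/-! # All radii, random signs on annuli, almost everywhere convergence -/

namespace Pool.Agent.V11160.SPS

open MeasureTheory Real FourierTransform Filter Topology
open scoped ENNReal RealInnerProductSpace NNReal ComplexConjugate

variable {d : ℕ} {g : EuclideanSpace ℝ (Fin d) → ℂ}

theorem ballSum_right (hg : MemLp g 2 volume) (R : ℝ) (x : EuclideanSpace ℝ (Fin d)) (ρ : ℕ → ℝ)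
    (hρ : Antitone ρ) (h1 : ∀ m, R ≤ ρ m) (h2 : Tendsto ρ atTop (𝓝 R)) :
    Tendsto (fun m => ballSum g (ρ m) x) atTop (𝓝 (ballSum g R x)) := by
  have h3 := tendsto_setIntegral_of_antitone (μ := volume)
    (f := fun ξ => g ξ * Complex.exp (2 * π * Complex.I * ⟪x, ξ⟫))
    (s := fun m => Metric.closedBall (0 : EuclideanSpace ℝ (Fin d)) (ρ m))
    (fun m => measurableSet_closedBall)
    (fun m m' h => Metric.closedBall_subset_closedBall (hρ h)) ⟨0, intOn hg _ x⟩
  have h4 : ⋂ m, Metric.closedBall (0 : EuclideanSpace ℝ (Fin d)) (ρ m)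
      = Metric.closedBall 0 R := by
    ext ξ
    simp only [Set.mem_iInter, Metric.mem_closedBall, dist_zero_right]
    constructor
    · intro h
      exact ge_of_tendsto' h2 h
    · intro h m
      exact h.trans (h1 m)
  rw [h4] at h3
  exact h3

theorem osc_le (hg : MemLp g 2 volume) (R : ℝ) (hR : 0 ≤ R) (x : EuclideanSpace ℝ (Fin d)) :
    ‖ballSum g R x - ballSum g (⌊R⌋₊) x‖ₑ ^ 2 ≤ ⨆ m, HH g m x := by
  set ρ : ℕ → ℝ := fun m => ((⌊R * 2 ^ m⌋₊ + 1 : ℕ) : ℝ) / 2 ^ m with hρ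
  have hp : ∀ m : ℕ, (0 : ℝ) < 2 ^ m := fun m => by positivity
  have h1 : ∀ m, R ≤ ρ m := by
    intro m
    rw [hρ]
    simp only
    rw [le_div_iff₀ (hp m)]
    push_cast
    exact (Nat.lt_floor_add_one _).le
  have h1' : ∀ m, ρ m ≤ R + 1 / 2 ^ m := by
    intro m
    rw [hρ]
    simp only
    rw [div_le_iff₀ (hp m)]
    push_cast
    have := Nat.floor_le (show 0 ≤ R * 2 ^ m by positivity)
    have h : (R + 1 / 2 ^ m) * 2 ^ m = R * 2 ^ m + 1 := by
      field_simp
    linarith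
  have h2 : Antitone ρ := by
    refine antitone_nat_of_succ_le fun m => ?_
    rw [hρ]
    simp only
    rw [div_le_div_iff₀ (hp _) (hp _)]
    have h3 : ⌊R * 2 ^ (m + 1)⌋₊ < 2 * (⌊R * 2 ^ m⌋₊ + 1) := by
      rw [Nat.floor_lt (by positivity)]
      push_cast
      have := Nat.lt_floor_add_one (R * 2 ^ m)
      rw [pow_succ]
      linarith
    have h4 : ((⌊R * 2 ^ (m + 1)⌋₊ + 1 : ℕ) : ℝ) ≤ 2 * ((⌊R * 2 ^ m⌋₊ + 1 : ℕ) : ℝ) := by
      exact_mod_cast h3
    refine (mul_le_mul_of_nonneg_right h4 (hp m).le).trans (le_of_eq ?_)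
    rw [pow_succ (2 : ℝ) m]
    ring
  have h3 : Tendsto ρ atTop (𝓝 R) := by
    refine tendsto_of_tendsto_of_tendsto_of_le_of_le tendsto_const_nhds ?_ h1 h1'
    have : Tendsto (fun m : ℕ => R + (1 / 2 : ℝ) ^ m) atTop (𝓝 (R + 0)) :=
      tendsto_const_nhds.add (tendsto_pow_atTop_nhds_zero_of_lt_one (by norm_num) (by norm_num))
    rw [add_zero] at this
    refine this.congr fun m => ?_
    rw [one_div_pow]
  have h4 := ballSum_right hg R x ρ h2 h1 h3
  have h5 : Tendsto (fun m => ‖ballSum g (ρ m) x - ballSum g (⌊R⌋₊) x‖ₑ ^ 2) atTop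
      (𝓝 (‖ballSum g R x - ballSum g (⌊R⌋₊) x‖ₑ ^ 2)) := by
    have : Continuous fun z : ℂ => ‖z‖ₑ ^ 2 := (ENNReal.continuous_pow 2).comp continuous_enorm
    exact (this.tendsto _).comp (h4.sub tendsto_const_nhds)
  refine le_of_tendsto h5 ?_
  have h6 : ∀ᶠ m in atTop, ρ m < ⌊R⌋₊ + 1 := h3.eventually_lt_const (Nat.lt_floor_add_one R)
  filter_upwards [h6] with m hm
  have h7 : ⌊ρ m⌋₊ = ⌊R⌋₊ := by
    rw [Nat.floor_eq_iff (hR.trans (h1 m))]
    exact ⟨(Nat.floor_le hR).trans (h1 m), hm⟩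
  refine le_trans ?_ (le_iSup _ m)
  refine le_trans ?_ (le_iSup _ (⌊R * 2 ^ m⌋₊ + 1))
  have h8 : ⌊((⌊R * 2 ^ m⌋₊ + 1 : ℕ) : ℝ) / 2 ^ m⌋₊ = ⌊R⌋₊ := h7
  rw [h8]

theorem HH_mono (x : EuclideanSpace ℝ (Fin d)) : Monotone fun m => HH g m x := by
  refine monotone_nat_of_le_succ fun m => ?_
  refine iSup_le fun j => ?_
  refine le_trans ?_ (le_iSup _ (2 * j))
  have : ((2 * j : ℕ) : ℝ) / 2 ^ (m + 1) = (j : ℝ) / 2 ^ m := by
    push_cast
    rw [pow_succ]
    field_simp
  rw [this]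

theorem ballSum_meas (hm : Measurable g) (R : ℝ) : Measurable (ballSum g R) := by
  have : StronglyMeasurable (ballSum g R) := by
    unfold ballSum
    apply StronglyMeasurable.integral_prod_right'
      (f := fun p : EuclideanSpace ℝ (Fin d) × EuclideanSpace ℝ (Fin d) =>
        g p.2 * Complex.exp (2 * π * Complex.I * ⟪p.1, p.2⟫))
    apply Measurable.stronglyMeasurable
    fun_prop
  exact this.measurable

theorem HH_meas (hm : Measurable g) (m : ℕ) : Measurable (HH g m) := by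
  unfold HH
  refine Measurable.iSup fun j => ?_
  exact (((ballSum_meas hm _).sub (ballSum_meas hm _)).enorm).pow_const 2

theorem lint_osc (n : ℕ) {g : EuclideanSpace ℝ (Fin (n + 1)) → ℂ} (hm : Measurable g)
    (hg : MemLp g 2 volume) (z : EuclideanSpace ℝ (Fin (n + 1))) (r : ℝ) :
    ∫⁻ x in Metric.closedBall z r, ⨆ m, HH g m x
      ≤ ENNReal.ofReal (KK n r) * ∫⁻ ξ, ‖g ξ‖ₑ ^ 2 := by
  rw [lintegral_iSup (fun m => HH_meas hm m) (fun m m' h x => HH_mono x h)]
  refine iSup_le fun m => ?_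
  exact (lintegral_mono fun x => HH_le hg m x).trans (lint_QQ n hm hg m z r)

/-- The signs of `s` put on the annuli `k < |ξ| ≤ k + 1`. -/
noncomputable def signed (s : ℕ → Bool) (g : EuclideanSpace ℝ (Fin d) → ℂ)
    (ξ : EuclideanSpace ℝ (Fin d)) : ℂ :=
  sg (s (⌈‖ξ‖⌉₊ - 1)) * g ξ

theorem enorm_signed (s : ℕ → Bool) (ξ : EuclideanSpace ℝ (Fin d)) :
    ‖signed s g ξ‖ₑ = ‖g ξ‖ₑ := by
  rw [signed, enorm_mul]
  have : ‖sg (s (⌈‖ξ‖⌉₊ - 1))‖ₑ = 1 := by rw [← ofReal_norm, norm_sg, ENNReal.ofReal_one]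
  rw [this, one_mul]

theorem meas_sign : Measurable fun p : (ℕ → Bool) × EuclideanSpace ℝ (Fin d) =>
    sg (p.1 (⌈‖p.2‖⌉₊ - 1)) := by
  have h1 : Measurable fun q : (ℕ → Bool) × ℕ => q.1 q.2 :=
    measurable_from_prod_countable_left fun k => measurable_pi_apply k
  have h2 : Measurable fun p : (ℕ → Bool) × EuclideanSpace ℝ (Fin d) => (p.1, ⌈‖p.2‖⌉₊ - 1) := by
    refine measurable_fst.prodMk ?_
    exact (measurable_of_countable fun k : ℕ => k - 1).comp
      (Nat.measurable_ceil.comp measurable_snd.norm)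
  exact (measurable_of_countable sg).comp (h1.comp h2)

theorem signed_meas (hm : Measurable g) (s : ℕ → Bool) : Measurable (signed s g) := by
  unfold signed
  have : Measurable fun ξ : EuclideanSpace ℝ (Fin d) => sg (s (⌈‖ξ‖⌉₊ - 1)) :=
    meas_sign.comp (measurable_const.prodMk measurable_id)
  exact this.mul hm

theorem signed_memLp (hm : Measurable g) (hg : MemLp g 2 volume) (s : ℕ → Bool) :
    MemLp (signed s g) 2 volume := by
  refine hg.congr_norm (signed_meas hm s).aestronglyMeasurable ?_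
  refine Eventually.of_forall fun ξ => ?_
  rw [signed, norm_mul, norm_sg, one_mul]

theorem ballSum_joint (hm : Measurable g) (R : ℝ) :
    Measurable fun p : (ℕ → Bool) × EuclideanSpace ℝ (Fin d) => ballSum (signed p.1 g) R p.2 := by
  have : StronglyMeasurable fun p : (ℕ → Bool) × EuclideanSpace ℝ (Fin d) =>
      ballSum (signed p.1 g) R p.2 := by
    unfold ballSum
    apply StronglyMeasurable.integral_prod_right'
      (f := fun p : ((ℕ → Bool) × EuclideanSpace ℝ (Fin d)) × EuclideanSpace ℝ (Fin d) =>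
        signed p.1.1 g p.2 * Complex.exp (2 * π * Complex.I * ⟪p.1.2, p.2⟫))
    apply Measurable.stronglyMeasurable
    apply Measurable.mul
    · unfold signed
      apply Measurable.mul
      · exact meas_sign.comp ((measurable_fst.comp measurable_fst).prodMk measurable_snd)
      · exact hm.comp measurable_snd
    · fun_prop
  exact this.measurable

theorem ballSum_zero (n : ℕ) (g : EuclideanSpace ℝ (Fin (n + 1)) → ℂ)
    (x : EuclideanSpace ℝ (Fin (n + 1))) : ballSum g 0 x = 0 := by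
  rw [ballSum, Metric.closedBall_zero]
  have : volume ({0} : Set (EuclideanSpace ℝ (Fin (n + 1)))) = 0 := measure_singleton _
  exact setIntegral_measure_zero _ this

theorem ballSum_signed (n : ℕ) {g : EuclideanSpace ℝ (Fin (n + 1)) → ℂ} (hm : Measurable g)
    (hg : MemLp g 2 volume) (s : ℕ → Bool) (N : ℕ) (x : EuclideanSpace ℝ (Fin (n + 1))) :
    ballSum (signed s g) N x = PS (fun k => piece g k (k + 1) x) N s := by
  induction N with
  | zero => simpa [PS] using ballSum_zero n (signed s g) x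
  | succ N ih =>
    have h1 := ballSum_sub (signed_memLp hm hg s) (show (N : ℝ) ≤ (N : ℝ) + 1 by linarith) x
    have h2 : PS (fun k => piece g k (k + 1) x) (N + 1) s
        = PS (fun k => piece g k (k + 1) x) N s + sg (s N) * piece g N (N + 1) x := by
      rw [PS, Finset.sum_range_succ]
      rfl
    have h3 : piece (signed s g) N (N + 1) x = sg (s N) * piece g N (N + 1) x := by
      rw [piece, piece, ← integral_const_mul]
      refine setIntegral_congr_fun (meas_ann _ _) fun ξ hξ => ?_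
      have h4 : ⌈‖ξ‖⌉₊ = N + 1 := by
        rw [Nat.ceil_eq_iff (by omega)]
        refine ⟨?_, ?_⟩
        · simpa using hξ.1
        · simpa using hξ.2
      rw [signed, h4, Nat.add_sub_cancel]
      ring
    push_cast
    rw [h2, ← ih, ← h3, ← h1]
    ring

theorem enorm_sq_le (p q : ℂ) : ‖p‖ₑ ^ 2 ≤ 2 * ‖q‖ₑ ^ 2 + 2 * ‖p - q‖ₑ ^ 2 := by
  have h1 : ‖p‖₊ ^ 2 ≤ 2 * ‖q‖₊ ^ 2 + 2 * ‖p - q‖₊ ^ 2 := by
    have h2 : ‖p‖₊ ≤ ‖q‖₊ + ‖p - q‖₊ := by
      calc ‖p‖₊ = ‖q + (p - q)‖₊ := by rw [add_sub_cancel]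
        _ ≤ _ := nnnorm_add_le _ _
    calc ‖p‖₊ ^ 2 ≤ (‖q‖₊ + ‖p - q‖₊) ^ 2 := by gcongr
      _ ≤ 2 * (‖q‖₊ ^ 2 + ‖p - q‖₊ ^ 2) := add_sq_le
      _ = _ := by ring
  have h2 : ((‖p‖₊ ^ 2 : ℝ≥0) : ℝ≥0∞) ≤ ((2 * ‖q‖₊ ^ 2 + 2 * ‖p - q‖₊ ^ 2 : ℝ≥0) : ℝ≥0∞) := by
    exact_mod_cast h1
  push_cast at h2
  exact h2

/-- The majorant of the maximal function. -/
noncomputable def UU (g : EuclideanSpace ℝ (Fin d) → ℂ) (s : ℕ → Bool)
    (x : EuclideanSpace ℝ (Fin d)) : ℝ≥0∞ :=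
  2 * (⨆ N : ℕ, ‖ballSum (signed s g) N x‖ₑ ^ 2) + 2 * ⨆ m, HH (signed s g) m x

theorem UU_meas (hm : Measurable g) :
    Measurable fun p : (ℕ → Bool) × EuclideanSpace ℝ (Fin d) => UU g p.1 p.2 := by
  unfold UU HH
  refine (Measurable.const_mul (Measurable.iSup fun N => ?_) _).add
    (Measurable.const_mul (Measurable.iSup fun m => Measurable.iSup fun j => ?_) _)
  · exact (ballSum_joint hm _).enorm.pow_const 2
  · exact (((ballSum_joint hm _).sub (ballSum_joint hm _)).enorm).pow_const 2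

theorem le_UU (hm : Measurable g) (hg : MemLp g 2 volume) (s : ℕ → Bool)
    (x : EuclideanSpace ℝ (Fin d)) (R : ℝ) (hR : 0 ≤ R) :
    ‖ballSum (signed s g) R x‖ₑ ^ 2 ≤ UU g s x := by
  refine (enorm_sq_le _ (ballSum (signed s g) (⌊R⌋₊) x)).trans ?_
  unfold UU
  gcongr
  · exact le_iSup (fun N : ℕ => ‖ballSum (signed s g) N x‖ₑ ^ 2) ⌊R⌋₊
  · exact osc_le (signed_memLp hm hg s) R hR x

theorem lint_UU (n : ℕ) {g : EuclideanSpace ℝ (Fin (n + 1)) → ℂ} (hm : Measurable g)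
    (hg : MemLp g 2 volume) (z : EuclideanSpace ℝ (Fin (n + 1))) (r : ℝ) :
    ∫⁻ s, (∫⁻ x in Metric.closedBall z r, UU g s x) ∂coins
      ≤ ENNReal.ofReal (10 * KK n r) * ∫⁻ ξ, ‖g ξ‖ₑ ^ 2 := by
  have hA : Measurable fun p : (ℕ → Bool) × EuclideanSpace ℝ (Fin (n + 1)) =>
      ⨆ N : ℕ, ‖ballSum (signed p.1 g) N p.2‖ₑ ^ 2 :=
    Measurable.iSup fun N => (ballSum_joint hm _).enorm.pow_const 2
  have hB : Measurable fun p : (ℕ → Bool) × EuclideanSpace ℝ (Fin (n + 1)) =>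
      ⨆ m, HH (signed p.1 g) m p.2 := by
    unfold HH
    exact Measurable.iSup fun m => Measurable.iSup fun j =>
      (((ballSum_joint hm _).sub (ballSum_joint hm _)).enorm).pow_const 2
  have hmp : ∀ a b : ℝ, Measurable fun x => ‖piece g a b x‖ₑ ^ 2 := by
    intro a b
    have : StronglyMeasurable (piece g a b) := by
      unfold piece
      apply StronglyMeasurable.integral_prod_right'
        (f := fun p : EuclideanSpace ℝ (Fin (n + 1)) × EuclideanSpace ℝ (Fin (n + 1)) =>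
          g p.2 * Complex.exp (2 * π * Complex.I * ⟪p.1, p.2⟫))
      apply Measurable.stronglyMeasurable
      fun_prop
    exact (this.measurable.enorm).pow_const 2
  have h1 : ∫⁻ s, (∫⁻ x in Metric.closedBall z r,
      (⨆ N : ℕ, ‖ballSum (signed s g) N x‖ₑ ^ 2)) ∂coins
      ≤ 4 * (ENNReal.ofReal (KK n r) * ∫⁻ ξ, ‖g ξ‖ₑ ^ 2) := by
    rw [lintegral_lintegral_swap hA.aemeasurable]
    calc ∫⁻ x in Metric.closedBall z r, (∫⁻ s, (⨆ N : ℕ, ‖ballSum (signed s g) N x‖ₑ ^ 2) ∂coins)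
        ≤ ∫⁻ x in Metric.closedBall z r, 4 * ∑' k : ℕ, ‖piece g k (k + 1) x‖ₑ ^ 2 := by
          refine lintegral_mono fun x => ?_
          simp only [ballSum_signed n hm hg]
          exact max_ineq (fun k : ℕ => piece g k (k + 1) x)
      _ = 4 * ∑' k : ℕ, ∫⁻ x in Metric.closedBall z r, ‖piece g k (k + 1) x‖ₑ ^ 2 := by
          rw [lintegral_const_mul' _ _ (by norm_num), lintegral_tsum fun k =>
            (hmp _ _).aemeasurable]
      _ ≤ 4 * (ENNReal.ofReal (KK n r) * ∫⁻ ξ, ‖g ξ‖ₑ ^ 2) := by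
          gcongr
          have h2 := lint_QQ n hm hg 0 z r
          unfold QQ at h2
          simp only [pow_zero, div_one, one_mul] at h2
          rw [lintegral_tsum fun k => (hmp _ _).aemeasurable] at h2
          exact h2
  have h2 : ∫⁻ s, (∫⁻ x in Metric.closedBall z r, (⨆ m, HH (signed s g) m x)) ∂coins
      ≤ ENNReal.ofReal (KK n r) * ∫⁻ ξ, ‖g ξ‖ₑ ^ 2 := by
    calc ∫⁻ s, (∫⁻ x in Metric.closedBall z r, (⨆ m, HH (signed s g) m x)) ∂coins
        ≤ ∫⁻ _s, (ENNReal.ofReal (KK n r) * ∫⁻ ξ, ‖g ξ‖ₑ ^ 2) ∂coins := by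
          refine lintegral_mono fun s => ?_
          have := lint_osc n (signed_meas hm s) (signed_memLp hm hg s) z r
          simp only [enorm_signed] at this
          exact this
      _ = _ := by rw [lintegral_const, measure_univ, mul_one]
  calc ∫⁻ s, (∫⁻ x in Metric.closedBall z r, UU g s x) ∂coins
      = 2 * (∫⁻ s, (∫⁻ x in Metric.closedBall z r,
          (⨆ N : ℕ, ‖ballSum (signed s g) N x‖ₑ ^ 2)) ∂coins)
        + 2 * ∫⁻ s, (∫⁻ x in Metric.closedBall z r, (⨆ m, HH (signed s g) m x)) ∂coins := by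
        rw [← lintegral_const_mul' _ _ (by norm_num), ← lintegral_const_mul' _ _ (by norm_num),
          ← lintegral_add_left (Measurable.const_mul (Measurable.lintegral_prod_right' hA) 2)]
        refine lintegral_congr fun s => ?_
        rw [← lintegral_const_mul' _ _ (by norm_num), ← lintegral_const_mul' _ _ (by norm_num),
          ← lintegral_add_left]
        · rfl
        · exact (hA.comp measurable_prodMk_left).const_mul 2
    _ ≤ 2 * (4 * (ENNReal.ofReal (KK n r) * ∫⁻ ξ, ‖g ξ‖ₑ ^ 2))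
        + 2 * (ENNReal.ofReal (KK n r) * ∫⁻ ξ, ‖g ξ‖ₑ ^ 2) := by gcongr
    _ = _ := by
        rw [ENNReal.ofReal_mul (by norm_num)]
        have : ENNReal.ofReal 10 = 10 := by simp
        rw [this]
        ring

end Pool.Agent.V11160.SPS
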