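import Mathlib
import Pool.Agent.V11160.SPS.E
set_option autoImplicit false

/-! # Almost everywhere convergence; the reduction of the maximal estimate to integer radii -/

namespace Pool.Agent.V11160.SPS

open MeasureTheory Real FourierTransform Filter Topology
open scoped ENNReal RealInnerProductSpace NNReal ComplexConjugate

variable {d : ℕ} {g : EuclideanSpace ℝ (Fin d) → ℂ}

/-- The part of `g` outside of the ball of radius `N`. -/
noncomputable def tail (g : EuclideanSpace ℝ (Fin d) → ℂ) (N : ℕ) :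
    EuclideanSpace ℝ (Fin d) → ℂ :=
  {ξ : EuclideanSpace ℝ (Fin d) | (N : ℝ) < ‖ξ‖}.indicator g

theorem meas_out (N : ℕ) : MeasurableSet {ξ : EuclideanSpace ℝ (Fin d) | (N : ℝ) < ‖ξ‖} :=
  measurableSet_lt measurable_const measurable_norm

theorem tail_meas (hm : Measurable g) (N : ℕ) : Measurable (tail g N) :=
  hm.indicator (meas_out N)

theorem tail_memLp (hg : MemLp g 2 volume) (N : ℕ) : MemLp (tail g N) 2 volume :=
  hg.indicator (meas_out N)

theorem ballSum_tail (hm : Measurable g) (hg : MemLp g 2 volume) (s : ℕ → Bool) (N : ℕ) (R : ℝ)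
    (hR : (N : ℝ) ≤ R) (x : EuclideanSpace ℝ (Fin d)) :
    ballSum (signed s g) R x - ballSum (signed s g) N x = ballSum (signed s (tail g N)) R x := by
  rw [ballSum_sub (signed_memLp hm hg s) hR, piece, ballSum]
  have h1 : ∀ ξ, signed s (tail g N) ξ * Complex.exp (2 * π * Complex.I * ⟪x, ξ⟫)
      = {ξ : EuclideanSpace ℝ (Fin d) | (N : ℝ) < ‖ξ‖}.indicator
        (fun ξ => signed s g ξ * Complex.exp (2 * π * Complex.I * ⟪x, ξ⟫)) ξ := by
    intro ξ
    by_cases h : ξ ∈ {ξ : EuclideanSpace ℝ (Fin d) | (N : ℝ) < ‖ξ‖}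
    · rw [Set.indicator_of_mem h, signed, tail, Set.indicator_of_mem h, signed]
    · rw [Set.indicator_of_notMem h, signed, tail, Set.indicator_of_notMem h]
      simp
  simp only [h1]
  rw [setIntegral_indicator (meas_out N)]
  congr 2
  ext ξ
  simp only [ann, Set.mem_ofPred_eq, Set.mem_inter_iff, Metric.mem_closedBall, dist_zero_right]
  tauto

theorem tail_tendsto (hm : Measurable g) (hg : MemLp g 2 volume) :
    Tendsto (fun N : ℕ => ∫⁻ ξ, ‖tail g N ξ‖ₑ ^ 2) atTop (𝓝 0) := by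
  have hfin : ∫⁻ ξ, ‖g ξ‖ₑ ^ 2 ≠ ∞ := by
    have := hg.2
    rw [eLpNorm_lt_top_iff_lintegral_rpow_enorm_lt_top (by norm_num) (by norm_num)] at this
    simpa using this.ne
  have h := tendsto_lintegral_of_dominated_convergence (μ := volume)
    (F := fun (N : ℕ) ξ => ‖tail g N ξ‖ₑ ^ 2) (f := fun _ => 0) (fun ξ => ‖g ξ‖ₑ ^ 2)
    (fun N => ((tail_meas hm N).enorm).pow_const 2)
    (fun N => Eventually.of_forall fun ξ => by
      simp only [tail]
      by_cases h : ξ ∈ {ξ : EuclideanSpace ℝ (Fin d) | (N : ℝ) < ‖ξ‖}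
      · rw [Set.indicator_of_mem h]
      · rw [Set.indicator_of_notMem h]
        simp) hfin
    (Eventually.of_forall fun ξ => by
      refine tendsto_const_nhds.congr' ?_
      filter_upwards [eventually_ge_atTop ⌈‖ξ‖⌉₊] with N hN
      have h : ξ ∉ {ξ : EuclideanSpace ℝ (Fin d) | (N : ℝ) < ‖ξ‖} := by
        simp only [Set.mem_ofPred_eq, not_lt]
        exact Nat.ceil_le.1 hN
      rw [tail, Set.indicator_of_notMem h]
      simp)
  simpa using h

/-- The lower envelope of the majorants of the tails. -/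
noncomputable def WW (g : EuclideanSpace ℝ (Fin d) → ℂ) (s : ℕ → Bool)
    (x : EuclideanSpace ℝ (Fin d)) : ℝ≥0∞ := ⨅ N : ℕ, UU (tail g N) s x

theorem WW_meas (hm : Measurable g) :
    Measurable fun p : (ℕ → Bool) × EuclideanSpace ℝ (Fin d) => WW g p.1 p.2 := by
  unfold WW
  exact Measurable.iInf fun N => UU_meas (tail_meas hm N)

theorem WW_conv (hm : Measurable g) (hg : MemLp g 2 volume) (s : ℕ → Bool)
    (x : EuclideanSpace ℝ (Fin d)) (h : WW g s x = 0) :
    ∃ l : ℂ, Tendsto (fun R : ℝ => ballSum (signed s g) R x) atTop (𝓝 l) := by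
  apply cauchySeq_tendsto_of_complete
  rw [Metric.cauchySeq_iff']
  intro ε hε
  have h1 : WW g s x < ENNReal.ofReal (ε ^ 2) := by
    rw [h]
    exact ENNReal.ofReal_pos.2 (by positivity)
  obtain ⟨N, hN⟩ := iInf_lt_iff.1 h1
  refine ⟨N, fun R hR => ?_⟩
  have h2 := le_UU (tail_meas hm N) (tail_memLp hg N) s x R ((Nat.cast_nonneg N).trans hR)
  rw [← ballSum_tail hm hg s N R hR x] at h2
  have h3 := h2.trans_lt hN
  rw [← ofReal_norm, ← ENNReal.ofReal_pow (norm_nonneg _),
    ENNReal.ofReal_lt_ofReal_iff (by positivity)] at h3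
  rw [dist_eq_norm]
  exact lt_of_pow_lt_pow_left₀ 2 hε.le h3

theorem ae_conv (n : ℕ) {g : EuclideanSpace ℝ (Fin (n + 1)) → ℂ} (hm : Measurable g)
    (hg : MemLp g 2 volume) : ∀ᵐ s ∂coins, ∀ᵐ x,
      ∃ l : ℂ, Tendsto (fun R : ℝ => ballSum (signed s g) R x) atTop (𝓝 l) := by
  have h1 : ∀ r : ℕ, ∀ᵐ s ∂coins, ∀ᵐ x ∂volume.restrict
      (Metric.closedBall (0 : EuclideanSpace ℝ (Fin (n + 1))) r), WW g s x = 0 := by
    intro r
    have h2 : ∫⁻ s, (∫⁻ x in Metric.closedBall (0 : EuclideanSpace ℝ (Fin (n + 1))) r,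
        WW g s x) ∂coins ≤ 0 := by
      have h3 : ∀ N : ℕ, ∫⁻ s, (∫⁻ x in Metric.closedBall (0 : EuclideanSpace ℝ (Fin (n + 1))) r,
          WW g s x) ∂coins ≤ ENNReal.ofReal (10 * KK n r) * ∫⁻ ξ, ‖tail g N ξ‖ₑ ^ 2 := by
        intro N
        refine le_trans ?_ (lint_UU n (tail_meas hm N) (tail_memLp hg N) 0 r)
        refine lintegral_mono fun s => lintegral_mono fun x => ?_
        exact iInf_le _ N
      have h4 := ENNReal.Tendsto.const_mul (a := ENNReal.ofReal (10 * KK n r))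
        (tail_tendsto hm hg) (Or.inr ENNReal.ofReal_ne_top)
      rw [mul_zero] at h4
      exact ge_of_tendsto' h4 h3
    have h5 := (lintegral_eq_zero_iff (Measurable.lintegral_prod_right' (WW_meas hm))).1
      (le_antisymm h2 zero_le)
    filter_upwards [h5] with s hs
    exact (lintegral_eq_zero_iff ((WW_meas hm).comp measurable_prodMk_left)).1 hs
  rw [← ae_all_iff] at h1
  filter_upwards [h1] with s hs
  have h2 : ∀ᵐ x, ∀ r : ℕ, x ∈ Metric.closedBall (0 : EuclideanSpace ℝ (Fin (n + 1))) r →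
      WW g s x = 0 := by
    rw [ae_all_iff]
    intro r
    exact (ae_restrict_iff' measurableSet_closedBall).1 (hs r)
  filter_upwards [h2] with x hx
  refine WW_conv hm hg s x (hx ⌈‖x‖⌉₊ ?_)
  simpa using Nat.le_ceil ‖x‖

end Pool.Agent.V11160.SPS
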