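import Mathlib
import Pool.Agent.V11160.SPS.F
set_option autoImplicit false

/-! # The maximal estimate is equivalent to a local one for integer radii -/

namespace Pool.Agent.V11160.SPS

open MeasureTheory Real FourierTransform Filter Topology
open scoped ENNReal RealInnerProductSpace NNReal ComplexConjugate SchwartzMap

/-- The estimate of the question: `‖S^* f‖₂ ≤ C ‖f‖₂` for all Schwartz functions. -/
def MaximalEstimate (d : ℕ) : Prop :=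
  ∃ C : ℝ≥0, ∀ f : 𝓢(EuclideanSpace ℝ (Fin d), ℂ),
    ∫⁻ x, (⨆ (R : ℝ) (_ : 0 < R), ‖ballSum (𝓕 (f : EuclideanSpace ℝ (Fin d) → ℂ)) R x‖ₑ ^ 2)
      ≤ C * ∫⁻ x, ‖f x‖ₑ ^ 2

/-- The estimate on the unit ball, for integer radii only. -/
def LocalIntegerEstimate (d : ℕ) : Prop :=
  ∃ C : ℝ≥0, ∀ f : 𝓢(EuclideanSpace ℝ (Fin d), ℂ),
    ∫⁻ x in Metric.closedBall 0 1,
      (⨆ N : ℕ, ‖ballSum (𝓕 (f : EuclideanSpace ℝ (Fin d) → ℂ)) N x‖ₑ ^ 2)
      ≤ C * ∫⁻ x, ‖f x‖ₑ ^ 2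

theorem plancherel {d : ℕ} (f : 𝓢(EuclideanSpace ℝ (Fin d), ℂ)) :
    ∫⁻ ξ, ‖𝓕 (f : EuclideanSpace ℝ (Fin d) → ℂ) ξ‖ₑ ^ 2 = ∫⁻ x, ‖f x‖ₑ ^ 2 := by
  have h1 : ∀ h : 𝓢(EuclideanSpace ℝ (Fin d), ℂ),
      ∫⁻ x, ‖h x‖ₑ ^ 2 = ENNReal.ofReal (∫ x, ‖h x‖ ^ 2) := by
    intro h
    rw [ofReal_integral_eq_lintegral_ofReal]
    · refine lintegral_congr fun x => ?_
      rw [ENNReal.ofReal_pow (norm_nonneg _), ofReal_norm]
    · exact (h.memLp 2 volume).integrable_norm_pow (by norm_num)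
    · exact Eventually.of_forall fun x => sq_nonneg _
  have h2 : ∀ ξ, 𝓕 (f : EuclideanSpace ℝ (Fin d) → ℂ) ξ = (𝓕 f : 𝓢(_, ℂ)) ξ := fun ξ => rfl
  simp only [h2]
  rw [h1, h1, SchwartzMap.integral_norm_sq_fourier]

theorem fourier_meas {d : ℕ} (f : 𝓢(EuclideanSpace ℝ (Fin d), ℂ)) :
    Measurable (𝓕 (f : EuclideanSpace ℝ (Fin d) → ℂ)) :=
  (𝓕 f : 𝓢(EuclideanSpace ℝ (Fin d), ℂ)).continuous.measurable

theorem fourier_memLp {d : ℕ} (f : 𝓢(EuclideanSpace ℝ (Fin d), ℂ)) :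
    MemLp (𝓕 (f : EuclideanSpace ℝ (Fin d) → ℂ)) 2 volume :=
  (𝓕 f : 𝓢(EuclideanSpace ℝ (Fin d), ℂ)).memLp 2 volume

/-- The factor of a dilation. -/
noncomputable def dil (d : ℕ) (ρ : ℝ) : ℝ := |(ρ ^ d)⁻¹|

theorem lint_dil {d : ℕ} {ρ : ℝ} (hρ : ρ ≠ 0) (Φ : EuclideanSpace ℝ (Fin d) → ℝ≥0∞) :
    ∫⁻ x, Φ (ρ • x) = ENNReal.ofReal (dil d ρ) * ∫⁻ x, Φ x := by
  have h1 := Measure.map_addHaar_smul (volume : Measure (EuclideanSpace ℝ (Fin d))) hρ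
  have h2 := lintegral_map_equiv (μ := (volume : Measure (EuclideanSpace ℝ (Fin d)))) Φ
    (Homeomorph.smulOfNeZero ρ hρ).toMeasurableEquiv
  have h3 : ⇑(Homeomorph.smulOfNeZero (α := EuclideanSpace ℝ (Fin d)) ρ hρ).toMeasurableEquiv
      = fun x => ρ • x := rfl
  rw [h3, h1, lintegral_smul_measure] at h2
  rw [← h2]
  simp [dil]

theorem int_dil {d : ℕ} (ρ : ℝ) (Φ : EuclideanSpace ℝ (Fin d) → ℂ) :
    ∫ x, Φ (ρ • x) = (dil d ρ : ℂ) * ∫ x, Φ x := by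
  have h1 := Measure.integral_comp_smul (volume : Measure (EuclideanSpace ℝ (Fin d))) Φ ρ
  rw [h1]
  simp [dil]

/-- The dilate of a Schwartz function. -/
noncomputable def dilate {d : ℕ} (f : 𝓢(EuclideanSpace ℝ (Fin d), ℂ)) {ρ : ℝ} (hρ : ρ ≠ 0) :
    𝓢(EuclideanSpace ℝ (Fin d), ℂ) :=
  SchwartzMap.compCLMOfContinuousLinearEquiv ℂ
    (ContinuousLinearEquiv.smulLeft (R₁ := ℝ) (M₁ := EuclideanSpace ℝ (Fin d)) (Units.mk0 ρ hρ)) f

theorem dilate_apply {d : ℕ} (f : 𝓢(EuclideanSpace ℝ (Fin d), ℂ)) {ρ : ℝ} (hρ : ρ ≠ 0)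
    (x : EuclideanSpace ℝ (Fin d)) : dilate f hρ x = f (ρ • x) := rfl

theorem fourier_dilate {d : ℕ} (f : 𝓢(EuclideanSpace ℝ (Fin d), ℂ)) {ρ : ℝ} (hρ : ρ ≠ 0)
    (ξ : EuclideanSpace ℝ (Fin d)) :
    𝓕 (dilate f hρ : EuclideanSpace ℝ (Fin d) → ℂ) (ρ • ξ)
      = (dil d ρ : ℂ) * 𝓕 (f : EuclideanSpace ℝ (Fin d) → ℂ) ξ := by
  rw [Real.fourier_eq', Real.fourier_eq', ← int_dil]
  refine integral_congr_ae (Eventually.of_forall fun x => ?_)
  simp only [dilate_apply, inner_smul_left, inner_smul_right]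
  rfl

theorem ballSum_dilate {d : ℕ} (f : 𝓢(EuclideanSpace ℝ (Fin d), ℂ)) {ρ : ℝ} (hρ : 0 < ρ)
    (R : ℝ) (x : EuclideanSpace ℝ (Fin d)) :
    ballSum (𝓕 (dilate f hρ.ne' : EuclideanSpace ℝ (Fin d) → ℂ)) (ρ * R) x
      = ballSum (𝓕 (f : EuclideanSpace ℝ (Fin d) → ℂ)) R (ρ • x) := by
  have hd : (dil d ρ : ℂ) ≠ 0 := by
    have : dil d ρ ≠ 0 := by
      unfold dil
      positivity
    exact_mod_cast this
  rw [ballSum, ballSum, ← integral_indicator measurableSet_closedBall,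
    ← integral_indicator measurableSet_closedBall]
  have h1 := int_dil ρ (fun ξ => (Metric.closedBall (0 : EuclideanSpace ℝ (Fin d)) (ρ * R)).indicator
    (fun ξ => 𝓕 (dilate f hρ.ne' : EuclideanSpace ℝ (Fin d) → ℂ) ξ *
      Complex.exp (2 * π * Complex.I * ⟪x, ξ⟫)) ξ)
  have h2 : ∀ ξ, (Metric.closedBall (0 : EuclideanSpace ℝ (Fin d)) (ρ * R)).indicator
      (fun ξ => 𝓕 (dilate f hρ.ne' : EuclideanSpace ℝ (Fin d) → ℂ) ξ *
      Complex.exp (2 * π * Complex.I * ⟪x, ξ⟫)) (ρ • ξ)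
      = (dil d ρ : ℂ) * (Metric.closedBall (0 : EuclideanSpace ℝ (Fin d)) R).indicator
      (fun ξ => 𝓕 (f : EuclideanSpace ℝ (Fin d) → ℂ) ξ *
      Complex.exp (2 * π * Complex.I * ⟪ρ • x, ξ⟫)) ξ := by
    intro ξ
    have hiff : ρ • ξ ∈ Metric.closedBall (0 : EuclideanSpace ℝ (Fin d)) (ρ * R) ↔
        ξ ∈ Metric.closedBall (0 : EuclideanSpace ℝ (Fin d)) R := by
      simp only [Metric.mem_closedBall, dist_zero_right, norm_smul, Real.norm_of_nonneg hρ.le]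
      exact mul_le_mul_iff_right₀ hρ
    by_cases h : ξ ∈ Metric.closedBall (0 : EuclideanSpace ℝ (Fin d)) R
    · rw [Set.indicator_of_mem (hiff.2 h), Set.indicator_of_mem h, fourier_dilate, mul_assoc,
        inner_smul_left, inner_smul_right]
      rfl
    · rw [Set.indicator_of_notMem (fun hh => h (hiff.1 hh)), Set.indicator_of_notMem h, mul_zero]
  simp only [h2] at h1
  rw [integral_const_mul] at h1
  exact (mul_left_cancel₀ hd h1).symm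

theorem step_a (n : ℕ) (C : ℝ≥0) (h : 𝓢(EuclideanSpace ℝ (Fin (n + 1)), ℂ))
    (hC : ∫⁻ x in Metric.closedBall 0 1,
      (⨆ N : ℕ, ‖ballSum (𝓕 (h : EuclideanSpace ℝ (Fin (n + 1)) → ℂ)) N x‖ₑ ^ 2)
      ≤ C * ∫⁻ x, ‖h x‖ₑ ^ 2) :
    ∫⁻ x in Metric.closedBall 0 1, (⨆ (R : ℝ) (_ : 0 < R),
        ‖ballSum (𝓕 (h : EuclideanSpace ℝ (Fin (n + 1)) → ℂ)) R x‖ₑ ^ 2)
      ≤ (2 * C + 2 * ENNReal.ofReal (KK n 1)) * ∫⁻ x, ‖h x‖ₑ ^ 2 := by
  have hm := fourier_meas h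
  have hg := fourier_memLp h
  set G := 𝓕 (h : EuclideanSpace ℝ (Fin (n + 1)) → ℂ) with hG
  have h2 := lint_osc n hm hg 0 1
  rw [plancherel h] at h2
  calc ∫⁻ x in Metric.closedBall 0 1, (⨆ (R : ℝ) (_ : 0 < R), ‖ballSum G R x‖ₑ ^ 2)
      ≤ ∫⁻ x in Metric.closedBall 0 1, (2 * (⨆ N : ℕ, ‖ballSum G N x‖ₑ ^ 2) +
          2 * ⨆ m, HH G m x) := by
        refine lintegral_mono fun x => iSup₂_le fun R hR => ?_
        refine (enorm_sq_le _ (ballSum G (⌊R⌋₊) x)).trans ?_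
        gcongr
        · exact le_iSup (fun N : ℕ => ‖ballSum G N x‖ₑ ^ 2) ⌊R⌋₊
        · exact osc_le hg R hR.le x
    _ = 2 * (∫⁻ x in Metric.closedBall 0 1, (⨆ N : ℕ, ‖ballSum G N x‖ₑ ^ 2)) +
          2 * ∫⁻ x in Metric.closedBall 0 1, ⨆ m, HH G m x := by
        rw [← lintegral_const_mul' _ _ (by norm_num), ← lintegral_const_mul' _ _ (by norm_num),
          ← lintegral_add_left]
        exact Measurable.const_mul (Measurable.iSup fun N =>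
          ((ballSum_meas hm _).enorm).pow_const 2) _
    _ ≤ 2 * (C * ∫⁻ x, ‖h x‖ₑ ^ 2) + 2 * (ENNReal.ofReal (KK n 1) * ∫⁻ x, ‖h x‖ₑ ^ 2) := by
        gcongr
    _ = _ := by ring

theorem equiv_int (n : ℕ) : MaximalEstimate (n + 1) ↔ LocalIntegerEstimate (n + 1) := by
  constructor
  · rintro ⟨C, hC⟩
    refine ⟨C, fun f => le_trans ?_ (hC f)⟩
    refine le_trans (setLIntegral_mono' measurableSet_closedBall (g := fun x =>
      ⨆ (R : ℝ) (_ : 0 < R), ‖ballSum (𝓕 (f : EuclideanSpace ℝ (Fin (n + 1)) → ℂ)) R x‖ₑ ^ 2)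
      fun x _ => ?_) (setLIntegral_le_lintegral _ _)
    refine iSup_le fun N => ?_
    rcases Nat.eq_zero_or_pos N with rfl | hN
    · have := ballSum_zero n (𝓕 (f : EuclideanSpace ℝ (Fin (n + 1)) → ℂ)) x
      simp only [Nat.cast_zero, this]
      simp
    · exact le_iSup₂ (f := fun (R : ℝ) (_ : 0 < R) =>
        ‖ballSum (𝓕 (f : EuclideanSpace ℝ (Fin (n + 1)) → ℂ)) R x‖ₑ ^ 2) (N : ℝ)
        (by exact_mod_cast hN)
  · rintro ⟨C, hC⟩
    refine ⟨2 * C + 2 * (KK n 1).toNNReal, fun f => ?_⟩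
    set Φ : EuclideanSpace ℝ (Fin (n + 1)) → ℝ≥0∞ := fun x => ⨆ (R : ℝ) (_ : 0 < R),
      ‖ballSum (𝓕 (f : EuclideanSpace ℝ (Fin (n + 1)) → ℂ)) R x‖ₑ ^ 2 with hΦ
    have hball : ∀ k : ℕ, ∫⁻ x in Metric.closedBall (0 : EuclideanSpace ℝ (Fin (n + 1)))
        ((k : ℝ) + 1), Φ x ≤ (2 * C + 2 * ENNReal.ofReal (KK n 1)) * ∫⁻ x, ‖f x‖ₑ ^ 2 := by
      intro k
      set ρ : ℝ := (k : ℝ) + 1 with hρ
      have hρ0 : 0 < ρ := by positivity
      have h1 := step_a n C (dilate f hρ0.ne') (hC _)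
      have h2 : ∫⁻ x, ‖dilate f hρ0.ne' x‖ₑ ^ 2
          = ENNReal.ofReal (dil (n + 1) ρ) * ∫⁻ x, ‖f x‖ₑ ^ 2 :=
        lint_dil hρ0.ne' fun x => ‖f x‖ₑ ^ 2
      have h3 : ∫⁻ x, (Metric.closedBall (0 : EuclideanSpace ℝ (Fin (n + 1))) ρ).indicator Φ (ρ • x)
          = ENNReal.ofReal (dil (n + 1) ρ) *
            ∫⁻ x in Metric.closedBall (0 : EuclideanSpace ℝ (Fin (n + 1))) ρ, Φ x := by
        rw [lint_dil hρ0.ne', lintegral_indicator measurableSet_closedBall]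
      have h4 : ∫⁻ x, (Metric.closedBall (0 : EuclideanSpace ℝ (Fin (n + 1))) ρ).indicator Φ (ρ • x)
          ≤ ∫⁻ x in Metric.closedBall 0 1, (⨆ (R : ℝ) (_ : 0 < R),
            ‖ballSum (𝓕 (dilate f hρ0.ne' : EuclideanSpace ℝ (Fin (n + 1)) → ℂ)) R x‖ₑ ^ 2) := by
        rw [← lintegral_indicator measurableSet_closedBall]
        refine lintegral_mono fun x => ?_
        by_cases h : ρ • x ∈ Metric.closedBall (0 : EuclideanSpace ℝ (Fin (n + 1))) ρ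
        · have hx : x ∈ Metric.closedBall (0 : EuclideanSpace ℝ (Fin (n + 1))) 1 := by
            simp only [Metric.mem_closedBall, dist_zero_right, norm_smul,
              Real.norm_of_nonneg hρ0.le] at h ⊢
            nlinarith
          rw [Set.indicator_of_mem h, Set.indicator_of_mem hx]
          refine iSup₂_le fun R hR => ?_
          rw [← ballSum_dilate f hρ0 R x]
          exact le_iSup₂ (f := fun (R : ℝ) (_ : 0 < R) =>
            ‖ballSum (𝓕 (dilate f hρ0.ne' : EuclideanSpace ℝ (Fin (n + 1)) → ℂ)) R x‖ₑ ^ 2)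
            (ρ * R) (by positivity)
        · rw [Set.indicator_of_notMem h]
          exact zero_le
      rw [h3] at h4
      have h5 := h4.trans h1
      rw [h2, mul_left_comm] at h5
      have hd : 0 < dil (n + 1) ρ := by
        unfold dil
        positivity
      exact (ENNReal.mul_le_mul_iff_right (ENNReal.ofReal_pos.2 hd).ne'
        ENNReal.ofReal_ne_top).1 h5
    have hU : (⋃ k : ℕ, Metric.closedBall (0 : EuclideanSpace ℝ (Fin (n + 1))) ((k : ℝ) + 1))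
        = Set.univ := by
      rw [Set.eq_univ_iff_forall]
      intro x
      rw [Set.mem_iUnion]
      refine ⟨⌈‖x‖⌉₊, ?_⟩
      have := Nat.le_ceil ‖x‖
      simp only [Metric.mem_closedBall, dist_zero_right]
      linarith
    have hdir : Directed (· ⊆ ·) fun k : ℕ =>
        Metric.closedBall (0 : EuclideanSpace ℝ (Fin (n + 1))) ((k : ℝ) + 1) := by
      refine Monotone.directed_le fun k k' hk => Metric.closedBall_subset_closedBall ?_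
      have : (k : ℝ) ≤ k' := by exact_mod_cast hk
      linarith
    calc ∫⁻ x, Φ x = ∫⁻ x in (⋃ k : ℕ,
          Metric.closedBall (0 : EuclideanSpace ℝ (Fin (n + 1))) ((k : ℝ) + 1)), Φ x := by
          rw [hU, setLIntegral_univ]
      _ = ⨆ k : ℕ, ∫⁻ x in Metric.closedBall (0 : EuclideanSpace ℝ (Fin (n + 1)))
          ((k : ℝ) + 1), Φ x := setLIntegral_iUnion_of_directed _ hdir
      _ ≤ (2 * C + 2 * ENNReal.ofReal (KK n 1)) * ∫⁻ x, ‖f x‖ₑ ^ 2 := iSup_le hball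
      _ = _ := by
          congr 1

end Pool.Agent.V11160.SPS
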