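import Mathlib
import Pool.Agent.V11160.SPS.G
set_option autoImplicit false

/-! # Unit cubes and trigonometric sums -/

namespace Pool.Agent.V11160.SPS

open MeasureTheory Real FourierTransform Filter Topology
open scoped ENNReal RealInnerProductSpace NNReal ComplexConjugate

variable {d : ℕ}

/-- The lattice point. -/
noncomputable def vec (m : Fin d → ℤ) : EuclideanSpace ℝ (Fin d) := WithLp.toLp 2 fun i => (m i : ℝ)

/-- The half-open unit cube at `m`. -/
def cube (m : Fin d → ℤ) : Set (EuclideanSpace ℝ (Fin d)) :=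
  {x | ∀ i, (m i : ℝ) ≤ x i ∧ x i < m i + 1}

/-- The spherical partial sum of a trigonometric polynomial. -/
noncomputable def trig (F : Finset (Fin d → ℤ)) (a : (Fin d → ℤ) → ℂ) (R : ℝ)
    (x : EuclideanSpace ℝ (Fin d)) : ℂ :=
  ∑ m ∈ F, (if ‖vec m‖ ≤ R then a m * Complex.exp (2 * π * Complex.I * ⟪x, vec m⟫) else 0)

theorem vec_apply (m : Fin d → ℤ) (i : Fin d) : vec m i = (m i : ℝ) := rfl

theorem cube_meas (m : Fin d → ℤ) : MeasurableSet (cube m) := by
  have : cube m = ⋂ i, {x : EuclideanSpace ℝ (Fin d) | (m i : ℝ) ≤ x i ∧ x i < m i + 1} := by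
    ext x
    simp [cube]
  rw [this]
  refine MeasurableSet.iInter fun i => ?_
  have hi : Measurable fun x : EuclideanSpace ℝ (Fin d) => x i := by fun_prop
  exact (measurableSet_le measurable_const hi).inter (measurableSet_lt hi measurable_const)

theorem cube_disj : Pairwise (Function.onFun Disjoint (cube (d := d))) := by
  intro m m' h
  rw [Function.onFun, Set.disjoint_left]
  intro x hx hx'
  apply h
  funext i
  have h1 := hx i
  have h2 := hx' i
  have h3 : (m i : ℝ) < m' i + 1 := by linarith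
  have h4 : (m' i : ℝ) < m i + 1 := by linarith
  have h5 : m i < m' i + 1 := by exact_mod_cast h3
  have h6 : m' i < m i + 1 := by exact_mod_cast h4
  omega

theorem mem_cube (x : EuclideanSpace ℝ (Fin d)) : x ∈ cube (fun i => ⌊x i⌋) :=
  fun i => ⟨Int.floor_le _, Int.lt_floor_add_one _⟩

theorem cube_union : ⋃ m, cube (d := d) m = Set.univ := by
  rw [Set.eq_univ_iff_forall]
  intro x
  exact Set.mem_iUnion.2 ⟨_, mem_cube x⟩

theorem mem_cube_add (m : Fin d → ℤ) (x : EuclideanSpace ℝ (Fin d)) :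
    x + vec m ∈ cube m ↔ x ∈ cube (0 : Fin d → ℤ) := by
  simp only [cube, Set.mem_ofPred_eq, PiLp.add_apply, vec_apply, Pi.zero_apply, Int.cast_zero]
  refine forall_congr' fun i => ?_
  constructor
  · rintro ⟨h1, h2⟩
    constructor <;> linarith
  · rintro ⟨h1, h2⟩
    constructor <;> linarith

theorem lint_cube (m : Fin d → ℤ) (Φ : EuclideanSpace ℝ (Fin d) → ℝ≥0∞) :
    ∫⁻ x in cube m, Φ x = ∫⁻ x in cube (0 : Fin d → ℤ), Φ (x + vec m) := by
  rw [← lintegral_indicator (cube_meas m), ← lintegral_indicator (cube_meas 0),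
    ← lintegral_add_right_eq_self _ (vec m)]
  refine lintegral_congr fun x => ?_
  by_cases h : x ∈ cube (0 : Fin d → ℤ)
  · rw [Set.indicator_of_mem h, Set.indicator_of_mem ((mem_cube_add m x).2 h)]
  · rw [Set.indicator_of_notMem h,
      Set.indicator_of_notMem (fun hh => h ((mem_cube_add m x).1 hh))]

theorem int_cube (m : Fin d → ℤ) (Φ : EuclideanSpace ℝ (Fin d) → ℂ) :
    ∫ x in cube m, Φ x = ∫ x in cube (0 : Fin d → ℤ), Φ (x + vec m) := by
  rw [← integral_indicator (cube_meas m), ← integral_indicator (cube_meas 0),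
    ← integral_add_right_eq_self _ (vec m)]
  refine integral_congr_ae (Eventually.of_forall fun x => ?_)
  simp only
  by_cases h : x ∈ cube (0 : Fin d → ℤ)
  · rw [Set.indicator_of_mem h, Set.indicator_of_mem ((mem_cube_add m x).2 h)]
  · rw [Set.indicator_of_notMem h,
      Set.indicator_of_notMem (fun hh => h ((mem_cube_add m x).1 hh))]

theorem vol_cube : volume (cube (0 : Fin d → ℤ)) = 1 := by
  have h1 := (PiLp.volume_preserving_toLp (Fin d)).measure_preimage
    (cube_meas (0 : Fin d → ℤ)).nullMeasurableSet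
  rw [← h1]
  have h2 : (WithLp.toLp 2 : (Fin d → ℝ) → EuclideanSpace ℝ (Fin d)) ⁻¹' (cube (0 : Fin d → ℤ))
      = Set.pi Set.univ fun _ => Set.Ico 0 1 := by
    ext x
    simp [cube, Set.mem_pi]
  rw [h2, Real.volume_pi_Ico]
  simp

theorem lint_all (Φ : EuclideanSpace ℝ (Fin d) → ℝ≥0∞) :
    ∫⁻ x, Φ x = ∑' m : Fin d → ℤ, ∫⁻ x in cube (0 : Fin d → ℤ), Φ (x + vec m) := by
  have h1 : ∫⁻ x, Φ x = ∫⁻ x in (⋃ m, cube (d := d) m), Φ x := by
    rw [cube_union, setLIntegral_univ]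
  rw [h1, lintegral_iUnion (fun m => cube_meas m) cube_disj]
  exact tsum_congr fun m => lint_cube m Φ

theorem char_per (k m : Fin d → ℤ) (x : EuclideanSpace ℝ (Fin d)) :
    Complex.exp (2 * π * Complex.I * ⟪x + vec k, vec m⟫)
      = Complex.exp (2 * π * Complex.I * ⟪x, vec m⟫) := by
  have h1 : ⟪vec k, vec m⟫ = ((∑ i, k i * m i : ℤ) : ℝ) := by
    simp [PiLp.inner_apply, vec_apply, mul_comm]
  rw [inner_add_left, h1]
  push_cast
  have h2 : (2 * π * Complex.I * (⟪x, vec m⟫ + ∑ i, (k i : ℂ) * (m i : ℂ)) : ℂ)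
      = 2 * π * Complex.I * ⟪x, vec m⟫ + ((∑ i, k i * m i : ℤ) : ℂ) * (2 * π * Complex.I) := by
    push_cast
    ring
  rw [h2, Complex.exp_periodic.int_mul]

theorem trig_per (k : Fin d → ℤ) (F : Finset (Fin d → ℤ)) (a : (Fin d → ℤ) → ℂ) (R : ℝ)
    (x : EuclideanSpace ℝ (Fin d)) : trig F a R (x + vec k) = trig F a R x := by
  unfold trig
  refine Finset.sum_congr rfl fun m _ => ?_
  rw [char_per]

theorem trig_meas (F : Finset (Fin d → ℤ)) (a : (Fin d → ℤ) → ℂ) (R : ℝ) :
    Measurable (trig F a R) := by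
  unfold trig
  refine Finset.measurable_fun_sum _ fun m _ => ?_
  by_cases h : ‖vec m‖ ≤ R
  · simp only [h, if_true]
    fun_prop
  · simp only [h, if_false]
    fun_prop

/-- The maximal estimate for spherical partial sums of multiple Fourier series, with the radii in
the set `𝓡`. -/
def PeriodicEstimate (d : ℕ) (𝓡 : Set ℝ) : Prop :=
  ∃ C : ℝ≥0, ∀ (F : Finset (Fin d → ℤ)) (a : (Fin d → ℤ) → ℂ),
    ∫⁻ x in cube (0 : Fin d → ℤ), (⨆ R ∈ 𝓡, ‖trig F a R x‖ₑ ^ 2) ≤ C * ∑ m ∈ F, ‖a m‖ₑ ^ 2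

/-- Cauchy-Schwarz on the unit cube. -/
theorem cs_cube (u : EuclideanSpace ℝ (Fin d) → ℝ≥0∞) (hu : Measurable u) :
    (∫⁻ x in cube (0 : Fin d → ℤ), u x) ^ 2 ≤ ∫⁻ x in cube (0 : Fin d → ℤ), (u x) ^ 2 := by
  have h := ENNReal.lintegral_mul_le_Lp_mul_Lq (volume.restrict (cube (0 : Fin d → ℤ)))
    (p := 2) (q := 2) (by constructor <;> norm_num) hu.aemeasurable
    (g := fun _ => 1) aemeasurable_const
  simp only [Pi.mul_apply, mul_one, ENNReal.one_rpow, lintegral_const, Measure.restrict_apply_univ,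
    vol_cube] at h
  calc (∫⁻ x in cube (0 : Fin d → ℤ), u x) ^ 2
      ≤ ((∫⁻ x in cube (0 : Fin d → ℤ), (u x) ^ (2 : ℝ)) ^ (1 / (2 : ℝ))) ^ 2 := by gcongr
    _ = _ := by
        rw [← ENNReal.rpow_natCast, ← ENNReal.rpow_mul]
        norm_num

end Pool.Agent.V11160.SPS
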