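import Mathlib
import Pool.Agent.V11160.SPS.H
set_option autoImplicit false

/-! # From the periodic estimate with integer radii to the local one on `ℝ^d` -/

namespace Pool.Agent.V11160.SPS

open MeasureTheory Real FourierTransform Filter Topology
open scoped ENNReal RealInnerProductSpace NNReal ComplexConjugate SchwartzMap

variable {d : ℕ}

/-- The spherical sum of the samples `g(θ + m)`, with the shifted ball. -/
noncomputable def TT (g : EuclideanSpace ℝ (Fin d) → ℂ) (F : Finset (Fin d → ℤ)) (N : ℕ)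
    (θ x : EuclideanSpace ℝ (Fin d)) : ℂ :=
  ∑ m ∈ F, (if ‖θ + vec m‖ ≤ N then g (θ + vec m) * Complex.exp (2 * π * Complex.I * ⟪x, vec m⟫)
    else 0)

theorem TT_meas {g : EuclideanSpace ℝ (Fin d) → ℂ} (hm : Measurable g)
    (F : Finset (Fin d → ℤ)) (N : ℕ) :
    Measurable fun p : EuclideanSpace ℝ (Fin d) × EuclideanSpace ℝ (Fin d) =>
      TT g F N p.1 p.2 := by
  unfold TT
  refine Finset.measurable_fun_sum _ fun m _ => ?_
  refine Measurable.ite ?_ ?_ measurable_const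
  · exact measurableSet_le (by fun_prop) measurable_const
  · fun_prop

theorem TT_per (g : EuclideanSpace ℝ (Fin d) → ℂ) (F : Finset (Fin d → ℤ)) (N : ℕ)
    (θ x : EuclideanSpace ℝ (Fin d)) (k : Fin d → ℤ) : TT g F N θ (x + vec k) = TT g F N θ x := by
  unfold TT
  refine Finset.sum_congr rfl fun m _ => ?_
  rw [char_per]

/-- All cubes meeting the ball of radius `N0`. -/
noncomputable def boxes (d N0 : ℕ) : Finset (Fin d → ℤ) :=
  Fintype.piFinset fun _ => Finset.Icc (-(N0 : ℤ) - 1) (N0 : ℤ)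

theorem mem_boxes (N0 : ℕ) (ξ : EuclideanSpace ℝ (Fin d)) (h : ‖ξ‖ ≤ N0) :
    (fun i => ⌊ξ i⌋) ∈ boxes d N0 := by
  rw [boxes, Fintype.mem_piFinset]
  intro i
  have h1 : |ξ i| ≤ N0 := by
    have := PiLp.norm_apply_le ξ i
    rw [Real.norm_eq_abs] at this
    exact this.trans h
  rw [abs_le] at h1
  rw [Finset.mem_Icc]
  constructor
  · have h2 : ((-(N0 : ℤ) - 1 : ℤ) : ℝ) ≤ ξ i := by
      push_cast
      linarith [h1.1]
    exact Int.le_floor.2 h2
  · have h2 := Int.floor_le (ξ i)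
    have h3 : ((⌊ξ i⌋ : ℤ) : ℝ) ≤ ((N0 : ℤ) : ℝ) := by
      push_cast
      linarith [h1.2]
    exact_mod_cast h3

theorem unfold_ball {g : EuclideanSpace ℝ (Fin d) → ℂ} (hm : Measurable g)
    (hg : MemLp g 2 volume) (N0 N : ℕ) (hN : N ≤ N0) (x : EuclideanSpace ℝ (Fin d)) :
    ‖ballSum g N x‖ₑ ^ 2 ≤ ∫⁻ θ in cube (0 : Fin d → ℤ), ‖TT g (boxes d N0) N θ x‖ₑ ^ 2 := by
  set H : EuclideanSpace ℝ (Fin d) → ℂ := (Metric.closedBall 0 (N : ℝ)).indicator
    (fun ξ => g ξ * Complex.exp (2 * π * Complex.I * ⟪x, ξ⟫)) with hH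
  have hHint : Integrable H := by
    rw [hH, integrable_indicator_iff measurableSet_closedBall]
    exact intOn hg N x
  have h1 : ballSum g N x = ∫ ξ, H ξ := by
    rw [hH, integral_indicator measurableSet_closedBall]
    rfl
  have h2 : ∫ ξ, H ξ = ∫ ξ in ⋃ m ∈ boxes d N0, cube m, H ξ := by
    rw [setIntegral_eq_integral_of_forall_compl_eq_zero]
    intro ξ hξ
    by_contra hne
    have h3 : ξ ∈ Metric.closedBall (0 : EuclideanSpace ℝ (Fin d)) (N : ℝ) := by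
      by_contra h4
      exact hne (Set.indicator_of_notMem h4 _)
    have h4 : ‖ξ‖ ≤ N0 := by
      have : ‖ξ‖ ≤ N := by simpa using h3
      exact this.trans (by exact_mod_cast hN)
    apply hξ
    simp only [Set.mem_iUnion]
    exact ⟨_, mem_boxes N0 ξ h4, mem_cube ξ⟩
  have h3 : ∫ ξ in ⋃ m ∈ boxes d N0, cube m, H ξ
      = ∑ m ∈ boxes d N0, ∫ ξ in cube m, H ξ :=
    integral_biUnion_finset _ (fun m _ => cube_meas m) (cube_disj.set_pairwise _)
      (fun m _ => hHint.integrableOn)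
  have h4 : ∑ m ∈ boxes d N0, ∫ ξ in cube m, H ξ
      = ∫ θ in cube (0 : Fin d → ℤ), ∑ m ∈ boxes d N0, H (θ + vec m) := by
    rw [integral_finsetSum]
    · exact Finset.sum_congr rfl fun m _ => int_cube m H
    · intro m _
      exact (hHint.comp_add_right (vec m)).integrableOn
  have h5 : ∀ θ, ∑ m ∈ boxes d N0, H (θ + vec m)
      = Complex.exp (2 * π * Complex.I * ⟪x, θ⟫) * TT g (boxes d N0) N θ x := by
    intro θ
    rw [TT, Finset.mul_sum]
    refine Finset.sum_congr rfl fun m _ => ?_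
    by_cases h : ‖θ + vec m‖ ≤ N
    · rw [if_pos h, hH, Set.indicator_of_mem (by simpa using h), mul_left_comm, ← Complex.exp_add,
        inner_add_right]
      congr 2
      push_cast
      ring
    · rw [if_neg h, hH, Set.indicator_of_notMem (by simpa using h), mul_zero]
  have h6 : ‖ballSum g N x‖ₑ ≤ ∫⁻ θ in cube (0 : Fin d → ℤ), ‖TT g (boxes d N0) N θ x‖ₑ := by
    rw [h1, h2, h3, h4]
    refine (enorm_integral_le_lintegral_enorm _).trans (le_of_eq ?_)
    refine lintegral_congr fun θ => ?_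
    rw [h5, enorm_mul]
    have : ‖Complex.exp (2 * π * Complex.I * ⟪x, θ⟫)‖ₑ = 1 := by
      rw [← ofReal_norm, norm_char, ENNReal.ofReal_one]
    rw [this, one_mul]
  calc ‖ballSum g N x‖ₑ ^ 2
      ≤ (∫⁻ θ in cube (0 : Fin d → ℤ), ‖TT g (boxes d N0) N θ x‖ₑ) ^ 2 := by gcongr
    _ ≤ _ := cs_cube _ ((TT_meas hm _ _).comp (measurable_id.prodMk measurable_const)).enorm

theorem cube_norm (θ : EuclideanSpace ℝ (Fin d)) (h : θ ∈ cube (0 : Fin d → ℤ)) :
    ‖θ‖ ≤ d + 1 := by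
  have h1 : ‖θ‖ ^ 2 ≤ d := by
    rw [EuclideanSpace.norm_sq_eq]
    calc ∑ i, ‖θ i‖ ^ 2 ≤ ∑ _i : Fin d, (1 : ℝ) := by
          refine Finset.sum_le_sum fun i _ => ?_
          have := h i
          simp only [Pi.zero_apply, Int.cast_zero, zero_add] at this
          rw [Real.norm_eq_abs, sq_abs]
          nlinarith
      _ = d := by simp
  have h2 : (0 : ℝ) ≤ d := Nat.cast_nonneg d
  nlinarith [norm_nonneg θ]

/-- The difference of the two cut-offs. -/
noncomputable def cc (b : (Fin d → ℤ) → ℂ) (θ : EuclideanSpace ℝ (Fin d)) (N : ℕ)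
    (m : Fin d → ℤ) : ℂ :=
  (if ‖θ + vec m‖ ≤ N then b m else 0) - (if ‖vec m‖ ≤ N then b m else 0)

theorem cc_sum (b : (Fin d → ℤ) → ℂ) (θ : EuclideanSpace ℝ (Fin d))
    (h : θ ∈ cube (0 : Fin d → ℤ)) (N0 : ℕ) (m : Fin d → ℤ) :
    ∑ N ∈ Finset.range (N0 + 1), ‖cc b θ N m‖ₑ ^ 2 ≤ (2 * d + 4 : ℕ) * ‖b m‖ₑ ^ 2 := by
  have hθ := cube_norm θ h
  set k := ⌊‖vec m‖⌋₊ with hk
  have h1 : ∀ N, cc b θ N m ≠ 0 → N ∈ Finset.Icc (k - (d + 1)) (k + (d + 2)) := by
    intro N hN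
    have h2 : ‖θ + vec m‖ ≤ ‖vec m‖ + (d + 1) := by
      linarith [norm_add_le θ (vec m)]
    have h3 : ‖vec m‖ ≤ ‖θ + vec m‖ + (d + 1) := by
      have : ‖vec m‖ ≤ ‖θ + vec m‖ + ‖θ‖ := by
        calc ‖vec m‖ = ‖(θ + vec m) - θ‖ := by rw [add_sub_cancel_left]
          _ ≤ _ := norm_sub_le _ _
      linarith
    have hk1 : (k : ℝ) ≤ ‖vec m‖ := Nat.floor_le (norm_nonneg _)
    have hk2 : ‖vec m‖ < k + 1 := Nat.lt_floor_add_one _
    rw [cc] at hN
    rw [Finset.mem_Icc]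
    by_cases hA : ‖θ + vec m‖ ≤ N
    · by_cases hB : ‖vec m‖ ≤ N
      · rw [if_pos hA, if_pos hB, sub_self] at hN
        exact absurd rfl hN
      · push Not at hB
        constructor
        · have : (k : ℝ) ≤ N + (d + 1) := by linarith
          have : k ≤ N + (d + 1) := by exact_mod_cast this
          omega
        · have : (N : ℝ) < k + 1 := by linarith
          have : N < k + 1 := by exact_mod_cast this
          omega
    · push Not at hA
      by_cases hB : ‖vec m‖ ≤ N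
      · constructor
        · have : (k : ℝ) ≤ N := by linarith
          have : k ≤ N := by exact_mod_cast this
          omega
        · have : (N : ℝ) < k + 1 + (d + 1) := by linarith
          have : N < k + 1 + (d + 1) := by exact_mod_cast this
          omega
      · rw [if_neg (not_le.2 hA), if_neg hB, sub_self] at hN
        exact absurd rfl hN
  have h2 : ∀ N, ‖cc b θ N m‖ₑ ^ 2 ≤ ‖b m‖ₑ ^ 2 := by
    intro N
    unfold cc
    gcongr
    split_ifs <;> simp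
  calc ∑ N ∈ Finset.range (N0 + 1), ‖cc b θ N m‖ₑ ^ 2
      = ∑ N ∈ (Finset.range (N0 + 1)).filter (fun N => cc b θ N m ≠ 0), ‖cc b θ N m‖ₑ ^ 2 := by
        rw [Finset.sum_filter_of_ne]
        intro N _ hN hcon
        apply hN
        rw [hcon]
        simp
    _ ≤ ∑ _N ∈ (Finset.range (N0 + 1)).filter (fun N => cc b θ N m ≠ 0), ‖b m‖ₑ ^ 2 :=
        Finset.sum_le_sum fun N _ => h2 N
    _ = ((Finset.range (N0 + 1)).filter (fun N => cc b θ N m ≠ 0)).card * ‖b m‖ₑ ^ 2 := by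
        rw [Finset.sum_const, nsmul_eq_mul]
    _ ≤ _ := by
        gcongr
        calc ((Finset.range (N0 + 1)).filter (fun N => cc b θ N m ≠ 0)).card
            ≤ (Finset.Icc (k - (d + 1)) (k + (d + 2))).card := by
              refine Finset.card_le_card fun N hN => ?_
              exact h1 N (Finset.mem_filter.1 hN).2
          _ ≤ 2 * d + 4 := by
              rw [Nat.card_Icc]
              omega

theorem TT_split (g : EuclideanSpace ℝ (Fin d) → ℂ) (F : Finset (Fin d → ℤ)) (N : ℕ)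
    (θ x : EuclideanSpace ℝ (Fin d)) (L : ℕ) (hL : ∀ m ∈ F, ‖vec m‖ ≤ L) :
    TT g F N θ x = trig F (fun m => g (θ + vec m)) N x
      + trig F (cc (fun m => g (θ + vec m)) θ N) L x := by
  unfold TT trig
  rw [← Finset.sum_add_distrib]
  refine Finset.sum_congr rfl fun m hm => ?_
  rw [if_pos (hL m hm), cc]
  split_ifs <;> ring

theorem fixed_theta {C : ℝ≥0} (hC : ∀ (F : Finset (Fin d → ℤ)) (a : (Fin d → ℤ) → ℂ),
      ∫⁻ x in cube (0 : Fin d → ℤ), (⨆ R ∈ Set.range (fun N : ℕ => (N : ℝ)), ‖trig F a R x‖ₑ ^ 2)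
        ≤ C * ∑ m ∈ F, ‖a m‖ₑ ^ 2) (g : EuclideanSpace ℝ (Fin d) → ℂ) (F : Finset (Fin d → ℤ))
    (θ : EuclideanSpace ℝ (Fin d)) (h : θ ∈ cube (0 : Fin d → ℤ)) (N0 : ℕ) :
    ∫⁻ x in cube (0 : Fin d → ℤ), (⨆ N ∈ Finset.range (N0 + 1), ‖TT g F N θ x‖ₑ ^ 2)
      ≤ (2 * C * (2 * d + 5 : ℕ)) * ∑ m ∈ F, ‖g (θ + vec m)‖ₑ ^ 2 := by
  obtain ⟨L, hL⟩ : ∃ L : ℕ, ∀ m ∈ F, ‖vec m‖ ≤ L := by
    refine ⟨F.sup fun m => ⌈‖vec m‖⌉₊, fun m hm => ?_⟩
    calc ‖vec m‖ ≤ ⌈‖vec m‖⌉₊ := Nat.le_ceil _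
      _ ≤ _ := by exact_mod_cast Finset.le_sup (f := fun m => ⌈‖vec m‖⌉₊) hm
  set b : (Fin d → ℤ) → ℂ := fun m => g (θ + vec m) with hb
  have h0 : ∀ a : (Fin d → ℤ) → ℂ, ∫⁻ x in cube (0 : Fin d → ℤ), ‖trig F a L x‖ₑ ^ 2
      ≤ C * ∑ m ∈ F, ‖a m‖ₑ ^ 2 := by
    intro a
    refine (lintegral_mono fun x => ?_).trans (hC F a)
    exact le_iSup₂ (f := fun (R : ℝ) (_ : R ∈ Set.range (fun N : ℕ => (N : ℝ))) =>
      ‖trig F a R x‖ₑ ^ 2) (L : ℝ) ⟨L, rfl⟩
  calc ∫⁻ x in cube (0 : Fin d → ℤ), (⨆ N ∈ Finset.range (N0 + 1), ‖TT g F N θ x‖ₑ ^ 2)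
      ≤ ∫⁻ x in cube (0 : Fin d → ℤ),
          (2 * (⨆ R ∈ Set.range (fun N : ℕ => (N : ℝ)), ‖trig F b R x‖ₑ ^ 2)
          + 2 * ∑ N ∈ Finset.range (N0 + 1), ‖trig F (cc b θ N) L x‖ₑ ^ 2) := by
        refine lintegral_mono fun x => iSup₂_le fun N hN => ?_
        refine (enorm_sq_le _ (trig F b N x)).trans ?_
        rw [TT_split g F N θ x L hL, add_sub_cancel_left]
        gcongr
        · exact le_iSup₂ (f := fun (R : ℝ) (_ : R ∈ Set.range (fun N : ℕ => (N : ℝ))) =>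
            ‖trig F b R x‖ₑ ^ 2) (N : ℝ) ⟨N, rfl⟩
        · exact Finset.single_le_sum (f := fun N => ‖trig F (cc b θ N) L x‖ₑ ^ 2)
            (fun _ _ => zero_le) hN
    _ = 2 * (∫⁻ x in cube (0 : Fin d → ℤ),
          (⨆ R ∈ Set.range (fun N : ℕ => (N : ℝ)), ‖trig F b R x‖ₑ ^ 2))
          + 2 * ∑ N ∈ Finset.range (N0 + 1), ∫⁻ x in cube (0 : Fin d → ℤ),
            ‖trig F (cc b θ N) L x‖ₑ ^ 2 := by
        have hms : ∀ N, Measurable fun x => ‖trig F (cc b θ N) L x‖ₑ ^ 2 :=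
          fun N => (trig_meas F _ _).enorm.pow_const 2
        rw [← lintegral_finsetSum _ (fun N _ => hms N), ← lintegral_const_mul' _ _ (by norm_num),
          ← lintegral_const_mul' _ _ (by norm_num), ← lintegral_add_right]
        exact (Finset.measurable_fun_sum _ fun N _ => hms N).const_mul 2
    _ ≤ 2 * (C * ∑ m ∈ F, ‖b m‖ₑ ^ 2)
          + 2 * ∑ N ∈ Finset.range (N0 + 1), (C * ∑ m ∈ F, ‖cc b θ N m‖ₑ ^ 2) := by
        gcongr with N _
        · exact hC F b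
        · exact h0 _
    _ = 2 * (C * ∑ m ∈ F, ‖b m‖ₑ ^ 2)
          + 2 * (C * ∑ m ∈ F, ∑ N ∈ Finset.range (N0 + 1), ‖cc b θ N m‖ₑ ^ 2) := by
        rw [← Finset.mul_sum, Finset.sum_comm]
    _ ≤ 2 * (C * ∑ m ∈ F, ‖b m‖ₑ ^ 2)
          + 2 * (C * ∑ m ∈ F, (2 * d + 4 : ℕ) * ‖b m‖ₑ ^ 2) := by
        gcongr with m _
        exact cc_sum b θ h N0 m
    _ = _ := by
        rw [← Finset.mul_sum]
        push_cast
        ring

theorem per_to_local (h : PeriodicEstimate d (Set.range fun N : ℕ => (N : ℝ))) :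
    LocalIntegerEstimate d := by
  obtain ⟨C, hC⟩ := h
  refine ⟨3 ^ d * (2 * C * (2 * d + 5 : ℕ)), fun f => ?_⟩
  set g := 𝓕 (f : EuclideanSpace ℝ (Fin d) → ℂ) with hgdef
  have hm : Measurable g := fourier_meas f
  have hg : MemLp g 2 volume := fourier_memLp f
  rw [← plancherel f, ← hgdef]
  set K : Finset (Fin d → ℤ) := Fintype.piFinset fun _ => Finset.Icc (-1) 1 with hK
  have hKc : K.card = 3 ^ d := by
    rw [hK, Fintype.card_piFinset]
    simp
  have key : ∀ N0 : ℕ, ∫⁻ x in Metric.closedBall 0 1,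
      (⨆ N ∈ Finset.range (N0 + 1), ‖ballSum g N x‖ₑ ^ 2)
      ≤ (3 ^ d * (2 * C * (2 * d + 5 : ℕ)) : ℝ≥0∞) * ∫⁻ x, ‖g x‖ₑ ^ 2 := by
    intro N0
    set F := boxes d N0 with hF
    set Φ : EuclideanSpace ℝ (Fin d) → ℝ≥0∞ := fun x => ∫⁻ θ in cube (0 : Fin d → ℤ),
      (⨆ N ∈ Finset.range (N0 + 1), ‖TT g F N θ x‖ₑ ^ 2) with hΦ
    have hjoint : Measurable fun p : EuclideanSpace ℝ (Fin d) × EuclideanSpace ℝ (Fin d) =>
        (⨆ N ∈ Finset.range (N0 + 1), ‖TT g F N p.1 p.2‖ₑ ^ 2) := by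
      refine Measurable.iSup fun N => Measurable.iSup fun _ => ?_
      exact (TT_meas hm F N).enorm.pow_const 2
    have h1 : ∀ x, (⨆ N ∈ Finset.range (N0 + 1), ‖ballSum g N x‖ₑ ^ 2) ≤ Φ x := by
      intro x
      refine iSup₂_le fun N hN => ?_
      have hN' : N ≤ N0 := by
        have := Finset.mem_range.1 hN
        omega
      refine (unfold_ball hm hg N0 N hN' x).trans (lintegral_mono fun θ => ?_)
      exact le_iSup₂ (f := fun (N : ℕ) (_ : N ∈ Finset.range (N0 + 1)) =>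
        ‖TT g F N θ x‖ₑ ^ 2) N hN
    have hcover : Metric.closedBall (0 : EuclideanSpace ℝ (Fin d)) 1 ⊆ ⋃ k ∈ K, cube k := by
      intro x hx
      have hx' : ‖x‖ ≤ 1 := by simpa using hx
      simp only [Set.mem_iUnion]
      refine ⟨fun i => ⌊x i⌋, ?_, mem_cube x⟩
      rw [hK, Fintype.mem_piFinset]
      intro i
      have h2 : |x i| ≤ 1 := by
        have := PiLp.norm_apply_le x i
        rw [Real.norm_eq_abs] at this
        exact this.trans hx'
      rw [abs_le] at h2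
      rw [Finset.mem_Icc]
      constructor
      · refine Int.le_floor.2 ?_
        push_cast
        exact h2.1
      · have h3 := Int.floor_le (x i)
        have h4 : ((⌊x i⌋ : ℤ) : ℝ) ≤ ((1 : ℤ) : ℝ) := by
          push_cast
          linarith [h2.2]
        exact_mod_cast h4
    calc ∫⁻ x in Metric.closedBall 0 1, (⨆ N ∈ Finset.range (N0 + 1), ‖ballSum g N x‖ₑ ^ 2)
        ≤ ∫⁻ x in Metric.closedBall 0 1, Φ x := lintegral_mono h1
      _ ≤ ∫⁻ x in ⋃ k ∈ K, cube k, Φ x := lintegral_mono_set hcover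
      _ = ∑ k ∈ K, ∫⁻ x in cube k, Φ x :=
          lintegral_biUnion_finset (cube_disj.set_pairwise _) (fun k _ => cube_meas k) _
      _ = ∑ _k ∈ K, ∫⁻ x in cube (0 : Fin d → ℤ), Φ x := by
          refine Finset.sum_congr rfl fun k _ => ?_
          rw [lint_cube]
          refine lintegral_congr fun x => ?_
          simp only [hΦ, TT_per]
      _ = 3 ^ d * ∫⁻ x in cube (0 : Fin d → ℤ), Φ x := by
          rw [Finset.sum_const, hKc, nsmul_eq_mul]
          push_cast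
          rfl
      _ = 3 ^ d * ∫⁻ θ in cube (0 : Fin d → ℤ), ∫⁻ x in cube (0 : Fin d → ℤ),
            (⨆ N ∈ Finset.range (N0 + 1), ‖TT g F N θ x‖ₑ ^ 2) := by
          congr 1
          rw [hΦ]
          rw [lintegral_lintegral_swap]
          exact (hjoint.comp measurable_swap).aemeasurable
      _ ≤ 3 ^ d * ∫⁻ θ in cube (0 : Fin d → ℤ),
            (2 * C * (2 * d + 5 : ℕ)) * ∑ m ∈ F, ‖g (θ + vec m)‖ₑ ^ 2 := by
          gcongr 3 ^ d * ?_
          refine setLIntegral_mono' (cube_meas 0) fun θ hθ => ?_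
          exact fixed_theta hC g F θ hθ N0
      _ = 3 ^ d * ((2 * C * (2 * d + 5 : ℕ)) * ∑ m ∈ F, ∫⁻ θ in cube (0 : Fin d → ℤ),
            ‖g (θ + vec m)‖ₑ ^ 2) := by
          rw [lintegral_const_mul' _ _ (by finiteness), lintegral_finsetSum]
          intro m _
          fun_prop
      _ ≤ 3 ^ d * ((2 * C * (2 * d + 5 : ℕ)) * ∫⁻ x, ‖g x‖ₑ ^ 2) := by
          gcongr
          rw [lint_all]
          exact ENNReal.sum_le_tsum _
      _ = _ := (mul_assoc _ _ _).symm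
  have hsup : ∀ x, (⨆ N : ℕ, ‖ballSum g N x‖ₑ ^ 2)
      = ⨆ N0 : ℕ, (⨆ N ∈ Finset.range (N0 + 1), ‖ballSum g N x‖ₑ ^ 2) := by
    intro x
    apply le_antisymm
    · refine iSup_le fun N => ?_
      refine le_trans ?_ (le_iSup _ N)
      exact le_iSup₂ (f := fun (M : ℕ) (_ : M ∈ Finset.range (N + 1)) => ‖ballSum g M x‖ₑ ^ 2) N
        (Finset.mem_range.2 (Nat.lt_succ_self N))
    · exact iSup_le fun N0 => iSup₂_le fun N _ => le_iSup (fun N : ℕ => ‖ballSum g N x‖ₑ ^ 2) N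
  simp only [hsup]
  rw [lintegral_iSup]
  · refine iSup_le fun N0 => ?_
    refine (key N0).trans (le_of_eq ?_)
    push_cast
    rfl
  · intro N0
    refine Measurable.iSup fun N => Measurable.iSup fun _ => ?_
    exact (ballSum_meas hm _).enorm.pow_const 2
  · intro N0 N1 h01 x
    refine iSup₂_le fun N hN => ?_
    refine le_iSup₂ (f := fun (M : ℕ) (_ : M ∈ Finset.range (N1 + 1)) => ‖ballSum g M x‖ₑ ^ 2) N ?_
    have := Finset.mem_range.1 hN
    exact Finset.mem_range.2 (by omega)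

end Pool.Agent.V11160.SPS
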