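import Mathlib
import Pool.Agent.V11160.SPS.I
set_option autoImplicit false

/-! # From the maximal estimate on `ℝ^d` to the periodic one, all radii -/

namespace Pool.Agent.V11160.SPS

open MeasureTheory Real FourierTransform Filter Topology
open scoped ENNReal RealInnerProductSpace NNReal ComplexConjugate SchwartzMap ContDiff

variable {d : ℕ}

/-- A bump function. -/
noncomputable def bump (d : ℕ) : ContDiffBump (0 : EuclideanSpace ℝ (Fin d)) :=
  ⟨1 / 2, 1, by norm_num, by norm_num⟩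

theorem bump_zero {x : EuclideanSpace ℝ (Fin d)} (h : 1 ≤ ‖x‖) : bump d x = 0 := by
  apply (bump d).zero_of_le_dist
  simpa [bump] using h

theorem bump_int : Integrable (fun x => bump d x) :=
  (bump d).continuous.integrable_of_hasCompactSupport (bump d).hasCompactSupport

theorem bump_pos : 0 < ∫ x, bump d x := by
  have h1 : (0 : ℝ) < ∫ x in Metric.ball (0 : EuclideanSpace ℝ (Fin d)) 1, bump d x := by
    rw [setIntegral_pos_iff_support_of_nonneg_ae]
    · rw [(bump d).support_eq]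
      have : (bump d).rOut = 1 := rfl
      rw [this, Set.inter_self]
      exact Metric.measure_ball_pos _ _ one_pos
    · exact Eventually.of_forall fun x => (bump d).nonneg
    · exact bump_int.integrableOn
  exact h1.trans_le (setIntegral_le_integral bump_int (Eventually.of_forall fun x =>
    (bump d).nonneg))

/-- The sum of narrow bumps. -/
noncomputable def GG (F : Finset (Fin d → ℤ)) (a : (Fin d → ℤ) → ℂ) (μ : ℝ)
    (ξ : EuclideanSpace ℝ (Fin d)) : ℂ :=
  ∑ m ∈ F, a m * ((bump d (μ • (ξ - vec m)) : ℝ) : ℂ)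

theorem GG_smooth (F : Finset (Fin d → ℤ)) (a : (Fin d → ℤ) → ℂ) (μ : ℝ) :
    ContDiff ℝ ∞ (GG F a μ) := by
  unfold GG
  refine ContDiff.sum fun m _ => ?_
  refine contDiff_const.mul ?_
  refine Complex.ofRealCLM.contDiff.comp ?_
  have h : ContDiff ℝ ∞ fun ξ : EuclideanSpace ℝ (Fin d) => μ • (ξ - vec m) :=
    (contDiff_id.sub contDiff_const).const_smul μ
  exact (bump d).contDiff.comp h

theorem GG_compact (F : Finset (Fin d → ℤ)) (a : (Fin d → ℤ) → ℂ) {μ : ℝ} (hμ : 1 ≤ μ) :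
    HasCompactSupport (GG F a μ) := by
  set L : ℝ := ∑ m ∈ F, ‖vec m‖ + 1 with hL
  refine HasCompactSupport.intro (isCompact_closedBall (0 : EuclideanSpace ℝ (Fin d)) L) ?_
  intro ξ hξ
  unfold GG
  refine Finset.sum_eq_zero fun m hm => ?_
  have h1 : L < ‖ξ‖ := by simpa using hξ
  have h2 : ‖vec m‖ ≤ ∑ m ∈ F, ‖vec m‖ :=
    Finset.single_le_sum (f := fun m => ‖vec m‖) (fun _ _ => norm_nonneg _) hm
  have h3 : 1 ≤ ‖μ • (ξ - vec m)‖ := by
    rw [norm_smul, Real.norm_of_nonneg (by linarith)]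
    have h4 : 1 ≤ ‖ξ - vec m‖ := by
      have := norm_sub_norm_le ξ (vec m)
      linarith
    nlinarith
  rw [bump_zero h3]
  simp

/-- The Fourier transform of the narrow bump at the origin. -/
noncomputable def eta (d : ℕ) (μ : ℝ) (x : EuclideanSpace ℝ (Fin d)) : ℂ :=
  ∫ ξ, ((bump d (μ • ξ) : ℝ) : ℂ) * Complex.exp (2 * π * Complex.I * ⟪x, ξ⟫)

theorem bumpint (μ : ℝ) (hμ : μ ≠ 0) (v x : EuclideanSpace ℝ (Fin d)) :
    Integrable fun ξ => ((bump d (μ • (ξ - v)) : ℝ) : ℂ) *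
      Complex.exp (2 * π * Complex.I * ⟪x, ξ⟫) := by
  refine Integrable.mul_bdd (c := 1) ?_ (by fun_prop)
    (Eventually.of_forall fun ξ => (norm_char x ξ).le)
  have h1 : Integrable fun ξ => bump d (μ • ξ) := bump_int.comp_smul hμ
  exact (h1.comp_sub_right v).ofReal

theorem ballSum_GG (F : Finset (Fin d → ℤ)) (a : (Fin d → ℤ) → ℂ) {μ : ℝ} (hμ : 1 ≤ μ)
    (R R' : ℝ) (h1 : ∀ m ∈ F, ‖vec m‖ ≤ R → ‖vec m‖ + 1 / μ ≤ R')
    (h2 : ∀ m ∈ F, R < ‖vec m‖ → R' < ‖vec m‖ - 1 / μ) (x : EuclideanSpace ℝ (Fin d)) :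
    ballSum (GG F a μ) R' x = eta d μ x * trig F a R x := by
  have hμ0 : 0 < μ := by linarith
  have hmem : ∀ (m : Fin d → ℤ) (ξ : EuclideanSpace ℝ (Fin d)),
      bump d (μ • (ξ - vec m)) ≠ 0 → ‖ξ - vec m‖ < 1 / μ := by
    intro m ξ hne
    by_contra hcon
    push Not at hcon
    apply hne
    apply bump_zero
    rw [norm_smul, Real.norm_of_nonneg hμ0.le]
    rw [div_le_iff₀ hμ0] at hcon
    linarith
  unfold ballSum GG trig
  rw [Finset.mul_sum]
  simp only [Finset.sum_mul]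
  rw [integral_finsetSum]
  · refine Finset.sum_congr rfl fun m hm => ?_
    by_cases hR : ‖vec m‖ ≤ R
    · rw [if_pos hR]
      rw [setIntegral_eq_integral_of_forall_compl_eq_zero]
      · rw [← integral_add_right_eq_self _ (vec m), eta]
        rw [mul_comm (∫ ξ, _), ← integral_const_mul]
        refine integral_congr_ae (Eventually.of_forall fun ξ => ?_)
        simp only [add_sub_cancel_right]
        rw [inner_add_right]
        push_cast
        rw [mul_add, Complex.exp_add]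
        ring
      · intro ξ hξ
        by_contra hne
        have h3 : bump d (μ • (ξ - vec m)) ≠ 0 := by
          intro h0
          rw [h0] at hne
          simp at hne
        have h4 := hmem m ξ h3
        apply hξ
        have h5 : ‖ξ‖ ≤ ‖ξ - vec m‖ + ‖vec m‖ := by
          calc ‖ξ‖ = ‖(ξ - vec m) + vec m‖ := by rw [sub_add_cancel]
            _ ≤ _ := norm_add_le _ _
        have h6 := h1 m hm hR
        simp only [Metric.mem_closedBall, dist_zero_right]
        linarith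
    · rw [if_neg hR, mul_zero]
      rw [setIntegral_eq_zero_of_forall_eq_zero]
      intro ξ hξ
      by_contra hne
      have h3 : bump d (μ • (ξ - vec m)) ≠ 0 := by
        intro h0
        rw [h0] at hne
        simp at hne
      have h4 := hmem m ξ h3
      have h5 : ‖vec m‖ ≤ ‖ξ - vec m‖ + ‖ξ‖ := by
        calc ‖vec m‖ = ‖ξ - (ξ - vec m)‖ := by rw [sub_sub_cancel]
          _ ≤ ‖ξ‖ + ‖ξ - vec m‖ := norm_sub_le _ _
          _ = _ := by ring
      have h6 := h2 m hm (not_le.1 hR)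
      simp only [Metric.mem_closedBall, dist_zero_right] at hξ
      linarith
  · intro m _
    have := (bumpint μ hμ0.ne' (vec m) x).const_mul (a m)
    refine (this.congr (Eventually.of_forall fun ξ => ?_)).integrableOn
    simp only
    ring

theorem eta_lower {μ : ℝ} (hμ : 0 < μ) (x : EuclideanSpace ℝ (Fin d)) (hx : 8 * ‖x‖ ≤ μ) :
    dil d μ * (∫ ξ, bump d ξ) / 2 ≤ ‖eta d μ x‖ := by
  have h1 := bumpint μ hμ.ne' (0 : EuclideanSpace ℝ (Fin d)) x
  simp only [sub_zero] at h1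
  have h2 : (eta d μ x).re = ∫ ξ, bump d (μ • ξ) * Real.cos (2 * π * ⟪x, ξ⟫) := by
    rw [eta]
    have h3 := (integral_re h1).symm
    simp only [RCLike.re_to_complex] at h3
    rw [h3]
    refine integral_congr_ae (Eventually.of_forall fun ξ => ?_)
    simp only
    rw [Complex.re_ofReal_mul]
    congr 1
    have : (2 * π * Complex.I * ⟪x, ξ⟫ : ℂ) = ((2 * π * ⟪x, ξ⟫ : ℝ) : ℂ) * Complex.I := by
      push_cast
      ring
    rw [this, Complex.exp_ofReal_mul_I_re]
  have h4 : ∫ ξ, bump d (μ • ξ) = dil d μ * ∫ ξ, bump d ξ := by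
    have := Measure.integral_comp_smul (volume : Measure (EuclideanSpace ℝ (Fin d)))
      (fun ξ => bump d ξ) μ
    rw [this]
    simp [dil]
  have h5 : Integrable fun ξ => bump d (μ • ξ) := bump_int.comp_smul hμ.ne'
  have h6 : Integrable fun ξ => bump d (μ • ξ) * Real.cos (2 * π * ⟪x, ξ⟫) := by
    refine Integrable.mul_bdd (c := 1) h5 (by fun_prop) (Eventually.of_forall fun ξ => ?_)
    rw [Real.norm_eq_abs]
    exact Real.abs_cos_le_one _
  calc dil d μ * (∫ ξ, bump d ξ) / 2 = ∫ ξ, bump d (μ • ξ) * (1 / 2) := by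
        rw [integral_mul_const, h4]
        ring
    _ ≤ ∫ ξ, bump d (μ • ξ) * Real.cos (2 * π * ⟪x, ξ⟫) := by
        refine integral_mono (h5.mul_const _) h6 fun ξ => ?_
        simp only
        by_cases hξ : 1 ≤ ‖μ • ξ‖
        · rw [bump_zero hξ]
          simp
        · push Not at hξ
          rw [norm_smul, Real.norm_of_nonneg hμ.le] at hξ
          refine mul_le_mul_of_nonneg_left ?_ (bump d).nonneg
          have h7 : |⟪x, ξ⟫| ≤ 1 / 8 := by
            have h8 := abs_real_inner_le_norm x ξ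
            have h9 : 8 * (‖x‖ * ‖ξ‖) ≤ μ * ‖ξ‖ := by
              nlinarith [norm_nonneg ξ]
            linarith
          have h10 : |2 * π * ⟪x, ξ⟫| ≤ 0.8 := by
            rw [abs_mul, abs_of_pos (by positivity)]
            have := Real.pi_lt_d2
            nlinarith [abs_nonneg ⟪x, ξ⟫, Real.pi_pos]
          have h11 := Real.one_sub_sq_div_two_le_cos (x := 2 * π * ⟪x, ξ⟫)
          have h12 : (2 * π * ⟪x, ξ⟫) ^ 2 ≤ 0.8 ^ 2 := by
            rw [← sq_abs]
            exact pow_le_pow_left₀ (abs_nonneg _) h10 2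
          norm_num at h12 ⊢
          linarith
    _ = (eta d μ x).re := h2.symm
    _ ≤ ‖eta d μ x‖ := Complex.re_le_norm _

theorem GG_sq (F : Finset (Fin d → ℤ)) (a : (Fin d → ℤ) → ℂ) {μ : ℝ} (hμ : 8 ≤ μ)
    (ξ : EuclideanSpace ℝ (Fin d)) :
    ‖GG F a μ ξ‖ₑ ^ 2 ≤ ∑ m ∈ F, ‖a m‖ₑ ^ 2 * ‖bump d (μ • (ξ - vec m))‖ₑ ^ 2 := by
  have hmem : ∀ (m : Fin d → ℤ), bump d (μ • (ξ - vec m)) ≠ 0 → ‖ξ - vec m‖ < 1 / 8 := by
    intro m hne
    by_contra hcon
    push Not at hcon
    apply hne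
    apply bump_zero
    rw [norm_smul, Real.norm_of_nonneg (by linarith)]
    nlinarith
  by_cases h : ∃ m ∈ F, bump d (μ • (ξ - vec m)) ≠ 0
  · obtain ⟨m, hm, hne⟩ := h
    have huniq : ∀ m' ∈ F, m' ≠ m → bump d (μ • (ξ - vec m')) = 0 := by
      intro m' _ hmm
      by_contra hne'
      have h1 := hmem m hne
      have h2 := hmem m' hne'
      have h3 : ‖vec m - vec m'‖ < 1 / 4 := by
        calc ‖vec m - vec m'‖ = ‖(ξ - vec m') - (ξ - vec m)‖ := by congr 1; abel
          _ ≤ ‖ξ - vec m'‖ + ‖ξ - vec m‖ := norm_sub_le _ _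
          _ < 1 / 4 := by linarith
      apply hmm
      funext i
      by_contra hi
      have h4 := PiLp.norm_apply_le (vec m - vec m') i
      rw [PiLp.sub_apply, vec_apply, vec_apply, Real.norm_eq_abs] at h4
      have h5 : (1 : ℝ) ≤ |(m i : ℝ) - m' i| := by
        have h6 : m i - m' i ≠ 0 := sub_ne_zero.2 (Ne.symm hi)
        have h7 := Int.one_le_abs h6
        exact_mod_cast h7
      linarith
    have h1 : GG F a μ ξ = a m * ((bump d (μ • (ξ - vec m)) : ℝ) : ℂ) := by
      unfold GG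
      rw [Finset.sum_eq_single m]
      · intro m' hm' hmm
        rw [huniq m' hm' hmm]
        simp
      · intro hcon
        exact absurd hm hcon
    rw [h1, enorm_mul, mul_pow]
    have h2 : ‖((bump d (μ • (ξ - vec m)) : ℝ) : ℂ)‖ₑ = ‖bump d (μ • (ξ - vec m))‖ₑ := by
      rw [← ofReal_norm, ← ofReal_norm, Complex.norm_real]
    rw [h2]
    exact Finset.single_le_sum (f := fun m => ‖a m‖ₑ ^ 2 * ‖bump d (μ • (ξ - vec m))‖ₑ ^ 2)
      (fun _ _ => zero_le) hm
  · push Not at h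
    have h1 : GG F a μ ξ = 0 := by
      unfold GG
      refine Finset.sum_eq_zero fun m hm => ?_
      rw [h m hm]
      simp
    rw [h1]
    simp

theorem gap (F : Finset (Fin d → ℤ)) : ∃ γ : ℝ, 0 < γ ∧ ∀ m ∈ F, ∀ m' ∈ F,
    ‖vec m‖ < ‖vec m'‖ → ‖vec m‖ + γ ≤ ‖vec m'‖ := by
  classical
  set P := (F ×ˢ F).filter fun p => ‖vec p.1‖ < ‖vec p.2‖ with hP
  by_cases h : P.Nonempty
  · obtain ⟨p, hp, hmin⟩ := P.exists_min_image (fun p => ‖vec p.2‖ - ‖vec p.1‖) h
    refine ⟨‖vec p.2‖ - ‖vec p.1‖, ?_, ?_⟩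
    · have := (Finset.mem_filter.1 hp).2
      linarith
    · intro m hm m' hm' hlt
      have := hmin (m, m') (Finset.mem_filter.2 ⟨Finset.mem_product.2 ⟨hm, hm'⟩, hlt⟩)
      simp only at this
      linarith
  · refine ⟨1, one_pos, fun m hm m' hm' hlt => ?_⟩
    exact absurd ⟨(m, m'), Finset.mem_filter.2 ⟨Finset.mem_product.2 ⟨hm, hm'⟩, hlt⟩⟩ h

end Pool.Agent.V11160.SPS
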