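import Mathlib
import Pool.Agent.V11160.SPS.J
set_option autoImplicit false

/-! # The equivalence -/

namespace Pool.Agent.V11160.SPS

open MeasureTheory Real FourierTransform Filter Topology
open scoped ENNReal RealInnerProductSpace NNReal ComplexConjugate SchwartzMap ContDiff

variable {d : ℕ}

theorem exists_radius (F : Finset (Fin d → ℤ)) {γ : ℝ} (hγ : 0 < γ)
    (hgap : ∀ m ∈ F, ∀ m' ∈ F, ‖vec m‖ < ‖vec m'‖ → ‖vec m‖ + γ ≤ ‖vec m'‖) {μ : ℝ}
    (hμ : 4 / γ < μ) (R : ℝ) (hne : ∃ m ∈ F, ‖vec m‖ ≤ R) :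
    ∃ R' : ℝ, 0 < R' ∧ (∀ m ∈ F, ‖vec m‖ ≤ R → ‖vec m‖ + 1 / μ ≤ R') ∧
      (∀ m ∈ F, R < ‖vec m‖ → R' < ‖vec m‖ - 1 / μ) := by
  classical
  have hμ0 : 0 < μ := lt_trans (by positivity) hμ
  have h1μ : 1 / μ < γ / 4 := by
    rw [div_lt_iff₀ hμ0]
    rw [div_lt_iff₀ hγ] at hμ
    linarith
  obtain ⟨m1, hm1, hm1R⟩ := hne
  obtain ⟨m0, hm0, hmax⟩ := (F.filter fun m => ‖vec m‖ ≤ R).exists_max_image (fun m => ‖vec m‖)
    ⟨m1, Finset.mem_filter.2 ⟨hm1, hm1R⟩⟩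
  have hm0' := Finset.mem_filter.1 hm0
  refine ⟨‖vec m0‖ + γ / 2, by positivity, ?_, ?_⟩
  · intro m hm hmR
    have := hmax m (Finset.mem_filter.2 ⟨hm, hmR⟩)
    linarith
  · intro m hm hmR
    have := hgap m0 hm0'.1 m hm (hm0'.2.trans_lt hmR)
    linarith

theorem max_to_per (h : MaximalEstimate d) : PeriodicEstimate d Set.univ := by
  obtain ⟨C, hC⟩ := h
  set I1 : ℝ := ∫ ξ : EuclideanSpace ℝ (Fin d), bump d ξ with hI1
  have hI1p : 0 < I1 := bump_pos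
  set J2 : ℝ≥0∞ := ∫⁻ ξ : EuclideanSpace ℝ (Fin d), ‖bump d ξ‖ₑ ^ 2 with hJ2
  have hJ2f : J2 ≠ ⊤ := by
    have h1 : MemLp (fun ξ : EuclideanSpace ℝ (Fin d) => bump d ξ) 2 volume :=
      (bump d).continuous.memLp_of_hasCompactSupport (bump d).hasCompactSupport
    have h2 := h1.2
    rw [eLpNorm_lt_top_iff_lintegral_rpow_enorm_lt_top (by norm_num) (by norm_num)] at h2
    simpa using h2.ne
  set κ : ℝ := ((8 * ((d : ℝ) + 1)) ^ d)⁻¹ with hκ
  have hκp : 0 < κ := by positivity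
  set B : ℝ≥0∞ := ENNReal.ofReal (κ * I1 ^ 2 / 4) with hB
  have hB0 : B ≠ 0 := by
    rw [hB]
    exact (ENNReal.ofReal_pos.2 (by positivity)).ne'
  have hBf : B ≠ ⊤ := ENNReal.ofReal_ne_top
  have hfin : B⁻¹ * (C * J2) ≠ ⊤ := by
    refine ENNReal.mul_ne_top (ENNReal.inv_ne_top.2 hB0) (ENNReal.mul_ne_top (by simp) hJ2f)
  refine ⟨(B⁻¹ * (C * J2)).toNNReal, fun F a => ?_⟩
  rw [ENNReal.coe_toNNReal hfin]
  obtain ⟨γ, hγ, hgap⟩ := gap F
  obtain ⟨M, hM⟩ : ∃ M : ℕ, 4 / γ < M := exists_nat_gt _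
  have hMp : 0 < M := by
    have : (0 : ℝ) < M := lt_trans (by positivity) hM
    exact_mod_cast this
  have hMr : (1 : ℝ) ≤ M := by exact_mod_cast hMp
  set μ : ℝ := 8 * ((d : ℝ) + 1) * M with hμ
  have hd0 : (0 : ℝ) ≤ d := Nat.cast_nonneg d
  have hμ8 : 8 ≤ μ := by
    rw [hμ]
    nlinarith [mul_nonneg hd0 (by linarith : (0 : ℝ) ≤ M)]
  have hμM : (M : ℝ) ≤ μ := by
    rw [hμ]
    nlinarith [mul_nonneg hd0 (by linarith : (0 : ℝ) ≤ M)]
  have hμ0 : 0 < μ := by linarith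
  have hμγ : 4 / γ < μ := hM.trans_le hμM
  set δ := dil d μ with hδ
  have hδp : 0 < δ := by
    rw [hδ, dil]
    positivity
  have hδM : δ * (M : ℝ) ^ d = κ := by
    rw [hδ, dil, hμ, hκ, abs_of_pos (by positivity), mul_pow]
    field_simp
  -- the Schwartz function
  set G : 𝓢(EuclideanSpace ℝ (Fin d), ℂ) :=
    (GG_compact F a (by linarith : (1 : ℝ) ≤ μ)).toSchwartzMap (GG_smooth F a μ) with hG
  have hGc : (G : EuclideanSpace ℝ (Fin d) → ℂ) = GG F a μ := rfl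
  set f : 𝓢(EuclideanSpace ℝ (Fin d), ℂ) := 𝓕⁻ G with hf
  have hFf : 𝓕 (f : EuclideanSpace ℝ (Fin d) → ℂ) = GG F a μ := by
    have h1 : 𝓕 f = G := FourierTransform.fourier_fourierInv_eq G
    have h2 : 𝓕 (f : EuclideanSpace ℝ (Fin d) → ℂ) = ((𝓕 f : 𝓢(EuclideanSpace ℝ (Fin d), ℂ)) :
        EuclideanSpace ℝ (Fin d) → ℂ) := rfl
    rw [h2, h1, hGc]
  have hmain := hC f
  rw [← plancherel f] at hmain
  simp only [hFf] at hmain
  -- upper bound of the right-hand side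
  have hup : ∫⁻ ξ, ‖GG F a μ ξ‖ₑ ^ 2 ≤ (∑ m ∈ F, ‖a m‖ₑ ^ 2) * (ENNReal.ofReal δ * J2) := by
    calc ∫⁻ ξ, ‖GG F a μ ξ‖ₑ ^ 2
        ≤ ∫⁻ ξ, ∑ m ∈ F, ‖a m‖ₑ ^ 2 * ‖bump d (μ • (ξ - vec m))‖ₑ ^ 2 :=
          lintegral_mono fun ξ => GG_sq F a hμ8 ξ
      _ = ∑ m ∈ F, ‖a m‖ₑ ^ 2 * ∫⁻ ξ, ‖bump d (μ • (ξ - vec m))‖ₑ ^ 2 := by
          have hmeas : ∀ m : Fin d → ℤ, Measurable fun ξ : EuclideanSpace ℝ (Fin d) =>
              ‖bump d (μ • (ξ - vec m))‖ₑ ^ 2 := by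
            intro m
            have h1 : Measurable fun ξ : EuclideanSpace ℝ (Fin d) => bump d (μ • (ξ - vec m)) :=
              (bump d).continuous.measurable.comp (by fun_prop)
            exact h1.enorm.pow_const 2
          rw [lintegral_finsetSum]
          · refine Finset.sum_congr rfl fun m _ => ?_
            rw [lintegral_const_mul _ (hmeas m)]
          · intro m _
            exact (hmeas m).const_mul _
      _ = ∑ m ∈ F, ‖a m‖ₑ ^ 2 * (ENNReal.ofReal δ * J2) := by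
          refine Finset.sum_congr rfl fun m _ => ?_
          congr 1
          rw [lintegral_sub_right_eq_self (fun ξ => ‖bump d (μ • ξ)‖ₑ ^ 2) (vec m)]
          exact lint_dil hμ0.ne' fun ξ => ‖bump d ξ‖ₑ ^ 2
      _ = _ := by rw [Finset.sum_mul]
  -- lower bound of the left-hand side
  set K : Finset (Fin d → ℤ) := Fintype.piFinset fun _ => Finset.Ico 0 (M : ℤ) with hK
  have hKc : K.card = M ^ d := by
    rw [hK, Fintype.card_piFinset]
    simp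
  set A : ℝ≥0∞ := ∫⁻ x in cube (0 : Fin d → ℤ), (⨆ R ∈ (Set.univ : Set ℝ),
    ‖trig F a R x‖ₑ ^ 2) with hA
  have hlow : ENNReal.ofReal ((δ * I1 / 2) ^ 2) * ((M : ℝ≥0∞) ^ d * A)
      ≤ ∫⁻ x, (⨆ (R : ℝ) (_ : 0 < R), ‖ballSum (GG F a μ) R x‖ₑ ^ 2) := by
    have hpt : ∀ x ∈ ⋃ k ∈ K, cube k, ENNReal.ofReal ((δ * I1 / 2) ^ 2) *
        (⨆ R ∈ (Set.univ : Set ℝ), ‖trig F a R x‖ₑ ^ 2)
        ≤ ⨆ (R : ℝ) (_ : 0 < R), ‖ballSum (GG F a μ) R x‖ₑ ^ 2 := by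
      intro x hx
      simp only [Set.mem_iUnion] at hx
      obtain ⟨k, hk, hxk⟩ := hx
      have hxn : 8 * ‖x‖ ≤ μ := by
        have h1 : ‖x‖ ^ 2 ≤ (((d : ℝ) + 1) * M) ^ 2 := by
          rw [EuclideanSpace.norm_sq_eq]
          calc ∑ i, ‖x i‖ ^ 2 ≤ ∑ _i : Fin d, (M : ℝ) ^ 2 := by
                refine Finset.sum_le_sum fun i _ => ?_
                have h2 := hxk i
                have h3 := Fintype.mem_piFinset.1 hk i
                rw [Finset.mem_Ico] at h3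
                have h4 : (0 : ℝ) ≤ k i := by exact_mod_cast h3.1
                have h5 : (k i : ℝ) + 1 ≤ M := by exact_mod_cast h3.2
                rw [Real.norm_eq_abs, sq_abs]
                exact pow_le_pow_left₀ (by linarith) (by linarith) 2
            _ = d * (M : ℝ) ^ 2 := by simp
            _ ≤ (((d : ℝ) + 1) * M) ^ 2 := by
                rw [mul_pow]
                gcongr
                nlinarith
        have h2 : ‖x‖ ≤ ((d : ℝ) + 1) * M := by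
          exact le_of_sq_le_sq h1 (by positivity)
        rw [hμ]
        linarith
      have heta := eta_lower hμ0 x hxn
      rw [ENNReal.mul_iSup]
      refine iSup_le fun R => ?_
      rw [ENNReal.mul_iSup]
      refine iSup_le fun _ => ?_
      by_cases hne : ∃ m ∈ F, ‖vec m‖ ≤ R
      · obtain ⟨R', hR', h1, h2⟩ := exists_radius F hγ hgap hμγ R hne
        refine le_trans ?_ (le_iSup₂ (f := fun (R : ℝ) (_ : 0 < R) =>
          ‖ballSum (GG F a μ) R x‖ₑ ^ 2) R' hR')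
        rw [ballSum_GG F a (by linarith) R R' h1 h2 x, enorm_mul, mul_pow]
        gcongr
        rw [← ofReal_norm, ← ENNReal.ofReal_pow (norm_nonneg _)]
        apply ENNReal.ofReal_le_ofReal
        exact pow_le_pow_left₀ (by positivity) heta 2
      · have h0 : trig F a R x = 0 := by
          unfold trig
          refine Finset.sum_eq_zero fun m hm => ?_
          rw [if_neg]
          intro hcon
          exact hne ⟨m, hm, hcon⟩
        rw [h0]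
        simp
    have hKm : MeasurableSet (⋃ k ∈ K, cube (d := d) k) :=
      Finset.measurableSet_biUnion _ fun k _ => cube_meas k
    calc ENNReal.ofReal ((δ * I1 / 2) ^ 2) * ((M : ℝ≥0∞) ^ d * A)
        = ENNReal.ofReal ((δ * I1 / 2) ^ 2) * ∑ _k ∈ K, A := by
          rw [Finset.sum_const, hKc, nsmul_eq_mul]
          push_cast
          rfl
      _ = ENNReal.ofReal ((δ * I1 / 2) ^ 2) * ∑ k ∈ K, ∫⁻ x in cube k,
            (⨆ R ∈ (Set.univ : Set ℝ), ‖trig F a R x‖ₑ ^ 2) := by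
          congr 1
          refine Finset.sum_congr rfl fun k _ => ?_
          rw [lint_cube, hA]
          refine lintegral_congr fun x => ?_
          simp only [trig_per]
      _ = ENNReal.ofReal ((δ * I1 / 2) ^ 2) * ∫⁻ x in ⋃ k ∈ K, cube k,
            (⨆ R ∈ (Set.univ : Set ℝ), ‖trig F a R x‖ₑ ^ 2) := by
          rw [lintegral_biUnion_finset (cube_disj.set_pairwise _) (fun k _ => cube_meas k)]
      _ = ∫⁻ x in ⋃ k ∈ K, cube k, ENNReal.ofReal ((δ * I1 / 2) ^ 2) *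
            (⨆ R ∈ (Set.univ : Set ℝ), ‖trig F a R x‖ₑ ^ 2) := by
          rw [lintegral_const_mul' _ _ ENNReal.ofReal_ne_top]
      _ ≤ ∫⁻ x in ⋃ k ∈ K, cube k,
            (⨆ (R : ℝ) (_ : 0 < R), ‖ballSum (GG F a μ) R x‖ₑ ^ 2) :=
          setLIntegral_mono' hKm hpt
      _ ≤ _ := setLIntegral_le_lintegral _ _
  have hall : ENNReal.ofReal ((δ * I1 / 2) ^ 2) * ((M : ℝ≥0∞) ^ d * A)
      ≤ C * ((∑ m ∈ F, ‖a m‖ₑ ^ 2) * (ENNReal.ofReal δ * J2)) :=
    hlow.trans (hmain.trans (by gcongr))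
  have hleft : ENNReal.ofReal ((δ * I1 / 2) ^ 2) * ((M : ℝ≥0∞) ^ d * A)
      = ENNReal.ofReal δ * (B * A) := by
    have h1 : (M : ℝ≥0∞) ^ d = ENNReal.ofReal ((M : ℝ) ^ d) := by
      rw [ENNReal.ofReal_pow (by positivity), ENNReal.ofReal_natCast]
    rw [h1, hB, ← mul_assoc, ← mul_assoc, ← ENNReal.ofReal_mul (by positivity),
      ← ENNReal.ofReal_mul hδp.le]
    congr 2
    rw [← hδM]
    ring
  rw [hleft] at hall
  have hall2 : ENNReal.ofReal δ * (B * A)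
      ≤ ENNReal.ofReal δ * (C * J2 * ∑ m ∈ F, ‖a m‖ₑ ^ 2) := by
    refine hall.trans (le_of_eq ?_)
    ring
  have hall3 : B * A ≤ C * J2 * ∑ m ∈ F, ‖a m‖ₑ ^ 2 :=
    (ENNReal.mul_le_mul_iff_right (ENNReal.ofReal_pos.2 hδp).ne' ENNReal.ofReal_ne_top).1 hall2
  calc A = B⁻¹ * (B * A) := by
        rw [← mul_assoc, ENNReal.inv_mul_cancel hB0 hBf, one_mul]
    _ ≤ B⁻¹ * (C * J2 * ∑ m ∈ F, ‖a m‖ₑ ^ 2) := by gcongr
    _ = _ := by ring

theorem per_mono {𝓡 𝓡' : Set ℝ} (h : 𝓡 ⊆ 𝓡') (hp : PeriodicEstimate d 𝓡') :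
    PeriodicEstimate d 𝓡 := by
  obtain ⟨C, hC⟩ := hp
  refine ⟨C, fun F a => (lintegral_mono fun x => ?_).trans (hC F a)⟩
  exact biSup_mono fun R hR => h hR

end Pool.Agent.V11160.SPS
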