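import Mathlib
import Pool.Agent.V11160.SPS.K
set_option autoImplicit false

/-! # Sets of radii with bounded gaps -/

namespace Pool.Agent.V11160.SPS

open MeasureTheory Real FourierTransform Filter Topology
open scoped ENNReal RealInnerProductSpace NNReal

variable {d : ℕ}

/-- The coefficients in the annulus `N < |m| ≤ ρ`. -/
noncomputable def ee (a : (Fin d → ℤ) → ℂ) (N : ℕ) (ρ : ℝ) (m : Fin d → ℤ) : ℂ :=
  if (N : ℝ) < ‖vec m‖ ∧ ‖vec m‖ ≤ ρ then a m else 0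

theorem gaps_to_int {𝓡 : Set ℝ} (L : ℕ)
    (hgap : ∀ R : ℝ, 0 ≤ R → ∃ ρ ∈ 𝓡, R ≤ ρ ∧ ρ ≤ R + L) (h : PeriodicEstimate d 𝓡) :
    PeriodicEstimate d (Set.range fun N : ℕ => (N : ℝ)) := by
  obtain ⟨C, hC⟩ := h
  choose ρ hρ using fun N : ℕ => hgap N (Nat.cast_nonneg N)
  refine ⟨2 * C * (L + 2), fun F a => ?_⟩
  obtain ⟨T, hT⟩ : ∃ T : ℕ, ∀ m ∈ F, ‖vec m‖ ≤ T := by
    refine ⟨F.sup fun m => ⌈‖vec m‖⌉₊, fun m hm => ?_⟩
    calc ‖vec m‖ ≤ ⌈‖vec m‖⌉₊ := Nat.le_ceil _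
      _ ≤ _ := by exact_mod_cast Finset.le_sup (f := fun m => ⌈‖vec m‖⌉₊) hm
  have hbig : ∀ m ∈ F, ‖vec m‖ ≤ ρ T := fun m hm => (hT m hm).trans (hρ T).2.1
  have h0 : ∀ b : (Fin d → ℤ) → ℂ, ∫⁻ x in cube (0 : Fin d → ℤ), ‖trig F b (ρ T) x‖ₑ ^ 2
      ≤ C * ∑ m ∈ F, ‖b m‖ₑ ^ 2 := by
    intro b
    refine (lintegral_mono fun x => ?_).trans (hC F b)
    exact le_iSup₂ (f := fun (R : ℝ) (_ : R ∈ 𝓡) => ‖trig F b R x‖ₑ ^ 2) (ρ T) (hρ T).1
  have hsplit : ∀ (N : ℕ) (x : EuclideanSpace ℝ (Fin d)),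
      trig F a N x - trig F a (ρ N) x = - trig F (ee a N (ρ N)) (ρ T) x := by
    intro N x
    unfold trig
    rw [← Finset.sum_sub_distrib, ← Finset.sum_neg_distrib]
    refine Finset.sum_congr rfl fun m hm => ?_
    rw [if_pos (hbig m hm), ee]
    by_cases h1 : ‖vec m‖ ≤ N
    · rw [if_pos h1, if_pos (h1.trans (hρ N).2.1), if_neg (fun hh => absurd h1 (not_le.2 hh.1))]
      ring
    · rw [if_neg h1]
      by_cases h2 : ‖vec m‖ ≤ ρ N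
      · rw [if_pos h2, if_pos ⟨not_le.1 h1, h2⟩]
        ring
      · rw [if_neg h2, if_neg (fun hh => h2 hh.2)]
        ring
  have hcount : ∀ m : Fin d → ℤ, ∑' N : ℕ, ‖ee a N (ρ N) m‖ₑ ^ 2
      ≤ (L + 1 : ℕ) * ‖a m‖ₑ ^ 2 := by
    intro m
    set k := ⌊‖vec m‖⌋₊ with hk
    have hk1 : (k : ℝ) ≤ ‖vec m‖ := Nat.floor_le (norm_nonneg _)
    have hk2 : ‖vec m‖ < k + 1 := Nat.lt_floor_add_one _
    have hz : ∀ N ∉ Finset.Icc (k - L) k, ‖ee a N (ρ N) m‖ₑ ^ 2 = 0 := by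
      intro N hN
      have : ee a N (ρ N) m = 0 := by
        rw [ee, if_neg]
        rintro ⟨h1, h2⟩
        apply hN
        rw [Finset.mem_Icc]
        constructor
        · have h3 : (k : ℝ) ≤ N + L := hk1.trans (h2.trans (hρ N).2.2)
          have h4 : k ≤ N + L := by exact_mod_cast h3
          omega
        · have h3 : (N : ℝ) < k + 1 := h1.trans hk2
          have h4 : N < k + 1 := by exact_mod_cast h3
          omega
      rw [this]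
      simp
    rw [tsum_eq_sum hz]
    calc ∑ N ∈ Finset.Icc (k - L) k, ‖ee a N (ρ N) m‖ₑ ^ 2
        ≤ ∑ _N ∈ Finset.Icc (k - L) k, ‖a m‖ₑ ^ 2 := by
          refine Finset.sum_le_sum fun N _ => ?_
          rw [ee]
          split_ifs
          · exact le_rfl
          · simp
      _ = ((Finset.Icc (k - L) k).card : ℝ≥0∞) * ‖a m‖ₑ ^ 2 := by
          rw [Finset.sum_const, nsmul_eq_mul]
      _ ≤ _ := by
          gcongr
          rw [Nat.card_Icc]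
          omega
  have hms : ∀ N : ℕ, Measurable fun x => ‖trig F (ee a N (ρ N)) (ρ T) x‖ₑ ^ 2 :=
    fun N => (trig_meas F _ _).enorm.pow_const 2
  calc ∫⁻ x in cube (0 : Fin d → ℤ),
        (⨆ R ∈ Set.range (fun N : ℕ => (N : ℝ)), ‖trig F a R x‖ₑ ^ 2)
      ≤ ∫⁻ x in cube (0 : Fin d → ℤ), (2 * (⨆ R ∈ 𝓡, ‖trig F a R x‖ₑ ^ 2)
          + 2 * ∑' N : ℕ, ‖trig F (ee a N (ρ N)) (ρ T) x‖ₑ ^ 2) := by
        refine lintegral_mono fun x => iSup₂_le ?_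
        rintro R ⟨N, rfl⟩
        refine (enorm_sq_le _ (trig F a (ρ N) x)).trans ?_
        rw [hsplit, enorm_neg]
        gcongr
        · exact le_iSup₂ (f := fun (R : ℝ) (_ : R ∈ 𝓡) => ‖trig F a R x‖ₑ ^ 2) (ρ N) (hρ N).1
        · exact ENNReal.le_tsum (f := fun N : ℕ => ‖trig F (ee a N (ρ N)) (ρ T) x‖ₑ ^ 2) N
    _ = 2 * (∫⁻ x in cube (0 : Fin d → ℤ), (⨆ R ∈ 𝓡, ‖trig F a R x‖ₑ ^ 2))
          + 2 * ∑' N : ℕ, ∫⁻ x in cube (0 : Fin d → ℤ),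
            ‖trig F (ee a N (ρ N)) (ρ T) x‖ₑ ^ 2 := by
        rw [← lintegral_tsum (fun N => (hms N).aemeasurable),
          ← lintegral_const_mul' _ _ (by norm_num),
          ← lintegral_const_mul' _ _ (by norm_num), ← lintegral_add_right]
        exact (Measurable.ennreal_tsum hms).const_mul 2
    _ ≤ 2 * (C * ∑ m ∈ F, ‖a m‖ₑ ^ 2)
          + 2 * ∑' N : ℕ, (C * ∑ m ∈ F, ‖ee a N (ρ N) m‖ₑ ^ 2) := by
        gcongr with N
        · exact hC F a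
        · exact h0 _
    _ = 2 * (C * ∑ m ∈ F, ‖a m‖ₑ ^ 2)
          + 2 * (C * ∑ m ∈ F, ∑' N : ℕ, ‖ee a N (ρ N) m‖ₑ ^ 2) := by
        rw [ENNReal.tsum_mul_left, Summable.tsum_finsetSum fun m _ => ENNReal.summable]
    _ ≤ 2 * (C * ∑ m ∈ F, ‖a m‖ₑ ^ 2)
          + 2 * (C * ∑ m ∈ F, (L + 1 : ℕ) * ‖a m‖ₑ ^ 2) := by
        gcongr with m _
        exact hcount m
    _ = _ := by
        rw [← Finset.mul_sum]
        push_cast
        ring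

theorem main_equiv (n : ℕ) {𝓡 : Set ℝ} (L : ℕ)
    (hgap : ∀ R : ℝ, 0 ≤ R → ∃ ρ ∈ 𝓡, R ≤ ρ ∧ ρ ≤ R + L) :
    MaximalEstimate (n + 1) ↔ PeriodicEstimate (n + 1) 𝓡 := by
  constructor
  · intro h
    exact per_mono (Set.subset_univ _) (max_to_per h)
  · intro h
    exact (equiv_int n).2 (per_to_local (gaps_to_int L hgap h))

end Pool.Agent.V11160.SPS
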