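import Mathlib
import Pool.Agent.V11160.SPS.E
set_option autoImplicit false

/-! # Absolute continuity of the ball partial sums in the radius -/

namespace Pool.Agent.V11160.SPS

open MeasureTheory Real Filter Topology
open scoped ENNReal RealInnerProductSpace NNReal

variable {d : ℕ} {g : EuclideanSpace ℝ (Fin d) → ℂ}

/-- The energy of the increments over the radii `i / 2^m` between `k` and `k + 1`. -/
noncomputable def BK (g : EuclideanSpace ℝ (Fin d) → ℂ) (m k : ℕ)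
    (x : EuclideanSpace ℝ (Fin d)) : ℝ≥0∞ :=
  2 ^ m * ∑ i ∈ Finset.Ico (k * 2 ^ m) ((k + 1) * 2 ^ m),
      ‖piece g (i / 2 ^ m) (i / 2 ^ m + 1 / 2 ^ m) x‖ₑ ^ 2

theorem piece_add' (hg : MemLp g 2 volume) {a b c : ℝ} (hab : a ≤ b) (hbc : b ≤ c)
    (x : EuclideanSpace ℝ (Fin d)) : piece g a c x = piece g a b x + piece g b c x := by
  rw [← ballSum_sub hg (hab.trans hbc), ← ballSum_sub hg hab, ← ballSum_sub hg hbc]
  ring

theorem sum_pairs (h : ℕ → ℝ≥0∞) (a N : ℕ) :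
    ∑ i ∈ Finset.Ico a (a + N), (h (2 * i) + h (2 * i + 1))
      = ∑ i ∈ Finset.Ico (2 * a) (2 * a + 2 * N), h i := by
  induction N with
  | zero => simp
  | succ N ih =>
    rw [← add_assoc, Finset.sum_Ico_succ_top (by omega), ih,
      show 2 * a + 2 * (N + 1) = 2 * a + 2 * N + 1 + 1 by ring,
      Finset.sum_Ico_succ_top (by omega), Finset.sum_Ico_succ_top (by omega),
      show 2 * (a + N) = 2 * a + 2 * N by ring]
    simp only [add_assoc]

theorem sq_two (p q : ℂ) : ‖p + q‖ₑ ^ 2 ≤ 2 * (‖p‖ₑ ^ 2 + ‖q‖ₑ ^ 2) := by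
  have := sq_sum (Finset.univ : Finset (Fin 2)) ![p, q]
  simpa [Fin.sum_univ_two] using this

theorem BK_mono (hg : MemLp g 2 volume) (k : ℕ) (x : EuclideanSpace ℝ (Fin d)) :
    Monotone fun m => BK g m k x := by
  refine monotone_nat_of_le_succ fun m => ?_
  simp only [BK]
  set h : ℕ → ℝ≥0∞ := fun i =>
    ‖piece g (i / 2 ^ (m + 1)) (i / 2 ^ (m + 1) + 1 / 2 ^ (m + 1)) x‖ₑ ^ 2 with hh
  have h1 : ∀ i : ℕ, ‖piece g (i / 2 ^ m) (i / 2 ^ m + 1 / 2 ^ m) x‖ₑ ^ 2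
      ≤ 2 * (h (2 * i) + h (2 * i + 1)) := by
    intro i
    have e1 : (i : ℝ) / 2 ^ m = ((2 * i : ℕ) : ℝ) / 2 ^ (m + 1) := by
      push_cast
      rw [pow_succ]
      field_simp
    have e2 : ((2 * i + 1 : ℕ) : ℝ) / 2 ^ (m + 1)
        = ((2 * i : ℕ) : ℝ) / 2 ^ (m + 1) + 1 / 2 ^ (m + 1) := by
      push_cast
      ring
    have e3 : (1 : ℝ) / 2 ^ m = 1 / 2 ^ (m + 1) + 1 / 2 ^ (m + 1) := by
      rw [pow_succ]
      field_simp
      norm_num
    simp only [hh]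
    rw [e1, e3, e2, ← add_assoc,
      piece_add' hg (b := ((2 * i : ℕ) : ℝ) / 2 ^ (m + 1) + 1 / 2 ^ (m + 1))
        (le_add_of_nonneg_right (by positivity)) (le_add_of_nonneg_right (by positivity))]
    exact sq_two _ _
  calc 2 ^ m * ∑ i ∈ Finset.Ico (k * 2 ^ m) ((k + 1) * 2 ^ m),
        ‖piece g (i / 2 ^ m) (i / 2 ^ m + 1 / 2 ^ m) x‖ₑ ^ 2
      ≤ 2 ^ m * ∑ i ∈ Finset.Ico (k * 2 ^ m) ((k + 1) * 2 ^ m), 2 * (h (2 * i) + h (2 * i + 1)) := by
        gcongr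
        exact h1 _
    _ = 2 ^ (m + 1) * ∑ i ∈ Finset.Ico (k * 2 ^ (m + 1)) ((k + 1) * 2 ^ (m + 1)), h i := by
        rw [← Finset.mul_sum, show (k + 1) * 2 ^ m = k * 2 ^ m + 2 ^ m by ring, sum_pairs,
          show 2 * (k * 2 ^ m) + 2 * 2 ^ m = (k + 1) * 2 ^ (m + 1) by ring,
          show 2 * (k * 2 ^ m) = k * 2 ^ (m + 1) by ring, ← mul_assoc, pow_succ (2 : ℝ≥0∞)]

theorem piece_meas (hm : Measurable g) (a b : ℝ) : Measurable fun x => ‖piece g a b x‖ₑ ^ 2 := by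
  have : StronglyMeasurable (piece g a b) := by
    unfold piece
    apply StronglyMeasurable.integral_prod_right'
      (f := fun p : EuclideanSpace ℝ (Fin d) × EuclideanSpace ℝ (Fin d) =>
        g p.2 * Complex.exp (2 * π * Complex.I * ⟪p.1, p.2⟫))
    apply Measurable.stronglyMeasurable
    fun_prop
  exact (this.measurable.enorm).pow_const 2

theorem BK_meas (hm : Measurable g) (m k : ℕ) : Measurable (BK g m k) := by
  unfold BK
  refine Measurable.const_mul ?_ _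
  exact Finset.measurable_fun_sum _ fun i _ => piece_meas hm _ _

/-- The energy between `k` and `k + 1`. -/
noncomputable def EK (g : EuclideanSpace ℝ (Fin d) → ℂ) (k : ℕ)
    (x : EuclideanSpace ℝ (Fin d)) : ℝ≥0∞ := ⨆ m, BK g m k x

theorem EK_meas (hm : Measurable g) (k : ℕ) : Measurable (EK g k) := by
  unfold EK
  exact Measurable.iSup fun m => BK_meas hm m k

theorem sum_BK (m : ℕ) (x : EuclideanSpace ℝ (Fin d)) (N K : ℕ) :
    ∑ k ∈ Finset.range K, BK g m (k + N) x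
      = 2 ^ m * ∑ i ∈ Finset.Ico (N * 2 ^ m) ((K + N) * 2 ^ m),
        ‖piece g (i / 2 ^ m) (i / 2 ^ m + 1 / 2 ^ m) x‖ₑ ^ 2 := by
  induction K with
  | zero => simp
  | succ K ih =>
    rw [Finset.sum_range_succ, ih, BK, ← mul_add, Finset.sum_Ico_consecutive _
      (Nat.mul_le_mul_right _ (by omega)) (Nat.mul_le_mul_right _ (by omega)),
      show K + 1 + N = K + N + 1 by ring]

theorem lint_EK (n : ℕ) {g : EuclideanSpace ℝ (Fin (n + 1)) → ℂ} (hm : Measurable g)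
    (hg : MemLp g 2 volume) (z : EuclideanSpace ℝ (Fin (n + 1))) (r : ℝ) :
    ∫⁻ x in Metric.closedBall z r, ∑' k : ℕ, EK g k x
      ≤ ENNReal.ofReal (KK n r) * ∫⁻ ξ, ‖g ξ‖ₑ ^ 2 := by
  rw [lintegral_tsum fun k => (EK_meas hm k).aemeasurable, ENNReal.tsum_eq_iSup_nat]
  refine iSup_le fun K => ?_
  have h1 : ∀ k, ∫⁻ x in Metric.closedBall z r, EK g k x
      = ⨆ m, ∫⁻ x in Metric.closedBall z r, BK g m k x := by
    intro k
    unfold EK
    rw [lintegral_iSup (fun m => BK_meas hm m k) (fun m m' h x => BK_mono hg k x h)]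
  simp only [h1]
  rw [ENNReal.finsetSum_iSup_of_monotone (fun k => fun m m' h =>
    lintegral_mono fun x => BK_mono hg k x h)]
  refine iSup_le fun m => ?_
  calc ∑ k ∈ Finset.range K, ∫⁻ x in Metric.closedBall z r, BK g m k x
      = ∫⁻ x in Metric.closedBall z r, ∑ k ∈ Finset.range K, BK g m k x := by
        rw [lintegral_finsetSum _ fun k _ => BK_meas hm m k]
    _ ≤ ∫⁻ x in Metric.closedBall z r, QQ g m x := by
        refine lintegral_mono fun x => ?_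
        have h2 := sum_BK (g := g) m x 0 K
        simp only [add_zero] at h2
        simp only
        rw [h2]
        unfold QQ
        gcongr
        exact ENNReal.sum_le_tsum _
    _ ≤ _ := lint_QQ n hm hg m z r

theorem part_dyadic (hg : MemLp g 2 volume) (m : ℕ) (x : EuclideanSpace ℝ (Fin d)) (N : ℕ)
    (i : ℕ → ℕ) (hi : Monotone i) (h0 : N * 2 ^ m ≤ i 0) (J : ℕ) :
    ∑ j ∈ Finset.range J, ‖ballSum g (i (j + 1) / 2 ^ m) x - ballSum g (i j / 2 ^ m) x‖ₑ ^ 2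
      / ENNReal.ofReal (i (j + 1) / 2 ^ m - i j / 2 ^ m) ≤ ∑' k, EK g (k + N) x := by
  set q : ℕ → ℝ≥0∞ := fun l => ‖piece g (l / 2 ^ m) (l / 2 ^ m + 1 / 2 ^ m) x‖ₑ ^ 2 with hq
  have h1 : ∀ j, ‖ballSum g (i (j + 1) / 2 ^ m) x - ballSum g (i j / 2 ^ m) x‖ₑ ^ 2
      / ENNReal.ofReal (i (j + 1) / 2 ^ m - i j / 2 ^ m)
      ≤ 2 ^ m * ∑ l ∈ Finset.Ico (i j) (i (j + 1)), q l := by
    intro j
    have hij := hi (Nat.le_succ j)
    refine ENNReal.div_le_of_le_mul ?_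
    have h3 := Finset.sum_Ico_sub (fun l : ℕ => ballSum g ((l : ℝ) / 2 ^ m) x) hij
    have h5 : ∀ l ∈ Finset.Ico (i j) (i (j + 1)),
        ballSum g (((l + 1 : ℕ) : ℝ) / 2 ^ m) x - ballSum g ((l : ℝ) / 2 ^ m) x
        = piece g (l / 2 ^ m) (l / 2 ^ m + 1 / 2 ^ m) x := by
      intro l _
      rw [ballSum_sub hg (by push_cast; gcongr; linarith)]
      congr 1
      push_cast
      ring
    rw [Finset.sum_congr rfl h5] at h3
    have h6 : ‖ballSum g (i (j + 1) / 2 ^ m) x - ballSum g (i j / 2 ^ m) x‖ₑ ^ 2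
        ≤ ((i (j + 1) - i j : ℕ) : ℝ≥0∞) * ∑ l ∈ Finset.Ico (i j) (i (j + 1)), q l := by
      have := sq_sum (Finset.Ico (i j) (i (j + 1)))
        (fun l : ℕ => piece g ((l : ℝ) / 2 ^ m) (l / 2 ^ m + 1 / 2 ^ m) x)
      rw [h3, Nat.card_Ico] at this
      exact this
    refine h6.trans (le_of_eq ?_)
    have h7 : (2 : ℝ≥0∞) ^ m * ENNReal.ofReal (i (j + 1) / 2 ^ m - i j / 2 ^ m)
        = ((i (j + 1) - i j : ℕ) : ℝ≥0∞) := by
      have h8 : (2 : ℝ≥0∞) ^ m = ENNReal.ofReal (2 ^ m) := by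
        rw [ENNReal.ofReal_pow (by norm_num)]
        norm_num
      rw [h8, ← ENNReal.ofReal_mul (by positivity), ← ENNReal.ofReal_natCast, Nat.cast_sub hij]
      congr 1
      field_simp
    rw [← h7]
    ring
  have h2 : ∀ J : ℕ, ∑ j ∈ Finset.range J, ∑ l ∈ Finset.Ico (i j) (i (j + 1)), q l
      = ∑ l ∈ Finset.Ico (i 0) (i J), q l := by
    intro J
    induction J with
    | zero => simp
    | succ J ih =>
      rw [Finset.sum_range_succ, ih, Finset.sum_Ico_consecutive _ (hi (Nat.zero_le J))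
        (hi (Nat.le_succ J))]
  calc ∑ j ∈ Finset.range J, ‖ballSum g (i (j + 1) / 2 ^ m) x - ballSum g (i j / 2 ^ m) x‖ₑ ^ 2
      / ENNReal.ofReal (i (j + 1) / 2 ^ m - i j / 2 ^ m)
      ≤ ∑ j ∈ Finset.range J, 2 ^ m * ∑ l ∈ Finset.Ico (i j) (i (j + 1)), q l :=
        Finset.sum_le_sum fun j _ => h1 j
    _ = 2 ^ m * ∑ l ∈ Finset.Ico (i 0) (i J), q l := by rw [← Finset.mul_sum, h2]
    _ ≤ 2 ^ m * ∑ l ∈ Finset.Ico (N * 2 ^ m) ((i J + N) * 2 ^ m), q l := by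
        refine mul_le_mul' le_rfl (Finset.sum_le_sum_of_subset (Finset.Ico_subset_Ico h0 ?_))
        calc i J = i J * 1 := (mul_one _).symm
            _ ≤ (i J + N) * 2 ^ m := Nat.mul_le_mul (by omega) Nat.one_le_two_pow
    _ = ∑ k ∈ Finset.range (i J), BK g m (k + N) x := (sum_BK m x N (i J)).symm
    _ ≤ ∑ k ∈ Finset.range (i J), EK g (k + N) x :=
        Finset.sum_le_sum fun k _ => le_iSup (fun m => BK g m (k + N) x) m
    _ ≤ _ := ENNReal.sum_le_tsum _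

theorem approx (hg : MemLp g 2 volume) (R : ℝ) (hR : 0 ≤ R) (x : EuclideanSpace ℝ (Fin d)) :
    Tendsto (fun m : ℕ => ((⌊R * 2 ^ m⌋₊ + 1 : ℕ) : ℝ) / 2 ^ m) atTop (𝓝 R) ∧
    Tendsto (fun m : ℕ => ballSum g (((⌊R * 2 ^ m⌋₊ + 1 : ℕ) : ℝ) / 2 ^ m) x) atTop
      (𝓝 (ballSum g R x)) := by
  set ρ : ℕ → ℝ := fun m => ((⌊R * 2 ^ m⌋₊ + 1 : ℕ) : ℝ) / 2 ^ m with hρ
  have hp : ∀ m : ℕ, (0 : ℝ) < 2 ^ m := fun m => by positivity
  have h1 : ∀ m, R ≤ ρ m := by
    intro m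
    rw [hρ]
    simp only
    rw [le_div_iff₀ (hp m)]
    push_cast
    exact (Nat.lt_floor_add_one _).le
  have h1' : ∀ m, ρ m ≤ R + 1 / 2 ^ m := by
    intro m
    rw [hρ]
    simp only
    rw [div_le_iff₀ (hp m)]
    push_cast
    have := Nat.floor_le (show 0 ≤ R * 2 ^ m by positivity)
    have h : (R + 1 / 2 ^ m) * 2 ^ m = R * 2 ^ m + 1 := by
      field_simp
    linarith
  have h2 : Antitone ρ := by
    refine antitone_nat_of_succ_le fun m => ?_
    rw [hρ]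
    simp only
    rw [div_le_div_iff₀ (hp _) (hp _)]
    have h3 : ⌊R * 2 ^ (m + 1)⌋₊ < 2 * (⌊R * 2 ^ m⌋₊ + 1) := by
      rw [Nat.floor_lt (by positivity)]
      push_cast
      have := Nat.lt_floor_add_one (R * 2 ^ m)
      rw [pow_succ]
      linarith
    have h4 : ((⌊R * 2 ^ (m + 1)⌋₊ + 1 : ℕ) : ℝ) ≤ 2 * ((⌊R * 2 ^ m⌋₊ + 1 : ℕ) : ℝ) := by
      exact_mod_cast h3
    refine (mul_le_mul_of_nonneg_right h4 (hp m).le).trans (le_of_eq ?_)
    rw [pow_succ (2 : ℝ) m]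
    ring
  have h3 : Tendsto ρ atTop (𝓝 R) := by
    refine tendsto_of_tendsto_of_tendsto_of_le_of_le tendsto_const_nhds ?_ h1 h1'
    have : Tendsto (fun m : ℕ => R + (1 / 2 : ℝ) ^ m) atTop (𝓝 (R + 0)) :=
      tendsto_const_nhds.add (tendsto_pow_atTop_nhds_zero_of_lt_one (by norm_num) (by norm_num))
    rw [add_zero] at this
    refine this.congr fun m => ?_
    rw [one_div_pow]
  exact ⟨h3, ballSum_right hg R x ρ h2 h1 h3⟩

theorem part_real (hg : MemLp g 2 volume) (x : EuclideanSpace ℝ (Fin d)) (N : ℕ)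
    (ρ : ℕ → ℝ) (hρ : Monotone ρ) (h0 : N ≤ ρ 0) (J : ℕ) :
    ∑ j ∈ Finset.range J, ‖ballSum g (ρ (j + 1)) x - ballSum g (ρ j) x‖ₑ ^ 2
      / ENNReal.ofReal (ρ (j + 1) - ρ j) ≤ ∑' k, EK g (k + N) x := by
  have hρ0 : ∀ j, 0 ≤ ρ j := fun j => (Nat.cast_nonneg N).trans (h0.trans (hρ (Nat.zero_le j)))
  set i : ℕ → ℕ → ℕ := fun m j => ⌊ρ j * 2 ^ m⌋₊ + 1 with hi
  have h1 : ∀ m, ∑ j ∈ Finset.range J,
      ‖ballSum g (i m (j + 1) / 2 ^ m) x - ballSum g (i m j / 2 ^ m) x‖ₑ ^ 2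
      / ENNReal.ofReal (i m (j + 1) / 2 ^ m - i m j / 2 ^ m) ≤ ∑' k, EK g (k + N) x := by
    intro m
    refine part_dyadic hg m x N (i m) ?_ ?_ J
    · intro j j' hjj
      simp only [hi]
      gcongr
      exact hρ hjj
    · simp only [hi]
      refine Nat.le_succ_of_le (Nat.le_floor ?_)
      push_cast
      gcongr
  refine le_of_tendsto' (x := (atTop : Filter ℕ)) ?_ h1
  refine tendsto_finsetSum _ fun j _ => ?_
  rcases eq_or_lt_of_le (hρ (Nat.le_succ j)) with he | hlt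
  · have e1 : ∀ m, i m (j + 1) = i m j := fun m => by simp only [hi, ← he]
    simp only [e1, ← he, sub_self, enorm_zero]
    simp
  · have ha := approx hg (ρ j) (hρ0 j) x
    have hb := approx hg (ρ (j + 1)) (hρ0 (j + 1)) x
    have h5 : Tendsto (fun m => ‖ballSum g (i m (j + 1) / 2 ^ m) x
        - ballSum g (i m j / 2 ^ m) x‖ₑ ^ 2) atTop
        (𝓝 (‖ballSum g (ρ (j + 1)) x - ballSum g (ρ j) x‖ₑ ^ 2)) := by
      have : Continuous fun z : ℂ => ‖z‖ₑ ^ 2 := (ENNReal.continuous_pow 2).comp continuous_enorm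
      exact (this.tendsto _).comp (hb.2.sub ha.2)
    have h6 : Tendsto (fun m => ENNReal.ofReal ((i m (j + 1) : ℝ) / 2 ^ m - i m j / 2 ^ m)) atTop
        (𝓝 (ENNReal.ofReal (ρ (j + 1) - ρ j))) :=
      (ENNReal.continuous_ofReal.tendsto _).comp (hb.1.sub ha.1)
    refine ENNReal.Tendsto.div h5 (Or.inr ?_) h6 (Or.inl ENNReal.ofReal_ne_top)
    exact (ENNReal.ofReal_pos.2 (sub_pos.2 hlt)).ne'

theorem two_radii (hg : MemLp g 2 volume) (x : EuclideanSpace ℝ (Fin d)) (N : ℕ)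
    (R R' : ℝ) (hN : N ≤ R) (hRR : R ≤ R') {ε : ℝ} (hε : 0 < ε)
    (h : ∑' k, EK g (k + N) x ≤ ENNReal.ofReal (ε ^ 2)) :
    ‖ballSum g R' x - ballSum g R x‖ ≤ ε * √(R' - R) := by
  rcases eq_or_lt_of_le hRR with he | hlt
  · rw [← he]
    simp
  have h1 := part_real hg x N (fun j => if j = 0 then R else R')
    (monotone_nat_of_le_succ fun j => by
      rcases Nat.eq_zero_or_pos j with hj | hj
      · simp [hj, hRR]
      · simp [hj.ne']) (by simpa using hN) 1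
  simp only [Finset.range_one, Finset.sum_singleton, zero_add, if_true, one_ne_zero, if_false] at h1
  have h2 : 0 < R' - R := sub_pos.2 hlt
  have h3 := h1.trans h
  rw [ENNReal.div_le_iff (ENNReal.ofReal_pos.2 h2).ne' ENNReal.ofReal_ne_top, ← ofReal_norm,
    ← ENNReal.ofReal_pow (norm_nonneg _), ← ENNReal.ofReal_mul (by positivity),
    ENNReal.ofReal_le_ofReal_iff (by positivity)] at h3
  refine le_of_sq_le_sq ?_ (by positivity)
  rw [mul_pow, Real.sq_sqrt h2.le]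
  exact h3

theorem ae_tail (n : ℕ) {g : EuclideanSpace ℝ (Fin (n + 1)) → ℂ} (hm : Measurable g)
    (hg : MemLp g 2 volume) : ∀ᵐ x : EuclideanSpace ℝ (Fin (n + 1)), ∀ ε : ℝ, 0 < ε →
      ∃ N : ℕ, ∑' k, EK g (k + N) x ≤ ENNReal.ofReal (ε ^ 2) := by
  have hfin : ∫⁻ ξ, ‖g ξ‖ₑ ^ 2 ≠ ⊤ := by
    have := hg.2
    rw [eLpNorm_lt_top_iff_lintegral_rpow_enorm_lt_top (by norm_num) (by norm_num)] at this
    simpa using this.ne
  have key : ∀ r : ℕ, ∀ᵐ x ∂volume.restrict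
      (Metric.closedBall (0 : EuclideanSpace ℝ (Fin (n + 1))) r), ∑' k : ℕ, EK g k x < ⊤ := by
    intro r
    refine ae_lt_top (Measurable.tsum fun k => EK_meas hm k) ?_
    exact ((lint_EK n hm hg 0 r).trans_lt (ENNReal.mul_lt_top ENNReal.ofReal_lt_top
      hfin.lt_top)).ne
  have key2 : ∀ᵐ x, ∀ r : ℕ, x ∈ Metric.closedBall (0 : EuclideanSpace ℝ (Fin (n + 1))) r →
      ∑' k : ℕ, EK g k x < ⊤ := by
    rw [ae_all_iff]
    intro r
    exact (ae_restrict_iff' measurableSet_closedBall).1 (key r)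
  filter_upwards [key2] with x hx ε hε
  have hx' := hx ⌈‖x‖⌉₊ (by simpa using Nat.le_ceil ‖x‖)
  have h1 := ENNReal.tendsto_sum_nat_add (fun k => EK g k x) hx'.ne
  exact (h1.eventually_le_const (ENNReal.ofReal_pos.2 (by positivity))).exists

end Pool.Agent.V11160.SPS
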